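import Pool.Agent.K3h30.RS.Stm
import Pool.Agent.H39R3.Tor.SUnit

/-!
# The action of `G` on the `S`-units
-/

set_option autoImplicit false
set_option linter.unusedSectionVars false

open NumberField IsDedekindDomain Filter Topology

noncomputable section

namespace Pool.Agent.K3h30.RS

section act

variable {H G : Type} [Field H] [CommGroup G] [MulSemiringAction G H]

@[simp] theorem act_val (γ : G) (x : Hˣ) : ((act γ x : Hˣ) : H) = γ • (x : H) := rfl

theorem act_one (x : Hˣ) : act (1 : G) x = x := by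
  ext; simp

theorem act_mul (γ γ' : G) (x : Hˣ) : act (γ * γ') x = act γ (act γ' x) := by
  ext; simp [mul_smul]

theorem act_map_mul (γ : G) (x y : Hˣ) : act γ (x * y) = act γ x * act γ y := map_mul _ _ _

theorem act_map_one (γ : G) : act γ (1 : Hˣ) = 1 := map_one _

theorem act_pow (γ : G) (x : Hˣ) (n : ℕ) : act γ (x ^ n) = act γ x ^ n := map_pow _ _ _

end act

variable {F H G : Type} [Field F] [NumberField F] [Field H] [NumberField H] [Algebra F H]
  [CommGroup G] [Finite G] [MulSemiringAction G H]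

/-- every prime ideal of `H` lies over one of `F` -/
theorem exists_above (w : HeightOneSpectrum (𝓞 H)) :
    ∃ v : HeightOneSpectrum (𝓞 F), Above {v} w := by
  have h1 : w.asIdeal.comap (algebraMap (𝓞 F) (𝓞 H)) ≠ ⊥ := by
    have := Ideal.under_ne_bot (A := 𝓞 F) (P := w.asIdeal) w.ne_bot
    exact this
  have h2 : (w.asIdeal.comap (algebraMap (𝓞 F) (𝓞 H))).IsPrime := by
    have := w.isPrime
    exact Ideal.comap_isPrime _ _
  exact ⟨⟨_, h2, h1⟩, _, rfl, rfl⟩

theorem above_singleton {v : HeightOneSpectrum (𝓞 F)} {w : HeightOneSpectrum (𝓞 H)} :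
    Above {v} w ↔ w.asIdeal.comap (algebraMap (𝓞 F) (𝓞 H)) = v.asIdeal := by
  constructor
  · rintro ⟨v', h, h'⟩
    rw [Set.mem_singleton_iff] at h
    rw [← h, h']
  · intro h
    exact ⟨v, rfl, h⟩

theorem above_iff {S : Set (HeightOneSpectrum (𝓞 F))} {v : HeightOneSpectrum (𝓞 F)}
    {w : HeightOneSpectrum (𝓞 H)} (h : Above {v} w) : Above S w ↔ v ∈ S := by
  rw [above_singleton] at h
  constructor
  · rintro ⟨v', h1, h2⟩
    have : v' = v := HeightOneSpectrum.ext (by rw [← h2, h])
    rwa [← this]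
  · intro hv
    exact ⟨v, hv, h⟩

theorem above_mem {S : Set (HeightOneSpectrum (𝓞 F))} {w : HeightOneSpectrum (𝓞 H)}
    (h : Above S w) : ∃ v ∈ S, Above {v} w := by
  obtain ⟨v, h1, h2⟩ := h
  exact ⟨v, h1, v, rfl, h2⟩

theorem mem_unitGroup {S T : Set (HeightOneSpectrum (𝓞 F))} {x : Hˣ} :
    x ∈ unitGroup S T ↔ (∀ w : HeightOneSpectrum (𝓞 H), ¬ Above S w → w.valuation H (x : H) = 1) ∧
      ∀ w : HeightOneSpectrum (𝓞 H), Above T w → w.valuation H ((x : H) - 1) < 1 := Iff.rfl

theorem act_mem (hT : S_TRANS) [IsGaloisGroup G F H] (S T : Set (HeightOneSpectrum (𝓞 F)))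
    (γ : G) {x : Hˣ} (hx : x ∈ unitGroup S T) : act γ x ∈ unitGroup S T := by
  rw [mem_unitGroup] at hx ⊢
  refine ⟨fun w hw => ?_, fun w hw => ?_⟩
  · obtain ⟨v, hv⟩ := exists_above (F := F) w
    obtain ⟨w', h1, h2⟩ := (hT F H G v w hv).1 γ
    rw [act_val, ← h2]
    refine hx.1 w' ?_
    rw [above_iff h1]
    rwa [above_iff hv] at hw
  · obtain ⟨v, hvT, hv⟩ := above_mem hw
    obtain ⟨w', h1, h2⟩ := (hT F H G v w hv).1 γ
    have : (act γ x : H) - 1 = γ • ((x : H) - 1) := by
      rw [act_val, smul_sub, smul_one]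
    rw [this, ← h2]
    refine hx.2 w' ?_
    rw [above_iff h1]
    exact hvT

/-- the additive group of the `S`-units with the action of `G` -/
@[reducible] def actionA (hT : S_TRANS) [IsGaloisGroup G F H]
    (S T : Set (HeightOneSpectrum (𝓞 F))) :
    DistribMulAction G (Additive (unitGroup (H := H) S T)) where
  smul γ x := Additive.ofMul ⟨act γ (Additive.toMul x : unitGroup S T), act_mem hT S T γ
    (Additive.toMul x).2⟩
  one_smul x := by
    change Additive.ofMul _ = x
    apply Additive.toMul.injective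
    ext
    simp [act_one]
  mul_smul γ γ' x := congrArg Additive.ofMul (Subtype.ext (act_mul γ γ' _))
  smul_zero γ := by
    change Additive.ofMul _ = (0 : Additive (unitGroup (H := H) S T))
    apply Additive.toMul.injective
    ext
    simp
  smul_add γ x y := by
    change Additive.ofMul _ = Additive.ofMul _ + Additive.ofMul _
    apply Additive.toMul.injective
    ext
    simp

/-- the `S`-units form a finitely generated group -/
theorem fgA (hO : S_OVER) (S : Finset (HeightOneSpectrum (𝓞 F))) :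
    AddGroup.FG (Additive (unitGroup (H := H) (S : Set (HeightOneSpectrum (𝓞 F))) ∅)) := by
  have hfin : {w : HeightOneSpectrum (𝓞 H) | Above (S : Set (HeightOneSpectrum (𝓞 F))) w}.Finite := by
    have : {w : HeightOneSpectrum (𝓞 H) | Above (S : Set (HeightOneSpectrum (𝓞 F))) w} =
        ⋃ v ∈ S, {w : HeightOneSpectrum (𝓞 H) | Above {v} w} := by
      ext w
      simp only [Set.mem_iUnion]
      constructor
      · intro h
        obtain ⟨v, hv, h'⟩ := above_mem h
        exact ⟨v, hv, h'⟩
      · rintro ⟨v, hv, h'⟩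
        exact (above_iff h').2 hv
    rw [this]
    exact Set.Finite.biUnion S.finite_toSet (fun v _ => (hO F H v).2)
  have h1 := Pool.Agent.H39R3.Tor.sunit_fg H _ hfin
  have h2 : unitGroup (H := H) (S : Set (HeightOneSpectrum (𝓞 F))) ∅ =
      {w : HeightOneSpectrum (𝓞 H) | Above (S : Set (HeightOneSpectrum (𝓞 F))) w}.unit H := by
    ext x
    constructor
    · intro hx w hw
      exact hx.1 w hw
    · intro hx
      refine ⟨fun w hw => hx w hw, fun w hw => ?_⟩
      obtain ⟨v, hv, -⟩ := hw
      exact absurd hv (Set.notMem_empty v)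
  rw [h2]
  have h3 : Group.FG ({w : HeightOneSpectrum (𝓞 H) | Above (S : Set (HeightOneSpectrum (𝓞 F))) w}.unit H) :=
    (Group.fg_iff_subgroup_fg _).2 h1
  exact AddGroup.fg_iff_addMonoid_fg.2 (Monoid.fg_iff_add_fg.1 (Group.fg_iff_monoid_fg.1 h3))

end Pool.Agent.K3h30.RS
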