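import Pool.Agent.K3h30.RS.Stm4
import Pool.Agent.K3h92.RS.Fix
import Pool.Agent.K3h91.RS.Euler

/-!
# Adding primes which do not split completely to `S`
-/

set_option autoImplicit false

open NumberField IsDedekindDomain Filter Topology

noncomputable section

namespace Pool.Agent.K3h30.RS

variable {F H G : Type} [Field F] [NumberField F] [Field H] [NumberField H] [Algebra F H]
  [CommGroup G] [Finite G] [MulSemiringAction G H]

theorem norm_cpow_lt {F : Type} [Field F] [NumberField F] (v : HeightOneSpectrum (𝓞 F)) {s : ℂ}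
    (hs : 1 < s.re) : ‖(Ideal.absNorm v.asIdeal : ℂ) ^ (-s)‖ < 1 := by
  have h0 : Ideal.absNorm v.asIdeal ≠ 0 := by
    rw [Ne, Ideal.absNorm_eq_zero_iff]
    exact v.ne_bot
  have h1 : Ideal.absNorm v.asIdeal ≠ 1 := by
    rw [Ne, Ideal.absNorm_eq_one_iff]
    exact v.isPrime.ne_top
  have h2 : (1 : ℝ) < (Ideal.absNorm v.asIdeal : ℝ) := by
    have : 1 < Ideal.absNorm v.asIdeal := by omega
    exact_mod_cast this
  have h3 : ((Ideal.absNorm v.asIdeal : ℕ) : ℂ) = ((Ideal.absNorm v.asIdeal : ℝ) : ℂ) := by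
    push_cast
    rfl
  rw [h3, Complex.norm_cpow_eq_rpow_re_of_pos (by linarith), Complex.neg_re]
  exact Real.rpow_lt_one_of_one_lt_of_neg h2 (by linarith)

theorem norm_char {G : Type} [CommGroup G] [Finite G] (χ : G →* ℂˣ) (g : G) :
    ‖(χ g : ℂ)‖ = 1 := by
  have h : (χ g : ℂ) ^ Nat.card G = 1 := by
    rw [← Units.val_pow_eq_pow_val, ← map_pow, pow_card_eq_one', map_one, Units.val_one]
  exact Complex.norm_eq_one_of_pow_eq_one h Nat.card_pos.ne'

theorem factor_ne_zero {G : Type} [CommGroup G] [Finite G] (χ : G →* ℂˣ) (g : G)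
    (v : HeightOneSpectrum (𝓞 F)) {s : ℂ} (hs : 1 < s.re) :
    1 - (χ g : ℂ) * (Ideal.absNorm v.asIdeal : ℂ) ^ (-s) ≠ 0 := by
  intro h
  have h1 : (χ g : ℂ) * (Ideal.absNorm v.asIdeal : ℂ) ^ (-s) = 1 := (sub_eq_zero.1 h).symm
  have h2 := congrArg norm h1
  rw [norm_mul, norm_char, one_mul, norm_one] at h2
  exact absurd h2 (norm_cpow_lt v hs).ne

theorem above_mono {S S' : Set (HeightOneSpectrum (𝓞 F))} (h : S ⊆ S')
    {w : HeightOneSpectrum (𝓞 H)} (hw : Above S w) : Above S' w := by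
  obtain ⟨v, hv, hvw⟩ := hw
  exact ⟨v, h hv, hvw⟩

theorem inS_mono {S S' : Set (HeightOneSpectrum (𝓞 F))} (h : S ⊆ S') {u : Place H}
    (hu : InS S u) : InS S' u := by
  cases u with
  | inl w => exact trivial
  | inr w => exact above_mono h hu

open Classical in
theorem inS_union {S V : Finset (HeightOneSpectrum (𝓞 F))} {u : Place H}
    (hu : InS ((S ∪ V : Finset (HeightOneSpectrum (𝓞 F))) : Set (HeightOneSpectrum (𝓞 F))) u) :
    InS (S : Set (HeightOneSpectrum (𝓞 F))) u ∨
      ∃ v ∈ V, ∃ w : HeightOneSpectrum (𝓞 H), u = Sum.inr w ∧ Above {v} w := by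
  cases u with
  | inl w => exact Or.inl trivial
  | inr w =>
    obtain ⟨v, hv, hvw⟩ := hu
    rw [Finset.mem_coe, Finset.mem_union] at hv
    rcases hv with hv | hv
    · exact Or.inl ⟨v, Finset.mem_coe.2 hv, hvw⟩
    · exact Or.inr ⟨v, hv, w, rfl, v, rfl, hvw⟩

open Classical in
/-- The data for `S ∪ V`, `V` a finite set of prime ideals outside `S` which do not split completely
in `H` (that is, `σ v ≠ 1`): the places `w_1, ..., w_r` are the same, the functions `L_S(χ, s)` are
multiplied by the Euler factors `1 - χ(σ v) N v ^ (-s)`, `v ∈ V`. -/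
def RubinData.addPrimes [IsGaloisGroup G F H] (D : RubinData F H G)
    (V : Finset (HeightOneSpectrum (𝓞 F))) (hV : ∀ v ∈ V, v ∉ D.S ∧ D.σ v ≠ 1) :
    RubinData F H G where
  S := D.S ∪ V
  unramified v hv := D.unramified v fun h => hv (Finset.mem_union_left _ h)
  r := D.r
  w := D.w
  inS i := inS_mono (Finset.coe_subset.2 Finset.subset_union_left) (D.inS i)
  splits := D.splits
  distinct := D.distinct
  all u hu h := by
    rcases inS_union hu with h1 | ⟨v, hv, w, rfl, hvw⟩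
    · exact D.all u h1 h
    · exact absurd (h _ (Pool.Agent.K3h92.RS.t_FIX F H G v (D.σ v) (D.frob v (hV v hv).1) w hvw)) (hV v hv).2
  more := by
    obtain ⟨u, hu, h⟩ := D.more
    exact ⟨u, inS_mono (Finset.coe_subset.2 Finset.subset_union_left) hu, h⟩
  σ := D.σ
  frob v hv := D.frob v fun h => hv (Finset.mem_union_left _ h)
  L χ s := (∏ v ∈ V, (1 - (χ (D.σ v) : ℂ) * (Ideal.absNorm v.asIdeal : ℂ) ^ (-s))) * D.L χ s
  analytic χ := by
    refine DifferentiableOn.mul ?_ (D.analytic χ)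
    refine Differentiable.differentiableOn ?_
    refine Differentiable.fun_finsetProd fun v _ => ?_
    have h0 : (Ideal.absNorm v.asIdeal : ℂ) ≠ 0 := by
      rw [Ne, Nat.cast_eq_zero, Ideal.absNorm_eq_zero_iff]
      exact v.ne_bot
    refine (differentiable_const _).sub ((differentiable_const _).mul ?_)
    exact fun s => (differentiableAt_id.neg).const_cpow (Or.inl h0)
  euler χ s hs := by
    refine Pool.Agent.K3h91.RS.t_EULER _ D.S V (fun v => 1 - (χ (D.σ v) : ℂ) *
      (Ideal.absNorm v.asIdeal : ℂ) ^ (-s)) _ ?_ (fun v _ => factor_ne_zero χ _ v hs)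
      (D.euler χ s hs)
    rw [Finset.disjoint_left]
    exact fun v h1 h2 => (hV v h2).1 h1

/-- The part at the prime number `p` of Rubin's conjecture for `H / F`, `S`, `T`: the conjecture
with `ψ (u) ∈ ℤ_(p)[G]` in place of `ψ (u) ∈ ℤ[G]`. -/
def RubinData.RubinAt (D : RubinData F H G) (p : ℕ) (T : Finset (HeightOneSpectrum (𝓞 F))) : Prop :=
  ∃ u : Wedge G D.r (D.U T), D.InER u ∧ D.IsStark T u ∧
    ∀ ψ : Fin D.r → GHom G (D.U T), ∃ n : ℕ, ¬ p ∣ n ∧
      ∃ z : MonoidAlgebra ℤ G, (n : MonoidAlgebra ℚ G) * u.value ψ = toQ z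

end Pool.Agent.K3h30.RS
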