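import Pool.Agent.K3h30.RS.Loc

/-!
# Algebra of group rings
-/

set_option autoImplicit false
set_option linter.unusedSectionVars false

open NumberField IsDedekindDomain Filter Topology

noncomputable section

namespace Pool.Agent.K3h30.RS

variable {G : Type} [CommGroup G] [Finite G]

theorem coeff_toQ (z : MonoidAlgebra ℤ G) (γ : G) : (toQ z).coeff γ = (z.coeff γ : ℚ) := by
  simp [toQ]

theorem mem_range_toQ (z : MonoidAlgebra ℚ G) :
    z ∈ (toQ (G := G)).range ↔ ∀ γ, ∃ n : ℤ, z.coeff γ = n := by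
  constructor
  · rintro ⟨y, rfl⟩ γ
    exact ⟨y.coeff γ, coeff_toQ y γ⟩
  · intro h
    choose f hf using h
    refine ⟨MonoidAlgebra.ofCoeff (Finsupp.equivFunOnFinite.symm f), ?_⟩
    ext γ
    rw [coeff_toQ, hf]
    rfl

theorem coeff_single_mul' {R : Type} [CommRing R] (σ : G) (q : R) (f : MonoidAlgebra R G) (γ : G) :
    (MonoidAlgebra.single σ q * f).coeff γ = q * f.coeff (σ⁻¹ * γ) := by
  apply MonoidAlgebra.coeff_single_mul_eq_mul_coeff
  intro m' _
  constructor
  · intro h; rw [← h, inv_mul_cancel_left]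
  · intro h; rw [h, mul_inv_cancel_left]

theorem coeff_delta_mul (σ : G) (q : ℚ) (f : MonoidAlgebra ℚ G) (γ : G) :
    ((1 - MonoidAlgebra.single σ⁻¹ q) * f).coeff γ = f.coeff γ - q * f.coeff (σ * γ) := by
  rw [sub_mul, one_mul, MonoidAlgebra.coeff_sub, Finsupp.sub_apply, coeff_single_mul', inv_inv]

theorem nat_smul_eq (n : ℕ) (f : MonoidAlgebra ℚ G) (γ : G) :
    ((n : MonoidAlgebra ℚ G) * f).coeff γ = n * f.coeff γ := by
  rw [← nsmul_eq_mul, MonoidAlgebra.coeff_smul, Finsupp.smul_apply, nsmul_eq_mul]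

theorem QZ_zero (x : ℚ) : (x : QZ) = 0 ↔ ∃ n : ℤ, x = n := by
  rw [AddCircle.coe_eq_zero_iff]
  constructor
  · rintro ⟨n, hn⟩
    exact ⟨n, by rw [← hn]; simp⟩
  · rintro ⟨n, hn⟩
    exact ⟨n, by rw [hn]; simp⟩

/-- `w` kills the torsion of a finitely generated abelian group -/
theorem exists_torsion (A : Type) [AddCommGroup A] [hA : AddGroup.FG A] :
    ∃ w : ℕ, 0 < w ∧ ∀ a : A, IsOfFinAddOrder a → w • a = 0 := by
  classical
  have h0 : Module.Finite ℤ A := Module.Finite.iff_addGroup_fg.2 hA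
  have h1 : (AddSubgroup.toIntSubmodule (AddCommGroup.torsion A)).FG :=
    IsNoetherian.noetherian _
  obtain ⟨s, hs⟩ := h1
  have hmem : ∀ a ∈ s, IsOfFinAddOrder a := by
    intro a ha
    have : a ∈ AddSubgroup.toIntSubmodule (AddCommGroup.torsion A) := by
      rw [← hs]; exact Submodule.subset_span ha
    exact this
  refine ⟨∏ a ∈ s, addOrderOf a, Finset.prod_pos fun a ha => (hmem a ha).addOrderOf_pos, ?_⟩
  intro a ha
  have ha' : a ∈ Submodule.span ℤ (s : Set A) := by
    rw [hs]; exact ha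
  clear ha
  induction ha' using Submodule.span_induction with
  | mem x hx =>
    obtain ⟨k, hk⟩ := Finset.dvd_prod_of_mem addOrderOf (Finset.mem_coe.1 hx)
    rw [hk, mul_comm, mul_smul, addOrderOf_nsmul_eq_zero, smul_zero]
  | zero => exact smul_zero _
  | add x y _ _ hx hy =>
    rw [smul_add, hx, hy, add_zero]
  | smul c x _ hx => rw [smul_comm, hx, smul_zero]

end Pool.Agent.K3h30.RS
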