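import Pool.Agent.K3h30.RS.Alg

/-!
# Rubin's conjecture for a set `T` with a good prime ideal
-/

set_option autoImplicit false
set_option linter.unusedSectionVars false

open NumberField IsDedekindDomain Filter Topology

noncomputable section

namespace Pool.Agent.K3h30.RS

section alg

variable {G A : Type} [CommGroup G] [Finite G] [AddCommGroup A] [DistribMulAction G A]

/-- the data at a prime ideal: a character and its lift to `ℚ[G]` -/
structure LocData (G A : Type) [CommGroup G] [Finite G] [AddCommGroup A] [DistribMulAction G A]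
    (w q : ℕ) (σ : G) where
  χ : A →+ QZ
  Λ : A →+ MonoidAlgebra ℚ G
  equiv : ∀ (γ : G) (a : A), Λ (γ • a) = MonoidAlgebra.single γ 1 * Λ a
  lift : ∀ (γ : G) (a : A), (((Λ a).coeff γ : ℚ) : QZ) = w • χ (γ⁻¹ • a)
  frob : ∀ a, χ (σ • a) = q • χ a

/-- `δ Λ` has values in `ℤ[G]` -/
theorem LocData.integral {w q : ℕ} {σ : G} (d : LocData G A w q σ) (a : A) :
    (1 - MonoidAlgebra.single σ⁻¹ (q : ℚ)) * d.Λ a ∈ (toQ (G := G)).range := by
  rw [mem_range_toQ]
  intro γ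
  rw [coeff_delta_mul, ← QZ_zero]
  have h1 : (((d.Λ a).coeff γ - (q : ℚ) * (d.Λ a).coeff (σ * γ) : ℚ) : QZ) =
      (((d.Λ a).coeff γ : ℚ) : QZ) - q • (((d.Λ a).coeff (σ * γ) : ℚ) : QZ) := by
    rw [AddCircle.coe_sub, ← nsmul_eq_mul, AddCircle.coe_nsmul]
  rw [h1, d.lift, d.lift]
  have h2 : γ⁻¹ • a = σ • ((σ * γ)⁻¹ • a) := by
    rw [smul_smul]
    congr 1
    rw [mul_inv, mul_inv_cancel_left]
  rw [h2, d.frob, smul_comm, sub_self]

/-- `δ Λ (x)` is divisible by `N` if `x` is an `N`-th power -/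
theorem LocData.divisible {w q N : ℕ} {σ : G} (d : LocData G A w q σ) (hσ : σ = 1) (hq : 1 ≤ q)
    (hN : N ∣ q - 1) (x : A)
    (hx : ∀ γ : G, ∃ e : QZ, (q - 1) • e = 0 ∧ d.χ (γ • x) = N • e) :
    ∃ z ∈ (toQ (G := G)).range, (1 - MonoidAlgebra.single σ⁻¹ (q : ℚ)) * d.Λ x =
      (N : MonoidAlgebra ℚ G) * z := by
  subst hσ
  obtain ⟨k, hk⟩ := hN
  have hk' : (q : ℚ) - 1 = N * k := by
    have : ((q - 1 : ℕ) : ℚ) = ((N * k : ℕ) : ℚ) := by rw [hk]
    push_cast [hq] at this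
    exact this
  have h1 : ∀ γ : G, ∃ n : ℤ,
      ((1 - MonoidAlgebra.single (1 : G)⁻¹ (q : ℚ)) * d.Λ x).coeff γ = N * n := by
    intro γ
    obtain ⟨e, he1, he2⟩ := hx γ⁻¹
    obtain ⟨y, rfl⟩ := QuotientAddGroup.mk_surjective e
    have he1' : (((q - 1 : ℕ) * y : ℚ) : QZ) = 0 := by
      rw [← nsmul_eq_mul, AddCircle.coe_nsmul]
      exact he1
    obtain ⟨n₁, hn₁⟩ := (QZ_zero _).1 he1'
    have h2 : (((d.Λ x).coeff γ - (w * N * y : ℚ) : ℚ) : QZ) = 0 := by
      rw [AddCircle.coe_sub, d.lift, he2, sub_eq_zero]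
      have : ((w * N * y : ℚ) : ℚ) = w • (N • y) := by
        rw [nsmul_eq_mul, nsmul_eq_mul, mul_assoc]
      rw [this, AddCircle.coe_nsmul, AddCircle.coe_nsmul]
    obtain ⟨n₂, hn₂⟩ := (QZ_zero _).1 h2
    refine ⟨-(w * n₁ + k * n₂), ?_⟩
    rw [coeff_delta_mul, one_mul]
    have h3 : (d.Λ x).coeff γ = w * N * y + n₂ := by linarith
    have h4 : ((q - 1 : ℕ) : ℚ) = (q : ℚ) - 1 := by push_cast [hq]; ring
    rw [h4] at hn₁
    rw [h3]
    push_cast
    have h5 : (w * N * y + n₂ : ℚ) - q * (w * N * y + n₂) =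
        -(w * N * (((q : ℚ) - 1) * y) + ((q : ℚ) - 1) * n₂) := by ring
    rw [h5, hn₁, hk']
    ring
  choose n hn using h1
  refine ⟨toQ (MonoidAlgebra.ofCoeff (Finsupp.equivFunOnFinite.symm n)), ⟨_, rfl⟩, ?_⟩
  ext γ
  rw [hn, nat_smul_eq, coeff_toQ]
  rfl

end alg

variable {F H G : Type} [Field F] [NumberField F] [Field H] [NumberField H] [Algebra F H]
  [CommGroup G] [Finite G] [MulSemiringAction G H]

theorem av_pow (w : Place H) (x : H) (n : ℕ) : av w (x ^ n) = av w x ^ n := by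
  cases w with
  | inl w => simp only [av, map_pow]; ring
  | inr w => simp only [av, map_pow]

theorem reg_pow (w : Place H) (x : Hˣ) (n : ℕ) : reg G w (x ^ n) = n * reg G w x := by
  unfold reg
  rw [← nsmul_eq_mul, Finset.smul_sum]
  refine Finset.sum_congr rfl fun γ _ => ?_
  rw [act_pow, Units.val_pow_eq_pow_val, av_pow, Real.log_pow, MonoidAlgebra.smul_single,
    nsmul_eq_mul]

/-- denominators -/
theorem exists_denom (c : MonoidAlgebra ℚ G) :
    ∃ n : ℕ, 0 < n ∧ (n : MonoidAlgebra ℚ G) * c ∈ (toQ (G := G)).range := by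
  classical
  letI := Fintype.ofFinite G
  refine ⟨∏ γ : G, (c.coeff γ).den, Finset.prod_pos fun γ _ => (c.coeff γ).den_pos, ?_⟩
  rw [mem_range_toQ]
  intro γ
  obtain ⟨k, hk⟩ := Finset.dvd_prod_of_mem (fun γ : G => (c.coeff γ).den) (Finset.mem_univ γ)
  refine ⟨(c.coeff γ).num * k, ?_⟩
  rw [nat_smul_eq, hk]
  push_cast
  have : ((c.coeff γ).den : ℚ) * c.coeff γ = (c.coeff γ).num := Rat.den_mul_eq_num _
  calc ((c.coeff γ).den : ℚ) * k * c.coeff γ = ((c.coeff γ).den : ℚ) * c.coeff γ * k := by ring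
    _ = _ := by rw [this]

theorem exists_denom_all {n : ℕ} (c : Fin n → MonoidAlgebra ℚ G) :
    ∃ N : ℕ, 0 < N ∧ ∀ k, (N : MonoidAlgebra ℚ G) * c k ∈ (toQ (G := G)).range := by
  classical
  choose f hf0 hf using fun k => exists_denom (c k)
  refine ⟨∏ k, f k, Finset.prod_pos fun k _ => hf0 k, fun k => ?_⟩
  obtain ⟨j, hj⟩ := Finset.dvd_prod_of_mem f (Finset.mem_univ k)
  rw [hj]
  push_cast
  have : (f k : MonoidAlgebra ℚ G) * j * c k = j * (f k * c k) := by ring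
  rw [this]
  exact mul_mem (natCast_mem _ j) (hf k)

theorem natCast_cancel {n : ℕ} (hn : 0 < n) {x y : MonoidAlgebra ℚ G}
    (h : (n : MonoidAlgebra ℚ G) * x = n * y) : x = y := by
  ext γ
  have h1 := congrArg (fun z => MonoidAlgebra.coeff z γ) h
  simp only [nat_smul_eq] at h1
  have h2 : (n : ℚ) ≠ 0 := by positivity
  exact mul_left_cancel₀ h2 h1

end Pool.Agent.K3h30.RS
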