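import Pool.Agent.K3h30.RS.Core

/-!
# Decomposition of the `G`-homomorphisms on `U_{S,T}`
-/

set_option autoImplicit false
set_option linter.unusedSectionVars false

open NumberField IsDedekindDomain Filter Topology

noncomputable section

namespace Pool.Agent.K3h30.RS

variable {F H G : Type} [Field F] [NumberField F] [Field H] [NumberField H] [Algebra F H]
  [CommGroup G] [Finite G] [MulSemiringAction G H]

/-- the `S`-units -/
abbrev US (D : RubinData F H G) : Subgroup Hˣ :=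
  unitGroup (H := H) (D.S : Set (HeightOneSpectrum (𝓞 F))) ∅

theorem mem_US_of_mem (D : RubinData F H G) (T : Finset (HeightOneSpectrum (𝓞 F))) {x : Hˣ}
    (hx : x ∈ D.U T) : x ∈ US D :=
  ⟨hx.1, fun w hw => by obtain ⟨v, hv, -⟩ := hw; exact absurd hv (Set.notMem_empty v)⟩

theorem decompose (hL : S_LAM) (hE : S_EXT) (hD : S_DLOG) (hF : S_FROBU) (hT : S_TRANS)
    (hO : S_OVER) [hG : IsGaloisGroup G F H] (D : RubinData F H G)
    (T : Finset (HeightOneSpectrum (𝓞 F))) (hdis : Disjoint D.S T) (w : ℕ)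
    (hw : ∀ a : Additive (US D), IsOfFinAddOrder a → w • a = 0) :
    letI := actionA (H := H) (G := G) hT (D.S : Set (HeightOneSpectrum (𝓞 F))) ∅
    ∃ (d : ∀ t : T, LocData G (Additive (US D)) w (Ideal.absNorm t.1.asIdeal) (D.σ t.1)) (m : ℕ),
      0 < m ∧
      (∀ x : US D, (x : Hˣ) ^ m ∈ D.U T) ∧
      (∀ ψ : GHom G (D.U T), ∃ (y : Additive (US D) →+ MonoidAlgebra ℤ G)
        (a : T → MonoidAlgebra ℤ G),
        (∀ (γ : G) (x : Additive (US D)), y (γ • x) = MonoidAlgebra.single γ 1 * y x) ∧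
        ∀ (x : US D) (h : (x : Hˣ) ^ m ∈ D.U T),
          (w : MonoidAlgebra ℚ G) * toQ (ψ.f (Additive.ofMul ⟨(x : Hˣ) ^ m, h⟩)) =
            m * (toQ (y (Additive.ofMul x)) +
              ∑ t : T, toQ (a t) * (d t).Λ (Additive.ofMul x))) ∧
      (∀ t : T, D.σ t.1 = 1 → ∀ (N : ℕ) (x : US D),
        (∀ u : HeightOneSpectrum (𝓞 H), Above {t.1} u →
          ∃ β : Hˣ, u.valuation H (β : H) = 1 ∧
            u.valuation H (((x : Hˣ) : H) - (β : H) ^ N) < 1) →
        ∀ γ : G, ∃ e : QZ, (Ideal.absNorm t.1.asIdeal - 1) • e = 0 ∧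
          (d t).χ (γ • Additive.ofMul x) = N • e) := by
  letI := actionA (H := H) (G := G) hT (D.S : Set (HeightOneSpectrum (𝓞 F))) ∅
  have hfg : AddGroup.FG (Additive (US D)) := fgA hO D.S
  have hnot : ∀ t : T, t.1 ∉ D.S := fun t h => (Finset.disjoint_left.1 hdis h) t.2
  choose χ m' hm0 hm hfrob hker hpow using fun t : T =>
    exists_char (G := G) hD hF hT hO D.S t.1 (hnot t) (D.σ t.1) (D.frob t.1 (hnot t))
  choose Λ hΛ1 hΛ2 using fun t : T => hL G (Additive (US D)) w hw (χ t)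
  let d : ∀ t : T, LocData G (Additive (US D)) w (Ideal.absNorm t.1.asIdeal) (D.σ t.1) :=
    fun t => ⟨χ t, Λ t, hΛ1 t, hΛ2 t, hfrob t⟩
  let m : ℕ := ∏ t : T, m' t
  have hmpos : 0 < m := Finset.prod_pos fun t _ => hm0 t
  have hmχ : ∀ t a, m • χ t a = 0 := by
    intro t a
    obtain ⟨k, hk⟩ := Finset.dvd_prod_of_mem m' (Finset.mem_univ t)
    change (∏ t : T, m' t) • χ t a = 0
    rw [hk, mul_comm, mul_smul, hm, smul_zero]
  let B : AddSubgroup (Additive (US D)) :=
    { carrier := {a | ∀ (t : T) (γ : G), χ t (γ • a) = 0}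
      add_mem' := by
        intro a b ha hb t γ
        rw [smul_add, map_add, ha t γ, hb t γ, add_zero]
      zero_mem' := by
        intro t γ
        rw [smul_zero, map_zero]
      neg_mem' := by
        intro a ha t γ
        rw [smul_neg, map_neg, ha t γ, neg_zero] }
  have hBmem : ∀ x : US D, Additive.ofMul x ∈ B ↔ (x : Hˣ) ∈ D.U T := by
    intro x
    constructor
    · intro h
      refine ⟨x.2.1, fun u hu => ?_⟩
      obtain ⟨v, hv, hvu⟩ := above_mem hu
      exact (hker ⟨v, Finset.mem_coe.1 hv⟩ x).1 (fun γ => h ⟨v, Finset.mem_coe.1 hv⟩ γ) u hvu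
    · intro h t γ
      refine (hker t x).2 (fun u hu => ?_) γ
      exact h.2 u ((above_iff hu).2 (Finset.mem_coe.2 t.2))
  have hpowm : ∀ x : US D, Additive.ofMul (x ^ m) ∈ B := by
    intro x t γ
    rw [ofMul_pow, smul_comm, map_nsmul]
    exact hmχ t _
  refine ⟨d, m, hmpos, fun x => (hBmem (x ^ m)).1 (hpowm x), ?_, fun t h1 N x h2 => hpow t N x h1 h2⟩
  intro ψ
  -- the homomorphism on `B`
  let φ : B →+ MonoidAlgebra ℤ G :=
    { toFun := fun b => ψ.f (Additive.ofMul ⟨((Additive.toMul b.1 : US D) : Hˣ),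
        (hBmem (Additive.toMul b.1)).1 b.2⟩)
      map_zero' := by
        have : (Additive.ofMul (⟨((Additive.toMul (0 : B).1 : US D) : Hˣ),
            (hBmem (Additive.toMul (0 : B).1)).1 (0 : B).2⟩ : D.U T)) = 0 := rfl
        rw [this, map_zero]
      map_add' := by
        intro a b
        rw [← map_add]
        rfl }
  have hφ : ∀ (γ : G) (x y : B), (y : Additive (US D)) = γ • (x : Additive (US D)) →
      φ y = MonoidAlgebra.single γ 1 * φ x := by
    intro γ x y hxy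
    refine ψ.equiv γ _ _ ?_
    change ((Additive.toMul y.1 : US D) : Hˣ) = act γ ((Additive.toMul x.1 : US D) : Hˣ)
    rw [hxy]
    rfl
  obtain ⟨y, a, hy, h⟩ := hE G (Additive (US D)) T w m hmpos χ hmχ Λ hΛ1 hΛ2 B
    (fun a => Iff.rfl) φ hφ
  refine ⟨y, a, hy, fun x hx => ?_⟩
  have h1 := h ⟨Additive.ofMul (x ^ m), hpowm x⟩
  have h2 : φ ⟨Additive.ofMul (x ^ m), hpowm x⟩ = ψ.f (Additive.ofMul ⟨(x : Hˣ) ^ m, hx⟩) := rfl
  rw [h2] at h1
  rw [h1]
  have h3 : ∀ f : Additive (US D) →+ MonoidAlgebra ℚ G,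
      f (Additive.ofMul (x ^ m)) = m * f (Additive.ofMul x) := by
    intro f
    rw [ofMul_pow, map_nsmul, nsmul_eq_mul]
  have h4 : toQ (y (Additive.ofMul (x ^ m))) = m * toQ (y (Additive.ofMul x)) := by
    rw [ofMul_pow, map_nsmul, nsmul_eq_mul, map_mul, map_natCast]
  rw [mul_add, Finset.mul_sum, ← h4]
  congr 1
  refine Finset.sum_congr rfl fun t _ => ?_
  rw [h3]
  change toQ (a t) * (m * Λ t (Additive.ofMul x)) = m * (toQ (a t) * Λ t (Additive.ofMul x))
  ring

end Pool.Agent.K3h30.RS
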