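import Mathlib

/-!
# Rubin's conjecture: definitions

`F ⊆ H` are number fields, `H / F` is Galois with finite commutative group `G`. A set `S` of places
of `F` containing the archimedean ones is given by its finite set of prime ideals, `T` is a finite
set of prime ideals of `𝓞 F`. An element of `ℚ ⋀^r U`, for a `ℤ[G]`-module `U`, is given by a finite
formal sum `∑ c_k x_k1 ∧ ... ∧ x_kr` with `c_k ∈ ℚ[G]`, `x_ka ∈ U`.
-/

set_option autoImplicit false

open NumberField IsDedekindDomain Filter Topology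

noncomputable section

namespace Pool.Agent.K3h30.RS

section places

variable (F H G : Type) [Field F] [NumberField F] [Field H] [NumberField H] [Algebra F H]
  [CommGroup G] [MulSemiringAction G H]

/-- The places of `H`: the archimedean ones and the prime ideals of `𝓞 H`. -/
abbrev Place : Type := InfinitePlace H ⊕ HeightOneSpectrum (𝓞 H)

variable {F H G}

/-- The normalised absolute value of a place: `|x|` for a real place, `|x|²` for a complex one,
`N w ^ (- ord_w x)` for a prime ideal `w`. -/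
def av : Place H → H → ℝ
  | Sum.inl w, x => w x ^ w.mult
  | Sum.inr w, x => HeightOneSpectrum.adicAbv H w x

/-- The prime ideal `w` of `𝓞 H` lies over an element of the set `S` of prime ideals of `𝓞 F`. -/
def Above (S : Set (HeightOneSpectrum (𝓞 F))) (w : HeightOneSpectrum (𝓞 H)) : Prop :=
  ∃ v ∈ S, w.asIdeal.comap (algebraMap (𝓞 F) (𝓞 H)) = v.asIdeal

/-- The place `w` lies over a place of `S` (all archimedean places belong to `S`). -/
def InS (S : Set (HeightOneSpectrum (𝓞 F))) : Place H → Prop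
  | Sum.inl _ => True
  | Sum.inr w => Above S w

/-- `γ` belongs to the decomposition group of the place `w`. -/
def Fixes (w : Place H) (γ : G) : Prop := ∀ x : H, av w (γ • x) = av w x

variable (G) in
/-- `w` and `w'` are conjugate under `G`, that is, lie over the same place of `F`. -/
def Conj (w w' : Place H) : Prop := ∃ γ : G, ∀ x : H, av w x = av w' (γ • x)

/-- `γ` is a Frobenius automorphism at all prime ideals `w` over `v`. -/
def IsFrob (v : HeightOneSpectrum (𝓞 F)) (γ : G) : Prop :=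
  ∀ w : HeightOneSpectrum (𝓞 H), Above {v} w → ∀ x : 𝓞 H,
    w.valuation H (γ • (x : H) - (x : H) ^ (Ideal.absNorm v.asIdeal)) < 1

end places

variable {F H G : Type} [Field F] [NumberField F] [Field H] [NumberField H] [Algebra F H]
  [CommGroup G] [Finite G] [MulSemiringAction G H]

variable (F H G) in
/-- The data of Rubin's conjecture, without `T`: a finite set `S` of places of `F` containing the
archimedean ones (given by its prime ideals) and the ramified ones, places `w_1, ..., w_r` of `H`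
over the places `v_1, ..., v_r` of `S` which split completely in `H`, where `S` has at least `r + 1`
elements, the Frobenius automorphisms `σ v`, and the functions `L_S(χ, s)`. -/
structure RubinData where
  /-- the prime ideals in `S` -/
  S : Finset (HeightOneSpectrum (𝓞 F))
  /-- the other prime ideals are unramified in `H` -/
  unramified : ∀ v : HeightOneSpectrum (𝓞 F), v ∉ S →
    Squarefree (v.asIdeal.map (algebraMap (𝓞 F) (𝓞 H)))
  /-- the number of the places of `S` which split completely -/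
  r : ℕ
  /-- the place `w_i` over `v_i` -/
  w : Fin r → Place H
  inS : ∀ i, InS (S : Set (HeightOneSpectrum (𝓞 F))) (w i)
  splits : ∀ i, ∀ γ : G, Fixes (w i) γ → γ = 1
  distinct : ∀ i j, Conj G (w i) (w j) → i = j
  all : ∀ u : Place H, InS (S : Set (HeightOneSpectrum (𝓞 F))) u →
    (∀ γ : G, Fixes u γ → γ = 1) → ∃ i, Conj G u (w i)
  more : ∃ u : Place H, InS (S : Set (HeightOneSpectrum (𝓞 F))) u ∧ ∀ i, ¬ Conj G u (w i)
  /-- the Frobenius automorphisms -/
  σ : HeightOneSpectrum (𝓞 F) → G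
  frob : ∀ v : HeightOneSpectrum (𝓞 F), v ∉ S → IsFrob (H := H) v (σ v)
  /-- the analytic continuation of `L_S(χ, s)`, holomorphic for `s ≠ 1` -/
  L : (G →* ℂˣ) → ℂ → ℂ
  analytic : ∀ χ, DifferentiableOn ℂ (L χ) {1}ᶜ
  euler : ∀ (χ : G →* ℂˣ) (s : ℂ), 1 < s.re →
    HasProd (fun v : {v : HeightOneSpectrum (𝓞 F) // v ∉ S} =>
      (1 - (χ (σ v) : ℂ) * (Ideal.absNorm (v : HeightOneSpectrum (𝓞 F)).asIdeal : ℂ) ^ (-s))⁻¹)
      (L χ s)

/-- The group `U_{S,T}`: the `x` in `H^*` which are units at all prime ideals not over `S` and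
congruent to one modulo all prime ideals over `T`. -/
def unitGroup (S T : Set (HeightOneSpectrum (𝓞 F))) : Subgroup Hˣ where
  carrier := {x | (∀ w : HeightOneSpectrum (𝓞 H), ¬ Above S w → w.valuation H (x : H) = 1) ∧
    ∀ w : HeightOneSpectrum (𝓞 H), Above T w → w.valuation H ((x : H) - 1) < 1}
  mul_mem' := by
    rintro x y ⟨hx1, hx2⟩ ⟨hy1, hy2⟩
    refine ⟨fun w hw => ?_, fun w hw => ?_⟩
    · rw [Units.val_mul, map_mul, hx1 w hw, hy1 w hw, one_mul]
    · have hx : w.valuation H (x : H) = 1 := by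
        have h := Valuation.map_one_add_of_lt (w.valuation H) (hx2 w hw)
        rwa [add_sub_cancel] at h
      have e : ((x * y : Hˣ) : H) - 1 = (x : H) * ((y : H) - 1) + ((x : H) - 1) := by
        rw [Units.val_mul]; ring
      rw [e]
      refine lt_of_le_of_lt (Valuation.map_add _ _ _) (max_lt ?_ (hx2 w hw))
      rw [map_mul, hx, one_mul]
      exact hy2 w hw
  one_mem' := ⟨fun w _ => by rw [Units.val_one, map_one], fun w _ => by
    rw [Units.val_one, sub_self, map_zero]; exact zero_lt_one⟩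
  inv_mem' := by
    rintro x ⟨hx1, hx2⟩
    refine ⟨fun w hw => ?_, fun w hw => ?_⟩
    · rw [Units.val_inv_eq_inv_val, map_inv₀, hx1 w hw, inv_one]
    · have hx : w.valuation H (x : H) = 1 := by
        have h := Valuation.map_one_add_of_lt (w.valuation H) (hx2 w hw)
        rwa [add_sub_cancel] at h
      have e : ((x⁻¹ : Hˣ) : H) - 1 = -(((x : H) - 1) * (x : H)⁻¹) := by
        rw [Units.val_inv_eq_inv_val]
        field_simp
        ring
      rw [e, Valuation.map_neg, map_mul, map_inv₀, hx, inv_one, mul_one]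
      exact hx2 w hw

/-- The action of `γ` on `H^*`. -/
def act (γ : G) (x : Hˣ) : Hˣ := Units.map (MulSemiringAction.toRingHom G H γ : H →* H) x

/-- The inclusions `ℤ[G] → ℚ[G]` and `ℚ[G] → ℝ[G]`. -/
def toQ : MonoidAlgebra ℤ G →+* MonoidAlgebra ℚ G :=
  MonoidAlgebra.mapRingHom G (Int.castRingHom ℚ)

/-- The inclusion `ℚ[G] → ℝ[G]`. -/
def toR : MonoidAlgebra ℚ G →+* MonoidAlgebra ℝ G :=
  MonoidAlgebra.mapRingHom G (algebraMap ℚ ℝ)

/-- An element of `Hom_{ℤ[G]}(U, ℤ[G])`, `U` a subgroup of `H^*`: a homomorphism compatible with the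
action of `G`. -/
structure GHom (G : Type) [CommGroup G] [MulSemiringAction G H] (U : Subgroup Hˣ) where
  /-- the homomorphism -/
  f : Additive U →+ MonoidAlgebra ℤ G
  equiv : ∀ (γ : G) (x y : U), (y : Hˣ) = act γ (x : Hˣ) →
    f (Additive.ofMul y) = MonoidAlgebra.single γ 1 * f (Additive.ofMul x)

/-- The element `w_i^* (λ (x))` of `ℝ[G]`: the sum over `γ` of `log |γ⁻¹ x|_w γ`. -/
def reg (G : Type) [CommGroup G] [Finite G] [MulSemiringAction G H] (w : Place H) (x : Hˣ) :
    MonoidAlgebra ℝ G :=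
  letI := Fintype.ofFinite G
  ∑ γ : G, MonoidAlgebra.single γ (Real.log (av w ((act γ⁻¹ x : Hˣ) : H)))

/-- The value of the character `χ` at an element of `ℝ[G]`. -/
def charValue (χ : G →* ℂˣ) (ρ : MonoidAlgebra ℝ G) : ℂ :=
  letI := Fintype.ofFinite G
  ∑ γ : G, ((ρ.coeff γ : ℝ) : ℂ) * (χ γ : ℂ)

/-- An element `∑ c_k x_k1 ∧ ... ∧ x_kr` of `ℚ ⋀^r U`. -/
structure Wedge (G : Type) (r : ℕ) (U : Subgroup Hˣ) where
  /-- the number of the summands -/
  n : ℕ
  /-- the coefficients -/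
  c : Fin n → MonoidAlgebra ℚ G
  /-- the elements of `U` -/
  x : Fin n → Fin r → U

namespace Wedge

variable {r : ℕ} {U : Subgroup Hˣ}

/-- The value of `ψ_1 ∧ ... ∧ ψ_r` at an element of `ℚ ⋀^r U`. -/
def value (u : Wedge G r U) (ψ : Fin r → GHom G U) : MonoidAlgebra ℚ G :=
  ∑ k, u.c k * toQ (Matrix.det (Matrix.of fun a b => (ψ a).f (Additive.ofMul (u.x k b))))

/-- The element `φ (λ (u))` of `ℝ[G]`, `φ = w_1^* ∧ ... ∧ w_r^*`. -/
def regulator (u : Wedge G r U) (w : Fin r → Place H) : MonoidAlgebra ℝ G :=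
  ∑ k, toR (u.c k) * Matrix.det (Matrix.of fun a b => reg G (w a) (u.x k b : Hˣ))

end Wedge

namespace RubinData

variable (D : RubinData F H G)

/-- `L_{S,T}(χ, s)` -/
def LT (T : Finset (HeightOneSpectrum (𝓞 F))) (χ : G →* ℂˣ) (s : ℂ) : ℂ :=
  (∏ v ∈ T, (1 - (χ (D.σ v) : ℂ) * (Ideal.absNorm v.asIdeal : ℂ) ^ (1 - s))) * D.L χ s

/-- The group `U_{S,T}` -/
def U (T : Finset (HeightOneSpectrum (𝓞 F))) : Subgroup Hˣ :=
  unitGroup (D.S : Set (HeightOneSpectrum (𝓞 F))) (T : Set (HeightOneSpectrum (𝓞 F)))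

/-- The element `δ_T` of `ℚ[G]`, the product of the `1 - N v σ_v⁻¹`, `v ∈ T`. -/
def delta (T : Finset (HeightOneSpectrum (𝓞 F))) : MonoidAlgebra ℚ G :=
  ∏ v ∈ T, (1 - MonoidAlgebra.single (D.σ v)⁻¹ (Ideal.absNorm v.asIdeal : ℚ))

/-- `T` is admissible: it is disjoint from `S` and contains two primes of different residue
characteristics or one prime of residue characteristic larger than `[F : ℚ] + 1`. -/
def Allowed (T : Finset (HeightOneSpectrum (𝓞 F))) : Prop :=
  Disjoint D.S T ∧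
    ((∃ v ∈ T, ∃ v' ∈ T, ringChar (𝓞 F ⧸ v.asIdeal) ≠ ringChar (𝓞 F ⧸ v'.asIdeal)) ∨
      ∃ v ∈ T, Module.finrank ℚ F + 1 < ringChar (𝓞 F ⧸ v.asIdeal))

/-- The characters with `L^{(r)}_{S,T}(χ, 0) ≠ 0`, by the formula for the order of vanishing: `χ` is
not trivial on the decomposition groups of the places of `S` other than `v_1, ..., v_r`, or `χ = 1`
and there is only one such place. -/
def Active (χ : G →* ℂˣ) : Prop :=
  (∀ w : Place H, InS (D.S : Set (HeightOneSpectrum (𝓞 F))) w → (∀ i, ¬ Conj G w (D.w i)) →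
    ∃ γ : G, Fixes w γ ∧ χ γ ≠ 1) ∨
  (χ = 1 ∧ ∀ w w' : Place H, InS (D.S : Set (HeightOneSpectrum (𝓞 F))) w →
    InS (D.S : Set (HeightOneSpectrum (𝓞 F))) w' → (∀ i, ¬ Conj G w (D.w i)) →
    (∀ i, ¬ Conj G w' (D.w i)) → Conj G w w')

/-- `u` belongs to `e_r ℚ ⋀^r U_{S,T}`: its coefficients are in `e_r ℚ[G]`. -/
def InER {U : Subgroup Hˣ} (u : Wedge G D.r U) : Prop :=
  ∀ χ : G →* ℂˣ, ¬ D.Active χ → ∀ k, charValue χ (toR (u.c k)) = 0

/-- `φ (λ (u)) = Θ^{(r)}_{S,T}(H/F, 0)`: for all characters `χ` the value of `χ` at `φ (λ (u))` is the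
limit of `s ^ (-r) L_{S,T}(χ⁻¹, s)` at `s = 0`. -/
def IsStark (T : Finset (HeightOneSpectrum (𝓞 F))) {U : Subgroup Hˣ} (u : Wedge G D.r U) : Prop :=
  ∀ χ : G →* ℂˣ, Tendsto (fun s : ℂ => (s ^ D.r)⁻¹ * D.LT T χ⁻¹ s) (𝓝[≠] 0)
    (𝓝 (charValue χ (u.regulator D.w)))

/-- `ψ (u) ∈ ℤ[G]` for all `ψ = ψ_1 ∧ ... ∧ ψ_r`, `ψ_i ∈ Hom_{ℤ[G]}(U, ℤ[G])`. -/
def IsIntegral {U : Subgroup Hˣ} (u : Wedge G D.r U) : Prop :=
  ∀ ψ : Fin D.r → GHom G U, ∃ z : MonoidAlgebra ℤ G, u.value ψ = toQ z

/-- Stark's conjecture over `ℚ` for `H / F`, `S`, `T`. -/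
def Stark (T : Finset (HeightOneSpectrum (𝓞 F))) : Prop :=
  ∃ u : Wedge G D.r (D.U T), D.InER u ∧ D.IsStark T u

/-- Rubin's conjecture (the statement of Q1) for `H / F`, `S`, `T`. -/
def Rubin (T : Finset (HeightOneSpectrum (𝓞 F))) : Prop :=
  ∃ u : Wedge G D.r (D.U T), D.InER u ∧ D.IsIntegral u ∧ D.IsStark T u

/-- The ideals of norm at most `X`, prime to `S`. -/
def ideals (X : ℕ) : Set (Ideal (𝓞 F)) :=
  {a | a ≠ ⊥ ∧ Ideal.absNorm a ≤ X ∧ ∀ v ∈ D.S, ¬ v.asIdeal ∣ a}

/-- The set `T` of the prime divisors of `a` is admissible and Rubin's conjecture holds for it. -/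
def RubinIdeal (a : Ideal (𝓞 F)) : Prop :=
  ∃ T : Finset (HeightOneSpectrum (𝓞 F)), (∀ v, v ∈ T ↔ v.asIdeal ∣ a) ∧ D.Allowed T ∧ D.Rubin T

end RubinData

/-- The set `P` contains a positive proportion of all prime ideals: the number of its elements of
norm at most `X` is at least `c π(X)`, `c > 0`, for all large `X`. -/
def PosProportion (P : HeightOneSpectrum (𝓞 F) → Prop) : Prop :=
  ∃ c : ℝ, 0 < c ∧ ∀ᶠ X : ℕ in atTop, c * (Nat.primeCounting X : ℝ) ≤
    Nat.card {v : HeightOneSpectrum (𝓞 F) // P v ∧ Ideal.absNorm v.asIdeal ≤ X}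

/-- The prime ideal `v` of `F` splits completely in the extension `L`. -/
def SplitsIn (L : Type) [Field L] [NumberField L] [Algebra F L] (v : HeightOneSpectrum (𝓞 F)) :
    Prop :=
  Squarefree (v.asIdeal.map (algebraMap (𝓞 F) (𝓞 L))) ∧
    ∀ P : HeightOneSpectrum (𝓞 L), Above {v} P → Ideal.absNorm P.asIdeal = Ideal.absNorm v.asIdeal

end Pool.Agent.K3h30.RS
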