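import Pool.Agent.K3h30.RS.Int

/-!
# Uniform denominators of the Stark elements
-/

set_option autoImplicit false
set_option linter.unusedSectionVars false

open NumberField IsDedekindDomain Filter Topology

noncomputable section

namespace Pool.Agent.K3h30.RS

variable {F H G : Type} [Field F] [NumberField F] [Field H] [NumberField H] [Algebra F H]
  [CommGroup G] [Finite G] [MulSemiringAction G H]

/-- the Stark elements for all `T` have bounded denominators -/
theorem exists_den [hG : IsGaloisGroup G F H]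
    (D : RubinData F H G) (T₁ : Finset (HeightOneSpectrum (𝓞 F))) (u₁ : Wedge G D.r (D.U T₁))
    (hER : D.InER u₁) (hSt : D.IsStark T₁ u₁) :
    ∃ N : ℕ, 0 < N ∧
      ∀ T : Finset (HeightOneSpectrum (𝓞 F)), Disjoint D.S T →
        ∃ u : Wedge G D.r (D.U T), D.InER u ∧ D.IsStark T u ∧
          ∀ ψ : Fin D.r → GHom G (D.U T),
            (N : MonoidAlgebra ℚ G) * u.value ψ ∈ (toQ (G := G)).range := by
  classical
  letI := actionA (H := H) (G := G) Pool.Agent.K3h25.RS.t_TRANS
    (D.S : Set (HeightOneSpectrum (𝓞 F))) ∅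
  have hfg : AddGroup.FG (Additive (US D)) := fgA Pool.Agent.K3h25.RS.t_OVER D.S
  obtain ⟨w, hw0, hw⟩ := exists_torsion (Additive (US D))
  obtain ⟨κ, hκ⟩ := Pool.Agent.K3h62.RS.t_UNIT F H G D T₁
  obtain ⟨N₀, hN₀, hN₀'⟩ := exists_denom_all (fun k => κ * u₁.c k)
  refine ⟨w ^ D.r * N₀, by positivity, ?_⟩
  intro T hdis
  obtain ⟨d, m, hm0, hm, hdec, -⟩ := decompose Pool.Agent.K3h73.RS.t_LAM
    Pool.Agent.K3h12.RSE.t_EXT Pool.Agent.K3h44.RS.t_DLOG Pool.Agent.K3h44.RS.t_FROBU
    Pool.Agent.K3h25.RS.t_TRANS Pool.Agent.K3h25.RS.t_OVER D T hdis w hw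
  refine ⟨moved D u₁ κ m hm, moved_er D u₁ κ m hm hER, ?_, ?_⟩
  · refine Pool.Agent.K3h62.RS.t_LFUN F H G D T₁ T (κ * D.delta T) ?_ (D.U T₁) (D.U T) u₁ _ ?_ hSt
    · rw [← mul_assoc, hκ, one_mul]
    · rw [moved_regulator D u₁ κ hm0 hm, mul_comm κ]
  · intro ψ
    choose y a hy h using fun i => hdec (ψ i)
    let X : Fin u₁.n → Fin D.r → US D := fun k b =>
      ⟨(u₁.x k b : Hˣ), mem_US_of_mem D T₁ (u₁.x k b).2⟩
    have hδ : ∀ t : T, (1 - MonoidAlgebra.single (D.σ t.1)⁻¹ (Ideal.absNorm t.1.asIdeal : ℚ) :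
        MonoidAlgebra ℚ G) ∈ (toQ (G := G)).range := by
      intro t
      refine sub_mem (one_mem _) ?_
      exact ⟨MonoidAlgebra.single (D.σ t.1)⁻¹ (Ideal.absNorm t.1.asIdeal : ℤ), by simp [toQ]⟩
    have hprod : D.delta T = ∏ t : T,
        (1 - MonoidAlgebra.single (D.σ t.1)⁻¹ (Ideal.absNorm t.1.asIdeal : ℚ)) := by
      unfold RubinData.delta
      exact (Finset.prod_coe_sort T (fun t => (1 -
        MonoidAlgebra.single (D.σ t)⁻¹ (Ideal.absNorm t.asIdeal : ℚ) : MonoidAlgebra ℚ G))).symm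
    -- the determinants
    have key : ∀ k : Fin u₁.n,
        D.delta T * Matrix.det (Matrix.of fun i j => toQ (y i (Additive.ofMul (X k j))) +
          ∑ t : T, toQ (a i t) * (d t).Λ (Additive.ofMul (X k j))) ∈ (toQ (G := G)).range := by
      intro k
      rcases T.eq_empty_or_nonempty with hT | ⟨v, hv⟩
      · subst hT
        refine mul_mem ?_ ?_
        · rw [hprod]
          exact prod_mem fun t _ => hδ t
        · have h0 : (Matrix.of fun i j => toQ (y i (Additive.ofMul (X k j))) +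
              ∑ t : (∅ : Finset (HeightOneSpectrum (𝓞 F))),
                toQ (a i t) * (d t).Λ (Additive.ofMul (X k j))) =
              (toQ (G := G)).mapMatrix (Matrix.of fun i j => y i (Additive.ofMul (X k j))) := by
            ext i j : 1
            simp only [RingHom.mapMatrix_apply, Matrix.map_apply, Matrix.of_apply]
            rw [Finset.sum_eq_zero, add_zero]
            intro t _
            exact absurd t.2 (Finset.notMem_empty _)
          rw [h0, ← RingHom.map_det]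
          exact ⟨_, rfl⟩
      · have h1 := Pool.Agent.K3h24.RS.Det.t_DET (MonoidAlgebra ℚ G) T (toQ (G := G)).range
          Finset.univ
          (fun t => 1 - MonoidAlgebra.single (D.σ t.1)⁻¹ (Ideal.absNorm t.1.asIdeal : ℚ)) D.r
          (fun i j => toQ (y i (Additive.ofMul (X k j)))) (fun i t => toQ (a i t))
          (fun t j => (d t).Λ (Additive.ofMul (X k j)))
          (fun i j => ⟨_, rfl⟩) (fun i t => ⟨_, rfl⟩) (fun t _ => hδ t)
          (fun t _ j => (d t).integral _) ⟨v, hv⟩ 1 (one_mem _) (Finset.mem_univ _)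
          ⟨_, hδ ⟨v, hv⟩, (one_mul _).symm⟩ (fun j => ⟨_, (d ⟨v, hv⟩).integral _, (one_mul _).symm⟩)
        rw [hprod]
        obtain ⟨z, hz, hz'⟩ := h1
        rw [one_mul] at hz'
        rw [hz']
        exact hz
    choose c' hc' using fun k => (hN₀' k)
    have hval : ((w ^ D.r * N₀ : ℕ) : MonoidAlgebra ℚ G) *
        (moved D u₁ κ m hm).value ψ = ∑ k, toQ (c' k) * (D.delta T *
          Matrix.det (Matrix.of fun i j => toQ (y i (Additive.ofMul (X k j))) +
          ∑ t : T, toQ (a i t) * (d t).Λ (Additive.ofMul (X k j)))) := by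
      unfold Wedge.value
      change ((w ^ D.r * N₀ : ℕ) : MonoidAlgebra ℚ G) * (∑ k : Fin u₁.n,
        (((m : ℚ)⁻¹ ^ D.r) • (D.delta T * (κ * u₁.c k))) *
        toQ (Matrix.det (Matrix.of fun i j =>
          (ψ i).f (Additive.ofMul ⟨(u₁.x k j : Hˣ) ^ m, hm (X k j)⟩)))) = _
      rw [Finset.mul_sum]
      refine Finset.sum_congr rfl fun k _ => ?_
      have h1 : ((w ^ D.r : ℕ) : MonoidAlgebra ℚ G) * toQ (Matrix.det (Matrix.of fun i j =>
          (ψ i).f (Additive.ofMul ⟨(u₁.x k j : Hˣ) ^ m, hm (X k j)⟩))) =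
          (m : MonoidAlgebra ℚ G) ^ D.r * Matrix.det (Matrix.of fun i j =>
            toQ (y i (Additive.ofMul (X k j))) +
            ∑ t : T, toQ (a i t) * (d t).Λ (Additive.ofMul (X k j))) := by
        rw [← det_natCast_mul, RingHom.map_det, Nat.cast_pow]
        have h2 : (toQ (G := G)).mapMatrix (Matrix.of fun i j =>
            (ψ i).f (Additive.ofMul ⟨(u₁.x k j : Hˣ) ^ m, hm (X k j)⟩)) =
            Matrix.of fun i j =>
              toQ ((ψ i).f (Additive.ofMul ⟨(u₁.x k j : Hˣ) ^ m, hm (X k j)⟩)) := by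
          ext i j
          simp
        rw [h2, ← det_natCast_mul]
        congr 1
        ext i j : 1
        exact h i (X k j) (hm (X k j))
      have h3 : ((w ^ D.r * N₀ : ℕ) : MonoidAlgebra ℚ G) * ((((m : ℚ)⁻¹ ^ D.r) •
          (D.delta T * (κ * u₁.c k))) * toQ (Matrix.det (Matrix.of fun i j =>
          (ψ i).f (Additive.ofMul ⟨(u₁.x k j : Hˣ) ^ m, hm (X k j)⟩)))) =
          (N₀ : MonoidAlgebra ℚ G) * ((((m : ℚ)⁻¹ ^ D.r) • (D.delta T * (κ * u₁.c k))) *
          (((w ^ D.r : ℕ) : MonoidAlgebra ℚ G) * toQ (Matrix.det (Matrix.of fun i j =>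
          (ψ i).f (Additive.ofMul ⟨(u₁.x k j : Hˣ) ^ m, hm (X k j)⟩))))) := by
        push_cast
        ring
      rw [h3, h1, smul_natCast_mul hm0, hc']
      ring
    rw [hval]
    exact sum_mem fun k _ => mul_mem ⟨_, rfl⟩ (key k)

end Pool.Agent.K3h30.RS
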