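import Pool.Agent.K3h30.RS.LInt
import Pool.Agent.K3h36.RS.APPROX0
import Pool.Agent.K3h8.RS.Approx
import Pool.Agent.K3h73.RS.Cheb
import Pool.Agent.K3h3.RS.Uniq
import Pool.Agent.K3h40.RS.SpanReg
import Pool.Agent.K3h40.RS.LogInj

/-!
# Rubin's conjecture for all `T` or a positive proportion of counterexamples
-/

set_option autoImplicit false
set_option linter.unusedSectionVars false

open NumberField IsDedekindDomain Filter Topology

noncomputable section

namespace Pool.Agent.K3h30.RS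

theorem finite_norm (F : Type) [Field F] [NumberField F] (X : ℕ) :
    {v : HeightOneSpectrum (𝓞 F) | Ideal.absNorm v.asIdeal ≤ X}.Finite := by
  refine Set.Finite.of_finite_image (f := fun w : HeightOneSpectrum (𝓞 F) => w.asIdeal)
    ((Ideal.finite_setOf_absNorm_le X).subset ?_) (fun w _ w' _ h => HeightOneSpectrum.ext h)
  rintro _ ⟨w, hw, rfl⟩
  exact hw

/-- removing finitely many prime ideals -/
theorem posProportion_diff {F : Type} [Field F] [NumberField F]
    {P : HeightOneSpectrum (𝓞 F) → Prop} (hP : PosProportion P)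
    (bad : Finset (HeightOneSpectrum (𝓞 F))) : PosProportion (fun v => P v ∧ v ∉ bad) := by
  classical
  obtain ⟨c, hc, hX⟩ := hP
  refine ⟨c / 2, by positivity, ?_⟩
  have h1 : ∀ᶠ X : ℕ in atTop, (2 * (bad.card : ℝ) / c) ≤ (Nat.primeCounting X : ℝ) :=
    (tendsto_natCast_atTop_atTop.comp Nat.tendsto_primeCounting).eventually_ge_atTop _
  filter_upwards [hX, h1] with X hX h1
  have h2 : (bad.card : ℝ) ≤ c / 2 * (Nat.primeCounting X : ℝ) := by
    rw [div_le_iff₀ hc] at h1
    linarith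
  have h3 : Nat.card {v : HeightOneSpectrum (𝓞 F) // P v ∧ Ideal.absNorm v.asIdeal ≤ X} ≤
      Nat.card {v : HeightOneSpectrum (𝓞 F) // (P v ∧ v ∉ bad) ∧ Ideal.absNorm v.asIdeal ≤ X} +
        bad.card := by
    have e1 : Nat.card {v : HeightOneSpectrum (𝓞 F) // P v ∧ Ideal.absNorm v.asIdeal ≤ X} =
        Set.ncard {v : HeightOneSpectrum (𝓞 F) | P v ∧ Ideal.absNorm v.asIdeal ≤ X} :=
      Nat.card_coe_set_eq _
    have e2 : Nat.card {v : HeightOneSpectrum (𝓞 F) //
        (P v ∧ v ∉ bad) ∧ Ideal.absNorm v.asIdeal ≤ X} =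
        Set.ncard {v : HeightOneSpectrum (𝓞 F) |
          (P v ∧ v ∉ bad) ∧ Ideal.absNorm v.asIdeal ≤ X} :=
      Nat.card_coe_set_eq _
    rw [e1, e2, ← Set.ncard_coe_finset bad]
    refine le_trans (Set.ncard_le_ncard (t := {v : HeightOneSpectrum (𝓞 F) |
      (P v ∧ v ∉ bad) ∧ Ideal.absNorm v.asIdeal ≤ X} ∪ (bad : Set (HeightOneSpectrum (𝓞 F))))
      ?_ ?_) (Set.ncard_union_le _ _)
    · intro v hv
      by_cases hb : v ∈ bad
      · exact Or.inr (Finset.mem_coe.2 hb)
      · exact Or.inl ⟨⟨hv.1, hb⟩, hv.2⟩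
    · exact ((finite_norm F X).subset fun v hv => hv.2).union bad.finite_toSet
  have h4 : (Nat.card {v : HeightOneSpectrum (𝓞 F) // P v ∧ Ideal.absNorm v.asIdeal ≤ X} : ℝ) ≤
      Nat.card {v : HeightOneSpectrum (𝓞 F) // (P v ∧ v ∉ bad) ∧ Ideal.absNorm v.asIdeal ≤ X} +
        bad.card := by exact_mod_cast h3
  linarith

variable {F H G : Type} [Field F] [NumberField F] [Field H] [NumberField H] [Algebra F H]
  [CommGroup G] [Finite G] [MulSemiringAction G H]

/-- a prime ideal in a set of positive proportion for which Rubin's conjecture holds -/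
theorem exists_good (D : RubinData F H G)
    (hfail : ¬ PosProportion (fun v => D.Allowed {v} ∧ ¬ D.Rubin {v}))
    {P : HeightOneSpectrum (𝓞 F) → Prop} (hP : PosProportion P)
    (bad : Finset (HeightOneSpectrum (𝓞 F))) :
    ∃ v, P v ∧ v ∉ bad ∧ v ∉ D.S ∧ Module.finrank ℚ F + 1 < ringChar (𝓞 F ⧸ v.asIdeal) ∧
      D.Rubin {v} := by
  classical
  by_contra hcon
  push Not at hcon
  refine hfail (Pool.Agent.K3h36.RS.posProportion_mono ?_ (posProportion_diff hP
    (bad ∪ D.S ∪ (finite_small F (Module.finrank ℚ F + 1)).toFinset)))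
  intro v hv
  simp only [Finset.mem_union, not_or, Set.Finite.mem_toFinset, Set.mem_ofPred_eq, not_le] at hv
  obtain ⟨h1, ⟨h2, h3⟩, h4⟩ := hv
  exact ⟨⟨Finset.disjoint_singleton_right.2 h3, Or.inr ⟨v, Finset.mem_singleton_self v, h4⟩⟩,
    hcon v h1 h2 h3 h4⟩

/-- generators of the `S`-units -/
theorem exists_gen (D : RubinData F H G) :
    ∃ Z : Finset Hˣ, (∀ z ∈ Z, z ∈ US D) ∧ ∀ x ∈ US D, x ∈ Subgroup.closure (Z : Set Hˣ) := by
  classical
  have hfg : AddGroup.FG (Additive (US D)) := fgA Pool.Agent.K3h25.RS.t_OVER D.S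
  obtain ⟨s, hs⟩ := hfg.out
  refine ⟨s.image (fun a => ((Additive.toMul a : US D) : Hˣ)), ?_, ?_⟩
  · intro z hz
    obtain ⟨a, -, rfl⟩ := Finset.mem_image.1 hz
    exact (Additive.toMul a).2
  · intro x hx
    have h1 : Additive.ofMul (⟨x, hx⟩ : US D) ∈ AddSubgroup.closure (s : Set (Additive (US D))) := by
      rw [hs]; exact AddSubgroup.mem_top _
    have key : ∀ a : Additive (US D), a ∈ AddSubgroup.closure (s : Set (Additive (US D))) →
        ((Additive.toMul a : US D) : Hˣ) ∈ Subgroup.closure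
          ((s.image (fun a => ((Additive.toMul a : US D) : Hˣ)) : Finset Hˣ) : Set Hˣ) := by
      intro a ha
      induction ha using AddSubgroup.closure_induction with
      | mem a ha =>
        exact Subgroup.subset_closure (Finset.mem_coe.2 (Finset.mem_image_of_mem _ ha))
      | zero => exact one_mem _
      | add a b _ _ ha hb => exact mul_mem ha hb
      | neg a _ ha => exact inv_mem ha
    exact key _ h1

theorem delta_insert (D : RubinData F H G) [DecidableEq (HeightOneSpectrum (𝓞 F))]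
    {v : HeightOneSpectrum (𝓞 F)} {T : Finset (HeightOneSpectrum (𝓞 F))} (h : v ∉ T) :
    D.delta (insert v T) =
      (1 - MonoidAlgebra.single (D.σ v)⁻¹ (Ideal.absNorm v.asIdeal : ℚ)) * D.delta T := by
  unfold RubinData.delta
  rw [Finset.prod_insert h]

/-- integrality for all `T` -/
theorem intAt_all (hU : S_UNIQ) (hM : S_MONO) (hTo : S_TORS) (hFu : S_FROBUNIQ) (hA : S_APPROX)
    (hA0 : S_APPROX0) (hNZ : S_NOZETA) [hG : IsGaloisGroup G F H] (D : RubinData F H G)
    (hfail : ¬ PosProportion (fun v => D.Allowed {v} ∧ ¬ D.Rubin {v}))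
    {U₀ : Subgroup Hˣ} (h₀ : U₀ ≤ US D) (u₀ : Wedge G D.r U₀) (e₀ : D.InER u₀)
    (s₀ : D.IsStark ∅ u₀) (T : Finset (HeightOneSpectrum (𝓞 F))) (hT : D.Allowed T) :
    IntAt D h₀ u₀ T := by
  classical
  intro f hf hi
  refine mem_range_of_LInt _ fun l hl => ?_
  have hunit : ∀ t ∈ T, ∀ x ∈ US D, ∀ w : HeightOneSpectrum (𝓞 H), Above {t} w →
      w.valuation H (x : H) = 1 := by
    intro t ht x hx w hw
    refine hx.1 w ?_
    rw [above_iff hw]
    exact fun hh => (Finset.disjoint_left.1 hT.1 (Finset.mem_coe.1 hh)) ht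
  by_cases hl1 : ∃ t₀ ∈ T, ringChar (𝓞 F ⧸ t₀.asIdeal) ≠ l
  · -- case A
    obtain ⟨t₀, ht₀, hchar⟩ := hl1
    obtain ⟨Z, hZ1, hZ2⟩ := exists_gen D
    have ht₀S : t₀ ∉ D.S := fun h => (Finset.disjoint_left.1 hT.1 h) ht₀
    obtain ⟨M, hMl⟩ := exists_pow_LInt hl (D.delta (T.erase t₀) * wval D h₀ f u₀)
    obtain ⟨P, hP, hPv⟩ := hA F H G t₀ (D.σ t₀) l M Z (D.frob t₀ ht₀S) (D.unramified t₀ ht₀S) hl
      hchar (fun z hz w hw => hunit t₀ ht₀ z (hZ1 z hz) w hw)
    obtain ⟨v, hv, hvT, hvS, hvn, hvR⟩ := exists_good D hfail hP T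
    obtain ⟨hv1, hv2, hv3, hv4⟩ := hPv v hv
    have hσ : D.σ v = D.σ t₀ := hFu F H G v (D.unramified v hvS) _ _ (D.frob v hvS) hv1
    set Tl := (T.filter (fun t => ringChar (𝓞 F ⧸ t.asIdeal) ≠ l)).erase t₀ with hTl
    have hvTl : v ∉ Tl := fun h => hvT (Finset.mem_of_mem_filter v (Finset.mem_of_mem_erase h))
    have hdis : Disjoint D.S (insert v Tl) := by
      rw [Finset.disjoint_insert_right]
      refine ⟨hvS, Finset.disjoint_left.2 fun t h1 h2 => ?_⟩
      exact (Finset.disjoint_left.1 hT.1 h1)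
        (Finset.mem_of_mem_filter t (Finset.mem_of_mem_erase h2))
    have h1 : IntAt D h₀ u₀ (insert v Tl) :=
      hM F H G D U₀ h₀ u₀ v (insert v Tl) (Finset.mem_insert_self _ _) hdis
        (fun x hx hx' => hTo F H G D v hvS hvn x hx hx')
        (intAt_of_rubin hU D h₀ u₀ e₀ s₀ {v} hvR)
    have h2 : LInt l (D.delta (insert v Tl) * wval D h₀ f u₀) := by
      refine repl D h₀ u₀ T (insert v Tl) hl ?_ h1 f hf hi
      intro x hx t ht
      have hone : ∀ t' ∈ insert v Tl, LocTriv (F := F) l t' (x : Hˣ) := by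
        intro t' ht'
        refine ⟨1, fun hd => hl.one_lt.ne' (Nat.dvd_one.1 hd), fun w hw => ?_⟩
        rw [pow_one]
        exact hx.2 w ((above_iff hw).2 (Finset.mem_coe.2 ht'))
      by_cases h3 : ringChar (𝓞 F ⧸ t.asIdeal) = l
      · exact locTriv_of_char hl t h3 _ (hunit t ht _ x.2)
      · by_cases h4 : t = t₀
        · rw [h4]
          exact (hv4 (x : Hˣ) (hZ2 _ x.2)).1 (hone v (Finset.mem_insert_self _ _))
        · exact hone t (Finset.mem_insert_of_mem (Finset.mem_erase.2 ⟨h4,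
            Finset.mem_filter.2 ⟨ht, h3⟩⟩))
    -- comparison of the `δ`
    set R := T.filter (fun t => ringChar (𝓞 F ⧸ t.asIdeal) = l) with hR
    have h5 : D.delta (T.erase t₀) = D.delta R * D.delta Tl := by
      unfold RubinData.delta
      rw [← Finset.prod_union]
      · refine Finset.prod_congr ?_ fun _ _ => rfl
        ext t
        simp only [hR, hTl, Finset.mem_union, Finset.mem_filter, Finset.mem_erase]
        constructor
        · rintro ⟨h1, h2⟩
          by_cases h3 : ringChar (𝓞 F ⧸ t.asIdeal) = l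
          · exact Or.inl ⟨h2, h3⟩
          · exact Or.inr ⟨h1, h2, h3⟩
        · rintro (⟨h1, h2⟩ | ⟨h1, h2, h3⟩)
          · refine ⟨fun h => ?_, h1⟩
            rw [h] at h2
            exact hchar h2
          · exact ⟨h1, h2⟩
      · rw [Finset.disjoint_left]
        intro t h1 h2
        exact (Finset.mem_filter.1 (Finset.mem_of_mem_erase h2)).2 (Finset.mem_filter.1 h1).2
    obtain ⟨k, hk⟩ : ((l ^ M : ℕ) : ℤ) ∣ (Ideal.absNorm t₀.asIdeal : ℤ) - Ideal.absNorm v.asIdeal :=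
      (Nat.modEq_iff_dvd.1 hv3)
    have h6 : (1 - MonoidAlgebra.single (D.σ t₀)⁻¹ (Ideal.absNorm t₀.asIdeal : ℚ) :
        MonoidAlgebra ℚ G) = (1 - MonoidAlgebra.single (D.σ v)⁻¹ (Ideal.absNorm v.asIdeal : ℚ)) +
        (l : MonoidAlgebra ℚ G) ^ M * toQ (MonoidAlgebra.single (D.σ v)⁻¹ (-k)) := by
      have h7 : (Ideal.absNorm t₀.asIdeal : ℚ) = Ideal.absNorm v.asIdeal + (l : ℚ) ^ M * k := by
        have : (Ideal.absNorm t₀.asIdeal : ℤ) = Ideal.absNorm v.asIdeal + (l ^ M : ℕ) * k := by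
          linarith
        exact_mod_cast this
      have h8 : (l : MonoidAlgebra ℚ G) ^ M * toQ (MonoidAlgebra.single (D.σ v)⁻¹ (-k)) =
          MonoidAlgebra.single (D.σ v)⁻¹ (-((l : ℚ) ^ M * k)) := by
        have : toQ (MonoidAlgebra.single (D.σ v)⁻¹ (-k)) =
            MonoidAlgebra.single (D.σ v)⁻¹ (-k : ℚ) := by simp [toQ]
        rw [this, ← Nat.cast_pow, ← nsmul_eq_mul, MonoidAlgebra.smul_single, nsmul_eq_mul]
        congr 1
        push_cast
        ring
      rw [h8, hσ, h7, sub_add, ← MonoidAlgebra.single_sub]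
      congr 2
      ring
    have h9 : D.delta T = (1 - MonoidAlgebra.single (D.σ t₀)⁻¹ (Ideal.absNorm t₀.asIdeal : ℚ)) *
        D.delta (T.erase t₀) := by
      rw [← delta_insert D (Finset.notMem_erase t₀ T), Finset.insert_erase ht₀]
    have h10 : D.delta T * wval D h₀ f u₀ =
        D.delta R * (D.delta (insert v Tl) * wval D h₀ f u₀) +
        ((l : MonoidAlgebra ℚ G) ^ M * toQ (MonoidAlgebra.single (D.σ v)⁻¹ (-k))) *
          (D.delta (T.erase t₀) * wval D h₀ f u₀) := by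
      rw [h9, h6, delta_insert D hvTl, h5]
      ring
    rw [h10]
    exact LInt.add hl (LInt.mul hl (delta_mem D R) h2) (hMl _ ⟨_, rfl⟩)
  · -- case B
    push Not at hl1
    have hbig : ∃ t ∈ T, Module.finrank ℚ F + 1 < ringChar (𝓞 F ⧸ t.asIdeal) := by
      rcases hT.2 with ⟨x, hx, y, hy, hxy⟩ | h
      · exact absurd ((hl1 x hx).trans (hl1 y hy).symm) hxy
      · exact h
    obtain ⟨t, ht, htn⟩ := hbig
    have htS : t ∉ D.S := fun h => (Finset.disjoint_left.1 hT.1 h) ht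
    have hz := hNZ F H t (D.unramified t htS) htn
    rw [hl1 t ht] at hz
    obtain ⟨P, hP, hPv⟩ := hA0 F H G l hl hz
    obtain ⟨v, hv, hvT, hvS, hvn, hvR⟩ := exists_good D hfail hP T
    obtain ⟨hv1, hv2⟩ := hPv v hv
    have hσ : D.σ v = 1 := hFu F H G v (D.unramified v hvS) _ _ (D.frob v hvS) hv1
    have h2 : LInt l (D.delta {v} * wval D h₀ f u₀) := by
      refine repl D h₀ u₀ T {v} hl ?_ (intAt_of_rubin hU D h₀ u₀ e₀ s₀ {v} hvR) f hf hi
      intro x _ t ht
      exact locTriv_of_char hl t (hl1 t ht) _ (hunit t ht _ x.2)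
    have hnorm : 1 ≤ Ideal.absNorm v.asIdeal := by
      have h0 : Ideal.absNorm v.asIdeal ≠ 0 := by
        rw [Ne, Ideal.absNorm_eq_zero_iff]
        exact v.ne_bot
      omega
    have h3 : D.delta {v} * wval D h₀ f u₀ =
        -(((Ideal.absNorm v.asIdeal - 1 : ℕ) : MonoidAlgebra ℚ G) * wval D h₀ f u₀) := by
      unfold RubinData.delta
      rw [Finset.prod_singleton, hσ, inv_one, Nat.cast_sub hnorm, Nat.cast_one,
        ← MonoidAlgebra.natCast_def]
      ring
    rw [h3] at h2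
    have h4 : LInt l (((Ideal.absNorm v.asIdeal - 1 : ℕ) : MonoidAlgebra ℚ G) *
        wval D h₀ f u₀) := by
      have h5 := LInt.mul hl (neg_mem (one_mem (toQ (G := G)).range)) h2
      rwa [neg_mul_neg, one_mul] at h5
    exact LInt.mul hl (delta_mem D T) (LInt.of_nat hl hv2 h4)

/-- Rubin's conjecture for all `T`, or a positive proportion of the one-element sets are
counterexamples -/
theorem dichotomy (hU : S_UNIQ) (hM : S_MONO) (hTo : S_TORS) (hFu : S_FROBUNIQ) (hA : S_APPROX)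
    (hA0 : S_APPROX0) (hNZ : S_NOZETA) (hPP : S_PP) [hG : IsGaloisGroup G F H]
    (D : RubinData F H G) :
    (∀ T, D.Allowed T → D.Rubin T) ∨ PosProportion (fun v => D.Allowed {v} ∧ ¬ D.Rubin {v}) := by
  by_contra hcon
  rw [not_or] at hcon
  obtain ⟨h1, hfail⟩ := hcon
  apply h1
  intro T hT
  obtain ⟨v, -, -, hvS, -, u, e, -, s⟩ := exists_good D hfail (hPP F) ∅
  obtain ⟨u₀, e₀, s₀⟩ := stark_all D ⟨u, e, s⟩ ∅ (Finset.disjoint_empty_right _)
  exact rubin_of_intAt D u₀ e₀ s₀ T hT.1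
    (intAt_all hU hM hTo hFu hA hA0 hNZ D hfail (U_le D ∅) u₀ e₀ s₀ T hT)

end Pool.Agent.K3h30.RS
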