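import Pool.Agent.K3h30.RS.Stm4

/-!
# Rubin's conjecture and the sets `S`: statements of parts, continued
-/

set_option autoImplicit false

open NumberField IsDedekindDomain Filter Topology

noncomputable section

namespace Pool.Agent.K3h30.RS

/-- Ratios of Euler factors at `0`. -/
def S_RATIO : Prop :=
  ∀ (a b : ℕ) (χ χ' : ℂ), 2 ≤ a → 2 ≤ b → (χ = 1 → χ' = 1) → ∃ l : ℂ,
    Tendsto (fun s : ℂ => (1 - χ' * (a : ℂ) ^ (-s)) / (1 - χ * (b : ℂ) ^ (-s))) (𝓝[≠] 0) (𝓝 l)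

/-- Divisibility of products of elements `1 - σ⁻¹`. -/
def S_DIVZ : Prop :=
  ∀ (G I : Type) [CommGroup G] [Finite G] (V V' : Finset I) (σ : I → G) (e : I → I),
    Set.InjOn e V → (∀ v ∈ V, e v ∈ V') → (∀ v ∈ V, σ (e v) ∈ Subgroup.zpowers (σ v)) →
    ∃ y : MonoidAlgebra ℤ G, ∏ v ∈ V', (1 - MonoidAlgebra.single (σ v)⁻¹ (1 : ℤ)) =
      (∏ v ∈ V, (1 - MonoidAlgebra.single (σ v)⁻¹ (1 : ℤ))) * y

end Pool.Agent.K3h30.RS
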