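import Pool.Agent.K3h30.RS.Zx
import Pool.Agent.K3h30.RS.Stm5
import Pool.Agent.K3h57.RS.VNR
import Pool.Agent.K3h11.RS.ExtG

/-!
# Rubin's conjecture for `S ∪ V` and the Frobenius automorphisms of `V`
-/

set_option autoImplicit false
set_option linter.unusedSectionVars false

open NumberField IsDedekindDomain Filter Topology

noncomputable section

namespace Pool.Agent.K3h30.RS

variable {F H G : Type} [Field F] [NumberField F] [Field H] [NumberField H] [Algebra F H]
  [CommGroup G] [Finite G] [MulSemiringAction G H]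

theorem adic_lt_one {H : Type} [Field H] [NumberField H] (w : HeightOneSpectrum (𝓞 H)) (y : 𝓞 H) :
    HeightOneSpectrum.adicAbv H w (y : H) < 1 ↔ y ∈ w.asIdeal :=
  w.adicAbv_coe_lt_one_iff (HeightOneSpectrum.one_lt_absNorm_nnreal w) y

/-- a prime with nontrivial Frobenius automorphism is not conjugate to some `w_i` -/
theorem not_conj_of_frob [IsGaloisGroup G F H] (D : RubinData F H G)
    {v : HeightOneSpectrum (𝓞 F)} (hv : v ∉ D.S ∧ D.σ v ≠ 1) {w : HeightOneSpectrum (𝓞 H)}
    (hw : Above {v} w) (i : Fin D.r) : ¬ Conj G (Sum.inr w : Place H) (D.w i) := by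
  rintro ⟨γ, hγ⟩
  have hfix := Pool.Agent.K3h92.RS.t_FIX F H G v (D.σ v) (D.frob v hv.1) w hw
  refine hv.2 (D.splits i (D.σ v) fun y => ?_)
  have h1 : av (D.w i) (D.σ v • y) = av (Sum.inr w : Place H) (γ⁻¹ • (D.σ v • y)) := by
    rw [hγ, smul_inv_smul]
  have h2 : γ⁻¹ • (D.σ v • y) = D.σ v • (γ⁻¹ • y) := by
    rw [smul_smul, smul_smul, mul_comm]
  rw [h1, h2, hfix, hγ, smul_inv_smul]

/-- places over `S` and over `v ∉ S` are not conjugate -/
theorem not_conj_S [hG : IsGaloisGroup G F H] (D : RubinData F H G)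
    {v : HeightOneSpectrum (𝓞 F)} (hv : v ∉ D.S) {w : HeightOneSpectrum (𝓞 H)}
    (hw : Above {v} w) {u : Place H} (hu : InS (D.S : Set (HeightOneSpectrum (𝓞 F))) u) :
    ¬ Conj G u (Sum.inr w : Place H) := by
  have hs : SMulCommClass G F H := hG.commutes
  have hfix : ∀ (γ : G) (a : F), γ • (algebraMap F H a) = algebraMap F H a := by
    intro γ a
    rw [Algebra.algebraMap_eq_smul_one, smul_comm, smul_one]
  rintro ⟨γ, hγ⟩
  cases u with
  | inl u =>
    have h1 := hγ (2 : H)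
    have h2 : γ • (2 : H) = 2 := by
      have := hfix γ (2 : F)
      rwa [map_ofNat] at this
    rw [h2] at h1
    have h3 : av (Sum.inr w : Place H) (2 : H) ≤ 1 := by
      change HeightOneSpectrum.adicAbv H w (2 : H) ≤ 1
      have := HeightOneSpectrum.adicAbv_natCast_le_one (K := H) w 2
      exact_mod_cast this
    have h4 : (1 : ℝ) < av (Sum.inl u : Place H) (2 : H) := by
      change (1 : ℝ) < u (2 : H) ^ u.mult
      have h5 : u (2 : H) = 2 := by
        have := InfinitePlace.norm_embedding_eq u (2 : H)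
        rw [map_ofNat] at this
        rw [← this]
        simp
      rw [h5]
      exact one_lt_pow₀ (by norm_num) (by unfold InfinitePlace.mult; split_ifs <;> norm_num)
    rw [h1] at h4
    exact absurd h3 (not_le.2 h4)
  | inr u =>
    obtain ⟨v₁, hv₁, hu₁⟩ := above_mem hu
    rw [above_singleton] at hu₁ hw
    have h1 : v₁ = v := by
      refine HeightOneSpectrum.ext ?_
      ext a
      rw [← hu₁, ← hw, Ideal.mem_comap, Ideal.mem_comap, ← adic_lt_one, ← adic_lt_one]
      have h2 := hγ (algebraMap F H (a : F))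
      rw [hfix] at h2
      have h3 : ((algebraMap (𝓞 F) (𝓞 H) a : 𝓞 H) : H) = algebraMap F H (a : F) := rfl
      rw [h3]
      change HeightOneSpectrum.adicAbv H u (algebraMap F H (a : F)) =
        HeightOneSpectrum.adicAbv H w (algebraMap F H (a : F)) at h2
      rw [h2]
    rw [h1] at hv₁
    exact hv (Finset.mem_coe.1 hv₁)

/-- active characters for `S ∪ V` -/
theorem active_ne [IsGaloisGroup G F H] (D : RubinData F H G)
    (V : Finset (HeightOneSpectrum (𝓞 F))) (hV : ∀ v ∈ V, v ∉ D.S ∧ D.σ v ≠ 1) (χ : G →* ℂˣ)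
    (ha : (D.addPrimes V hV).Active χ) : ∀ v ∈ V, χ (D.σ v) ≠ 1 := by
  classical
  intro v hv h1
  obtain ⟨w, hw⟩ := (Pool.Agent.K3h25.RS.t_OVER F H v).1
  have hin : InS ((D.addPrimes V hV).S : Set (HeightOneSpectrum (𝓞 F))) (Sum.inr w : Place H) := by
    change Above _ w
    rw [above_iff hw]
    exact Finset.mem_coe.2 (Finset.mem_union_right _ hv)
  have hnc : ∀ i, ¬ Conj G (Sum.inr w : Place H) ((D.addPrimes V hV).w i) :=
    fun i => not_conj_of_frob D (hV v hv) hw i
  rcases ha with ha | ⟨ha1, ha2⟩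
  · obtain ⟨γ, hγ, hχ⟩ := ha _ hin hnc
    have h2 := Pool.Agent.K3h92.RS.t_DECOMP F H G v (D.unramified v (hV v hv).1) (D.σ v)
      (D.frob v (hV v hv).1) w hw γ hγ
    obtain ⟨k, rfl⟩ := Subgroup.mem_zpowers_iff.1 h2
    rw [map_zpow, h1, one_zpow] at hχ
    exact hχ rfl
  · obtain ⟨u, hu, huc⟩ := D.more
    have hu' : InS ((D.addPrimes V hV).S : Set (HeightOneSpectrum (𝓞 F))) u :=
      inS_mono (Finset.coe_subset.2 Finset.subset_union_left) hu
    exact not_conj_S D (hV v hv).1 hw hu (ha2 u _ hu' hin huc hnc)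

theorem active_other [IsGaloisGroup G F H] (D : RubinData F H G)
    (V V' : Finset (HeightOneSpectrum (𝓞 F))) (hV : ∀ v ∈ V, v ∉ D.S ∧ D.σ v ≠ 1)
    (hV' : ∀ v ∈ V', v ∉ D.S ∧ D.σ v ≠ 1) (χ : G →* ℂˣ)
    (ha : (D.addPrimes V hV).Active χ) (hne : ∀ v ∈ V', χ (D.σ v) ≠ 1) :
    (D.addPrimes V' hV').Active χ := by
  classical
  rcases ha with ha | ⟨ha1, ha2⟩
  · left
    intro w hw hc
    rcases inS_union hw with hw | ⟨v, hv, w', rfl, hvw⟩
    · exact ha w (inS_mono (Finset.coe_subset.2 Finset.subset_union_left) hw) hc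
    · exact ⟨D.σ v, Pool.Agent.K3h92.RS.t_FIX F H G v (D.σ v) (D.frob v (hV' v hv).1) w' hvw,
        hne v hv⟩
  · have hVe : V' = ∅ := by
      rw [Finset.eq_empty_iff_forall_notMem]
      intro v hv
      exact hne v hv (by rw [ha1]; rfl)
    have hin : ∀ w : Place H, InS ((D.addPrimes V' hV').S : Set (HeightOneSpectrum (𝓞 F))) w →
        InS ((D.addPrimes V hV).S : Set (HeightOneSpectrum (𝓞 F))) w := by
      intro w hw
      rcases inS_union hw with hw | ⟨v, hv, -⟩
      · exact inS_mono (Finset.coe_subset.2 Finset.subset_union_left) hw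
      · rw [hVe] at hv
        exact absurd hv (Finset.notMem_empty v)
    right
    exact ⟨ha1, fun w w' hw hw' hc hc' => ha2 w w' (hin w hw) (hin w' hw') hc hc'⟩

/-- inverse of the product of the `1 - σ_v⁻¹` -/
theorem exists_inv (D : RubinData F H G) (V : Finset (HeightOneSpectrum (𝓞 F))) :
    ∃ ζ : MonoidAlgebra ℚ G, ∀ c : MonoidAlgebra ℚ G,
      (∀ v ∈ V, ∀ χ : G →* ℂˣ, χ (D.σ v) = 1 → charValue χ (toR c) = 0) →
      c * (toQ (zV D V) * ζ) = c := by
  classical
  choose z hz using fun v : HeightOneSpectrum (𝓞 F) => Pool.Agent.K3h57.RS.t_VNR G (D.σ v)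
  refine ⟨∏ v ∈ V, z v, fun c hc => ?_⟩
  rw [toQ_zV]
  induction V using Finset.induction_on with
  | empty => rw [Finset.prod_empty, Finset.prod_empty, mul_one, mul_one]
  | insert v V hv ih =>
    have h1 := ih fun v' hv' => hc v' (Finset.mem_insert_of_mem hv')
    have h2 := hz v c (hc v (Finset.mem_insert_self v V))
    rw [Finset.prod_insert hv, Finset.prod_insert hv]
    calc c * ((1 - MonoidAlgebra.single (D.σ v)⁻¹ (1 : ℚ)) *
          (∏ v ∈ V, (1 - MonoidAlgebra.single (D.σ v)⁻¹ (1 : ℚ))) * (z v * ∏ v ∈ V, z v))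
        = (c * (1 - MonoidAlgebra.single (D.σ v)⁻¹ (1 : ℚ)) * z v) *
          ((∏ v ∈ V, (1 - MonoidAlgebra.single (D.σ v)⁻¹ (1 : ℚ))) * ∏ v ∈ V, z v) := by ring
      _ = c := by rw [h2, h1]

end Pool.Agent.K3h30.RS
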