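import Pool.Agent.K3h30.RS.FrobS
import Pool.Agent.K3h66.RS.Ratio

/-!
# Rubin's conjecture for `S ∪ V` and `S ∪ V'`
-/

set_option autoImplicit false
set_option linter.unusedSectionVars false

open NumberField IsDedekindDomain Filter Topology

noncomputable section

namespace Pool.Agent.K3h30.RS

variable {F H G : Type} [Field F] [NumberField F] [Field H] [NumberField H] [Algebra F H]
  [CommGroup G] [Finite G] [MulSemiringAction G H]

/-- `U_{S,T}` is finitely generated -/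
theorem fgU [IsGaloisGroup G F H] (D : RubinData F H G) (T : Finset (HeightOneSpectrum (𝓞 F))) :
    Group.FG (D.U T) := by
  classical
  have hfg : AddGroup.FG (Additive (US D)) := fgA Pool.Agent.K3h25.RS.t_OVER D.S
  have hfin : Module.Finite ℤ (Additive (US D)) := Module.Finite.iff_addGroup_fg.2 hfg
  let f : Additive (D.U T) →+ Additive (US D) :=
    MonoidHom.toAdditive (Subgroup.inclusion (U_le D T))
  have hinj : Function.Injective f.toIntLinearMap := by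
    intro x y hxy
    apply Additive.toMul.injective
    exact Subgroup.inclusion_injective (U_le D T) (Additive.ofMul.injective hxy)
  have h1 : Module.Finite ℤ (Additive (D.U T)) := Module.Finite.of_injective _ hinj
  have h2 : AddGroup.FG (Additive (D.U T)) := Module.Finite.iff_addGroup_fg.1 h1
  exact GroupFG.iff_add_fg.2 h2

/-- `U_{S,T}` is saturated in `U_{S ∪ V,T}` -/
theorem sat_U [IsGaloisGroup G F H] (D : RubinData F H G)
    (V : Finset (HeightOneSpectrum (𝓞 F))) (hV : ∀ v ∈ V, v ∉ D.S ∧ D.σ v ≠ 1)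
    (T : Finset (HeightOneSpectrum (𝓞 F))) (x : Hˣ) (hx : x ∈ (D.addPrimes V hV).U T) (n : ℕ)
    (hn : 0 < n) (h : x ^ n ∈ D.U T) : x ∈ D.U T := by
  refine ⟨fun w hw => ?_, hx.2⟩
  have h1 := h.1 w hw
  rw [Units.val_pow_eq_pow_val, map_pow] at h1
  exact (pow_eq_one_iff.1 h1).resolve_right hn.ne'

/-- the element for `V'` -/
def mv [IsGaloisGroup G F H] (D : RubinData F H G) (V V' : Finset (HeightOneSpectrum (𝓞 F)))
    (hV : ∀ v ∈ V, v ∉ D.S ∧ D.σ v ≠ 1) (hV' : ∀ v ∈ V', v ∉ D.S ∧ D.σ v ≠ 1)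
    (T : Finset (HeightOneSpectrum (𝓞 F))) (y : MonoidAlgebra ℤ G) (ζ : MonoidAlgebra ℚ G)
    (u : Wedge G D.r ((D.addPrimes V hV).U T)) :
    Wedge G D.r ((D.addPrimes V' hV').U T) where
  n := u.n
  c k := toQ y * (u.c k * ζ ^ D.r)
  x k j := ⟨zx D V.toList (u.x k j : Hˣ), U_mono D V' hV' T (zx_mem_U D V hV T (u.x k j).2)⟩

theorem pow_inv {R : Type} [CommRing R] {c z ζ : R} (h : c * (z * ζ) = c) (r : ℕ) :
    c * (z ^ r * ζ ^ r) = c := by
  rw [← mul_pow]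
  induction r with
  | zero => rw [pow_zero, mul_one]
  | succ r ih => rw [pow_succ, ← mul_assoc, ih, h]

theorem mv_regulator [IsGaloisGroup G F H] (D : RubinData F H G)
    (V V' : Finset (HeightOneSpectrum (𝓞 F)))
    (hV : ∀ v ∈ V, v ∉ D.S ∧ D.σ v ≠ 1) (hV' : ∀ v ∈ V', v ∉ D.S ∧ D.σ v ≠ 1)
    (T : Finset (HeightOneSpectrum (𝓞 F))) (y : MonoidAlgebra ℤ G) (ζ : MonoidAlgebra ℚ G)
    (u : Wedge G D.r ((D.addPrimes V hV).U T))
    (hζ : ∀ k, u.c k * (toQ (zV D V) * ζ) = u.c k) :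
    (mv D V V' hV hV' T y ζ u).regulator D.w = toR (toQ y) * u.regulator D.w := by
  unfold Wedge.regulator
  rw [Finset.mul_sum]
  change (∑ k : Fin u.n, toR (toQ y * (u.c k * ζ ^ D.r)) *
    Matrix.det (Matrix.of fun a b => reg G (D.w a) (zx D V.toList (u.x k b : Hˣ)))) = _
  refine Finset.sum_congr rfl fun k _ => ?_
  have h1 : (Matrix.of fun a b => reg G (D.w a) (zx D V.toList (u.x k b : Hˣ))) =
      Matrix.of fun a b => toR (toQ (zV D V)) * reg G (D.w a) (u.x k b : Hˣ) := by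
    ext a b : 1
    simp only [Matrix.of_apply]
    rw [zx_reg, zl_toList]
  rw [h1, det_natCast_mul]
  have h2 : toR (u.c k) = toR (u.c k) * (toR (toQ (zV D V)) ^ D.r * toR ζ ^ D.r) := by
    have h3 := congrArg toR (pow_inv (hζ k) D.r)
    rw [map_mul, map_mul, map_pow, map_pow] at h3
    exact h3.symm
  rw [map_mul, map_mul, map_pow]
  conv_rhs => rw [h2]
  ring

theorem mv_er [IsGaloisGroup G F H] (D : RubinData F H G)
    (V V' : Finset (HeightOneSpectrum (𝓞 F)))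
    (hV : ∀ v ∈ V, v ∉ D.S ∧ D.σ v ≠ 1) (hV' : ∀ v ∈ V', v ∉ D.S ∧ D.σ v ≠ 1)
    (T : Finset (HeightOneSpectrum (𝓞 F))) (y : MonoidAlgebra ℤ G) (ζ : MonoidAlgebra ℚ G)
    (hy : zV D V' = zV D V * y)
    (u : Wedge G D.r ((D.addPrimes V hV).U T)) (h : (D.addPrimes V hV).InER u) :
    (D.addPrimes V' hV').InER (mv D V V' hV hV' T y ζ u) := by
  intro χ hχ k
  change charValue χ (toR (toQ y * (u.c k * ζ ^ D.r))) = 0
  rw [map_mul, map_mul, Pool.Agent.K3h62.RS.charValue_mul, Pool.Agent.K3h62.RS.charValue_mul]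
  by_cases ha : (D.addPrimes V hV).Active χ
  · have h1 := active_ne D V hV χ ha
    have h2 : ∃ v ∈ V', χ (D.σ v) = 1 := by
      by_contra hcon
      push Not at hcon
      exact hχ (active_other D V V' hV hV' χ ha hcon)
    obtain ⟨v, hv, hv1⟩ := h2
    have h3 : charValue χ (toR (toQ (zV D V'))) = 0 := by
      rw [charValue_zV]
      refine Finset.prod_eq_zero hv ?_
      simp [hv1]
    have h4 : charValue χ (toR (toQ (zV D V))) ≠ 0 := by
      rw [charValue_zV]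
      refine Finset.prod_ne_zero_iff.2 fun v hv => ?_
      intro h0
      have h5 : (χ⁻¹ (D.σ v) : ℂˣ) = 1 := by
        ext
        rw [Units.val_one]
        exact (sub_eq_zero.1 h0).symm
      rw [MonoidHom.inv_apply, inv_eq_one] at h5
      exact h1 v hv h5
    rw [hy, map_mul, map_mul, Pool.Agent.K3h62.RS.charValue_mul] at h3
    rw [(mul_eq_zero.1 h3).resolve_left h4, zero_mul]
  · rw [h χ ha k, zero_mul, mul_zero]

theorem mv_value [IsGaloisGroup G F H] (D : RubinData F H G)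
    (V V' : Finset (HeightOneSpectrum (𝓞 F)))
    (hV : ∀ v ∈ V, v ∉ D.S ∧ D.σ v ≠ 1) (hV' : ∀ v ∈ V', v ∉ D.S ∧ D.σ v ≠ 1)
    (T : Finset (HeightOneSpectrum (𝓞 F))) (y : MonoidAlgebra ℤ G) (ζ : MonoidAlgebra ℚ G)
    (u : Wedge G D.r ((D.addPrimes V hV).U T))
    (hζ : ∀ k, u.c k * (toQ (zV D V) * ζ) = u.c k)
    (ψ : Fin D.r → GHom G ((D.addPrimes V' hV').U T)) :
    ∃ ψ' : Fin D.r → GHom G ((D.addPrimes V hV).U T),
      (mv D V V' hV hV' T y ζ u).value ψ = toQ y * u.value ψ' := by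
  have hfg : Group.FG ((D.addPrimes V hV).U T) := fgU (D.addPrimes V hV) T
  have h1 : ∀ i, ∃ ψ' : GHom G ((D.addPrimes V hV).U T), ∀ x : D.U T,
      ψ'.f (Additive.ofMul ⟨(x : Hˣ), U_mono D V hV T x.2⟩) =
        (restrictG (U_mono D V' hV' T) (ψ i)).f (Additive.ofMul x) := fun i =>
    Pool.Agent.K3h11.RS.t_EXTG H G (D.U T) ((D.addPrimes V hV).U T) (U_mono D V hV T)
      (U_stable D T) (U_stable (D.addPrimes V hV) T) hfg
      (fun x hx n hn h => sat_U D V hV T x hx n hn h) (restrictG (U_mono D V' hV' T) (ψ i))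
  choose ψ' hψ' using h1
  refine ⟨ψ', ?_⟩
  unfold Wedge.value
  rw [Finset.mul_sum]
  change (∑ k : Fin u.n, (toQ y * (u.c k * ζ ^ D.r)) *
    toQ (Matrix.det (Matrix.of fun a b => (ψ a).f (Additive.ofMul
      ⟨zx D V.toList (u.x k b : Hˣ), U_mono D V' hV' T (zx_mem_U D V hV T (u.x k b).2)⟩)))) = _
  refine Finset.sum_congr rfl fun k _ => ?_
  have h2 : (Matrix.of fun a b => (ψ a).f (Additive.ofMul
      ⟨zx D V.toList (u.x k b : Hˣ), U_mono D V' hV' T (zx_mem_U D V hV T (u.x k b).2)⟩)) =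
      Matrix.of fun a b => zV D V * (ψ' a).f (Additive.ofMul (u.x k b)) := by
    ext a b : 1
    simp only [Matrix.of_apply]
    have h3 := hψ' a ⟨zx D V.toList (u.x k b : Hˣ), zx_mem_U D V hV T (u.x k b).2⟩
    have h4 := zx_psi D (U_stable (D.addPrimes V hV) T) (ψ' a) V.toList (u.x k b).2
    rw [zl_toList] at h4
    exact h3.symm.trans h4
  rw [h2, det_natCast_mul, map_mul, map_pow]
  have h5 := pow_inv (hζ k) D.r
  calc toQ y * (u.c k * ζ ^ D.r) * (toQ (zV D V) ^ D.r * toQ (Matrix.det (Matrix.of fun a b =>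
        (ψ' a).f (Additive.ofMul (u.x k b)))))
      = toQ y * ((u.c k * (toQ (zV D V) ^ D.r * ζ ^ D.r)) * toQ (Matrix.det (Matrix.of fun a b =>
        (ψ' a).f (Additive.ofMul (u.x k b))))) := by ring
    _ = _ := by rw [h5]

/-- the Euler factors at `V` -/
def PV (D : RubinData F H G) (V : Finset (HeightOneSpectrum (𝓞 F))) (χ : G →* ℂˣ) (s : ℂ) : ℂ :=
  ∏ v ∈ V, (1 - (χ (D.σ v) : ℂ) * (Ideal.absNorm v.asIdeal : ℂ) ^ (-s))

theorem LT_add [IsGaloisGroup G F H] (D : RubinData F H G)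
    (V : Finset (HeightOneSpectrum (𝓞 F))) (hV : ∀ v ∈ V, v ∉ D.S ∧ D.σ v ≠ 1)
    (T : Finset (HeightOneSpectrum (𝓞 F))) (χ : G →* ℂˣ) (s : ℂ) :
    (D.addPrimes V hV).LT T χ s = PV D V χ s * D.LT T χ s := by
  change (∏ v ∈ T, (1 - (χ (D.σ v) : ℂ) * (Ideal.absNorm v.asIdeal : ℂ) ^ (1 - s))) *
    ((∏ v ∈ V, (1 - (χ (D.σ v) : ℂ) * (Ideal.absNorm v.asIdeal : ℂ) ^ (-s))) * D.L χ s) = _
  unfold PV RubinData.LT
  ring

theorem absNorm_ne {F : Type} [Field F] [NumberField F] (v : HeightOneSpectrum (𝓞 F)) :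
    (Ideal.absNorm v.asIdeal : ℂ) ≠ 0 := by
  rw [Ne, Nat.cast_eq_zero, Ideal.absNorm_eq_zero_iff]
  exact v.ne_bot

theorem PV_tendsto (D : RubinData F H G) (V : Finset (HeightOneSpectrum (𝓞 F)))
    (χ : G →* ℂˣ) :
    Tendsto (PV D V χ⁻¹) (𝓝[≠] 0) (𝓝 (charValue χ (toR (toQ (zV D V))))) := by
  rw [charValue_zV]
  have h2 : Continuous (fun s : ℂ => ∏ v ∈ V, (1 - ((χ⁻¹ (D.σ v) : ℂˣ) : ℂ) *
      (Ideal.absNorm v.asIdeal : ℂ) ^ (-s))) := by
    refine continuous_finsetProd _ fun v _ => ?_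
    exact continuous_const.sub (continuous_const.mul
      (continuous_neg.const_cpow (Or.inl (absNorm_ne v))))
  have h3 := (h2.tendsto 0).mono_left (nhdsWithin_le_nhds (s := {0}ᶜ))
  have h5 : (∏ v ∈ V, (1 - ((χ⁻¹ (D.σ v) : ℂˣ) : ℂ) *
      (Ideal.absNorm v.asIdeal : ℂ) ^ (-(0 : ℂ)))) =
      ∏ v ∈ V, (1 - ((χ⁻¹ (D.σ v) : ℂˣ) : ℂ)) := by simp
  rw [← h5]
  exact h3

/-- the Euler factors do not vanish near `0` -/
theorem PV_ne (D : RubinData F H G) (V : Finset (HeightOneSpectrum (𝓞 F))) (χ : G →* ℂˣ) :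
    ∀ᶠ s in 𝓝[≠] (0 : ℂ), PV D V χ s ≠ 0 := by
  unfold PV
  have h1 : ∀ v ∈ V, ∀ᶠ s in 𝓝[≠] (0 : ℂ),
      1 - (χ (D.σ v) : ℂ) * (Ideal.absNorm v.asIdeal : ℂ) ^ (-s) ≠ 0 := by
    intro v _
    have hlog : Complex.log (Ideal.absNorm v.asIdeal : ℂ) ≠ 0 := by
      have h2 := Pool.Agent.K3h62.RS.two_le_absNorm v
      rw [← Complex.natCast_log]
      have h3 : Real.log (Ideal.absNorm v.asIdeal : ℝ) ≠ 0 := by
        have : (1 : ℝ) < (Ideal.absNorm v.asIdeal : ℝ) := by exact_mod_cast h2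
        exact (Real.log_pos this).ne'
      exact_mod_cast h3
    have hd : HasDerivAt (fun s : ℂ => (Ideal.absNorm v.asIdeal : ℂ) ^ (-s))
        ((Ideal.absNorm v.asIdeal : ℂ) ^ (-(0 : ℂ)) *
          Complex.log (Ideal.absNorm v.asIdeal : ℂ) * (-1)) 0 := by
      have := (hasDerivAt_neg (0 : ℂ)).const_cpow (c := (Ideal.absNorm v.asIdeal : ℂ))
        (Or.inl (absNorm_ne v))
      exact this
    have h2 : HasDerivAt (fun s : ℂ => 1 - (χ (D.σ v) : ℂ) *
        (Ideal.absNorm v.asIdeal : ℂ) ^ (-s)) (-((χ (D.σ v) : ℂ) *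
        ((Ideal.absNorm v.asIdeal : ℂ) ^ (-(0 : ℂ)) *
          Complex.log (Ideal.absNorm v.asIdeal : ℂ) * (-1)))) 0 :=
      (hd.const_mul _).const_sub 1
    refine h2.eventually_ne ?_
    rw [neg_zero, Complex.cpow_zero, one_mul]
    refine neg_ne_zero.2 (mul_ne_zero (Units.ne_zero _) (mul_ne_zero hlog (by norm_num)))
  have h2 := (Filter.eventually_all_finset V).2 h1
  filter_upwards [h2] with s hs
  exact Finset.prod_ne_zero_iff.2 hs

/-- the quotient of the Euler factors has a limit -/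
theorem PV_ratio (D : RubinData F H G) (V V' : Finset (HeightOneSpectrum (𝓞 F)))
    (e : HeightOneSpectrum (𝓞 F) → HeightOneSpectrum (𝓞 F)) (he : Set.InjOn e V)
    (heV : ∀ v ∈ V, e v ∈ V') (hσ : ∀ v ∈ V, D.σ (e v) ∈ Subgroup.zpowers (D.σ v))
    (χ : G →* ℂˣ) :
    ∃ l : ℂ, Tendsto (fun s => PV D V' χ s / PV D V χ s) (𝓝[≠] 0) (𝓝 l) := by
  classical
  have h1 : ∀ v : V, ∃ l : ℂ, Tendsto (fun s : ℂ =>
      (1 - (χ (D.σ (e v.1)) : ℂ) * (Ideal.absNorm (e v.1).asIdeal : ℂ) ^ (-s)) /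
      (1 - (χ (D.σ v.1) : ℂ) * (Ideal.absNorm v.1.asIdeal : ℂ) ^ (-s))) (𝓝[≠] 0) (𝓝 l) := by
    intro v
    refine Pool.Agent.K3h66.RS.t_RATIO _ _ _ _ (Pool.Agent.K3h62.RS.two_le_absNorm _)
      (Pool.Agent.K3h62.RS.two_le_absNorm _) ?_
    intro h
    have h2 : χ (D.σ v.1) = 1 := Units.ext (by rw [h, Units.val_one])
    obtain ⟨k, hk⟩ := Subgroup.mem_zpowers_iff.1 (hσ v.1 v.2)
    rw [← hk, map_zpow, h2, one_zpow, Units.val_one]
  choose l hl using h1
  have h2 := tendsto_finsetProd (Finset.univ : Finset V) (fun v _ => hl v)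
  have h3 : Continuous (fun s : ℂ => ∏ v ∈ V' \ V.image e, (1 - (χ (D.σ v) : ℂ) *
      (Ideal.absNorm v.asIdeal : ℂ) ^ (-s))) := by
    refine continuous_finsetProd _ fun v _ => ?_
    exact continuous_const.sub (continuous_const.mul
      (continuous_neg.const_cpow (Or.inl (absNorm_ne v))))
  have h4 := (h3.tendsto 0).mono_left (nhdsWithin_le_nhds (s := {0}ᶜ))
  refine ⟨_, (h2.mul h4).congr fun s => ?_⟩
  have h5 : V.image e ⊆ V' := by
    intro x hx
    obtain ⟨v, hv, rfl⟩ := Finset.mem_image.1 hx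
    exact heV v hv
  unfold PV
  rw [← Finset.prod_sdiff h5, Finset.prod_image he, Finset.prod_div_distrib,
    Finset.prod_coe_sort V (fun v => (1 - (χ (D.σ (e v)) : ℂ) *
      (Ideal.absNorm (e v).asIdeal : ℂ) ^ (-s))),
    Finset.prod_coe_sort V (fun v => (1 - (χ (D.σ v) : ℂ) *
      (Ideal.absNorm v.asIdeal : ℂ) ^ (-s)))]
  ring

/-- if the second factor is `0` the first does not matter -/
theorem tends_zero {f : ℂ → ℂ} {l a x : ℂ} (h : Tendsto f (𝓝[≠] 0) (𝓝 (l * x)))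
    (h0 : x = 0) : Tendsto f (𝓝[≠] 0) (𝓝 (a * x)) := by
  subst h0
  rw [mul_zero] at h ⊢
  exact h

/-- Rubin's conjecture for `S ∪ V` implies the one for `S ∪ V'` -/
theorem frobS [hG : IsGaloisGroup G F H] (D : RubinData F H G)
    (V V' : Finset (HeightOneSpectrum (𝓞 F)))
    (hV : ∀ v ∈ V, v ∉ D.S ∧ D.σ v ≠ 1) (hV' : ∀ v ∈ V', v ∉ D.S ∧ D.σ v ≠ 1)
    (e : HeightOneSpectrum (𝓞 F) → HeightOneSpectrum (𝓞 F)) (he : Set.InjOn e V)
    (heV : ∀ v ∈ V, e v ∈ V') (hσ : ∀ v ∈ V, D.σ (e v) ∈ Subgroup.zpowers (D.σ v))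
    (T : Finset (HeightOneSpectrum (𝓞 F))) (h : (D.addPrimes V hV).Rubin T) :
    (D.addPrimes V' hV').Rubin T := by
  classical
  obtain ⟨u, hER, hint, hst⟩ := h
  obtain ⟨y, hy⟩ := Pool.Agent.K3h66.RS.t_DIVZ G _ V V' D.σ e he heV hσ
  obtain ⟨ζ, hζ⟩ := exists_inv D V
  have hin : ∀ v ∈ V, ∀ χ : G →* ℂˣ, χ (D.σ v) = 1 → ∀ k, charValue χ (toR (u.c k)) = 0 := by
    intro v hv χ hχ k
    exact hER χ (fun ha => active_ne D V hV χ ha v hv hχ) k
  have hζ' : ∀ k, u.c k * (toQ (zV D V) * ζ) = u.c k := fun k =>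
    hζ (u.c k) fun v hv χ hχ => hin v hv χ hχ k
  have hreg := mv_regulator D V V' hV hV' T y ζ u hζ'
  refine ⟨mv D V V' hV hV' T y ζ u, mv_er D V V' hV hV' T y ζ hy u hER, ?_, ?_⟩
  · intro ψ
    obtain ⟨ψ', hψ'⟩ := mv_value D V V' hV hV' T y ζ u hζ' ψ
    obtain ⟨z, hz⟩ := hint ψ'
    refine ⟨y * z, ?_⟩
    rw [map_mul, ← hz]
    exact hψ'
  · intro χ
    have hst' : Tendsto (fun s : ℂ => (s ^ D.r)⁻¹ * (PV D V χ⁻¹ s * D.LT T χ⁻¹ s)) (𝓝[≠] 0)
        (𝓝 (charValue χ (u.regulator D.w))) := by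
      refine (hst χ).congr fun s => ?_
      rw [← LT_add D V hV T χ⁻¹ s]
      rfl
    change Tendsto (fun s : ℂ => (s ^ D.r)⁻¹ * (D.addPrimes V' hV').LT T χ⁻¹ s) (𝓝[≠] 0)
      (𝓝 (charValue χ ((mv D V V' hV hV' T y ζ u).regulator D.w)))
    rw [hreg, Pool.Agent.K3h62.RS.charValue_mul]
    have hcong : ∀ᶠ s in 𝓝[≠] (0 : ℂ), (PV D V' χ⁻¹ s / PV D V χ⁻¹ s) *
        ((s ^ D.r)⁻¹ * (PV D V χ⁻¹ s * D.LT T χ⁻¹ s)) =
        (s ^ D.r)⁻¹ * (D.addPrimes V' hV').LT T χ⁻¹ s := by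
      filter_upwards [PV_ne D V χ⁻¹] with s hs
      rw [LT_add D V' hV' T χ⁻¹ s]
      field_simp
    by_cases hB : ∃ v ∈ V, χ (D.σ v) = 1
    · obtain ⟨v, hv, hv1⟩ := hB
      have h0 : charValue χ (u.regulator D.w) = 0 := by
        unfold Wedge.regulator
        rw [Pool.Agent.K3h62.RS.charValue_eq, map_sum]
        refine Finset.sum_eq_zero fun k _ => ?_
        rw [map_mul, ← Pool.Agent.K3h62.RS.charValue_eq, hin v hv χ hv1 k, zero_mul]
      obtain ⟨l, hl⟩ := PV_ratio D V V' e he heV hσ χ⁻¹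
      have h1 := (hl.mul hst').congr' hcong
      exact tends_zero h1 h0
    · push Not at hB
      have hz : charValue χ (toR (toQ (zV D V))) ≠ 0 := by
        rw [charValue_zV]
        refine Finset.prod_ne_zero_iff.2 fun v hv => ?_
        intro h0
        have h5 : (χ⁻¹ (D.σ v) : ℂˣ) = 1 := by
          ext
          rw [Units.val_one]
          exact (sub_eq_zero.1 h0).symm
        rw [MonoidHom.inv_apply, inv_eq_one] at h5
        exact hB v hv h5
      have h1 := ((PV_tendsto D V' χ).div (PV_tendsto D V χ) hz).mul hst'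
      have h2 := h1.congr' hcong
      have h3 : charValue χ (toR (toQ (zV D V'))) / charValue χ (toR (toQ (zV D V))) =
          charValue χ (toR (toQ y)) := by
        rw [div_eq_iff hz]
        have h4 : zV D V' = zV D V * y := hy
        rw [h4, map_mul, map_mul, Pool.Agent.K3h62.RS.charValue_mul, mul_comm]
      rw [h3] at h2
      exact h2

end Pool.Agent.K3h30.RS
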