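import Pool.Agent.K3h30.RS.Dec
import Pool.Agent.K3h62.RS.LFUN

/-!
# Rubin's conjecture for the sets `T` with a good prime ideal
-/

set_option autoImplicit false
set_option linter.unusedSectionVars false

open NumberField IsDedekindDomain Filter Topology

noncomputable section

namespace Pool.Agent.K3h30.RS

variable {F H G : Type} [Field F] [NumberField F] [Field H] [NumberField H] [Algebra F H]
  [CommGroup G] [Finite G] [MulSemiringAction G H]

/-- the wedge `δ_T κ u₁` in `ℚ ⋀^r U_{S,T}` -/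
def moved (D : RubinData F H G) {T₁ T : Finset (HeightOneSpectrum (𝓞 F))}
    (u₁ : Wedge G D.r (D.U T₁)) (κ : MonoidAlgebra ℚ G) (m : ℕ)
    (hm : ∀ x : US D, (x : Hˣ) ^ m ∈ D.U T) : Wedge G D.r (D.U T) where
  n := u₁.n
  c k := (((m : ℚ)⁻¹ ^ D.r) • (D.delta T * (κ * u₁.c k)))
  x k b := ⟨(u₁.x k b : Hˣ) ^ m, hm ⟨(u₁.x k b : Hˣ), mem_US_of_mem D T₁ (u₁.x k b).2⟩⟩

theorem moved_er (D : RubinData F H G) {T₁ T : Finset (HeightOneSpectrum (𝓞 F))}
    (u₁ : Wedge G D.r (D.U T₁)) (κ : MonoidAlgebra ℚ G) (m : ℕ)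
    (hm : ∀ x : US D, (x : Hˣ) ^ m ∈ D.U T) (h : D.InER u₁) : D.InER (moved D u₁ κ m hm) := by
  intro χ hχ k
  have h3 := h χ hχ k
  have e : (moved D u₁ κ m hm).c k = ((m : ℚ)⁻¹ ^ D.r) • (D.delta T * κ * u₁.c k) := by
    change ((m : ℚ)⁻¹ ^ D.r) • (D.delta T * (κ * u₁.c k)) = _
    rw [mul_assoc]
  rw [Pool.Agent.K3h62.RS.charValue_eq] at h3 ⊢
  rw [e, map_rat_smul toR, map_mul, map_rat_smul, map_mul]
  have h4 : (Pool.Agent.K3h62.RS.cvHom χ) (toR (u₁.c k)) = 0 := h3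
  rw [h4, mul_zero, smul_zero]

theorem det_natCast_mul {R : Type} [CommRing R] {r : ℕ} (m : R) (M : Fin r → Fin r → R) :
    Matrix.det (Matrix.of fun a b => m * M a b) = m ^ r * Matrix.det (Matrix.of M) := by
  have : (Matrix.of fun a b => m * M a b) = m • Matrix.of M := by
    ext a b
    simp
  rw [this, Matrix.det_smul, Fintype.card_fin]

theorem smul_natCast_mul {R : Type} [CommRing R] [Algebra ℚ R] {m : ℕ} (hm : 0 < m) (r : ℕ)
    (c x : R) : (((m : ℚ)⁻¹ ^ r) • c) * ((m : R) ^ r * x) = c * x := by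
  have h : (m : R) ^ r = ((m : ℚ) ^ r) • (1 : R) := by
    rw [Algebra.smul_def, mul_one, map_pow, map_natCast]
  rw [h, smul_mul_assoc, smul_mul_assoc, one_mul, mul_smul_comm, smul_smul, ← mul_pow,
    inv_mul_cancel₀ (by positivity), one_pow, one_smul]

theorem moved_regulator (D : RubinData F H G) {T₁ T : Finset (HeightOneSpectrum (𝓞 F))}
    (u₁ : Wedge G D.r (D.U T₁)) (κ : MonoidAlgebra ℚ G) {m : ℕ} (hm0 : 0 < m)
    (hm : ∀ x : US D, (x : Hˣ) ^ m ∈ D.U T) :
    (moved D u₁ κ m hm).regulator D.w = toR (D.delta T * κ) * u₁.regulator D.w := by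
  unfold Wedge.regulator
  rw [Finset.mul_sum]
  change (∑ k : Fin u₁.n, toR (((m : ℚ)⁻¹ ^ D.r) • (D.delta T * (κ * u₁.c k))) *
    Matrix.det (Matrix.of fun a b => reg G (D.w a) ((u₁.x k b : Hˣ) ^ m))) = _
  refine Finset.sum_congr rfl fun k _ => ?_
  have h1 : (Matrix.of fun a b => reg G (D.w a) ((u₁.x k b : Hˣ) ^ m)) =
      Matrix.of fun a b => (m : MonoidAlgebra ℝ G) * reg G (D.w a) (u₁.x k b : Hˣ) := by
    ext a b
    simp only [Matrix.of_apply, reg_pow]
  rw [h1, det_natCast_mul]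
  have h2 : toR (((m : ℚ)⁻¹ ^ D.r) • (D.delta T * (κ * u₁.c k))) =
      ((m : ℚ)⁻¹ ^ D.r) • toR (D.delta T * (κ * u₁.c k)) := map_rat_smul toR _ _
  rw [h2, smul_natCast_mul hm0, ← mul_assoc, map_mul, map_mul]
  ring

theorem rubin_of_good (hL : S_LAM) (hE : S_EXT) (hDet : S_DET) (hD : S_DLOG) (hF : S_FROBU)
    (hT : S_TRANS) (hO : S_OVER) (hU : S_UNIT) (hLf : S_LFUN) [hG : IsGaloisGroup G F H]
    (D : RubinData F H G) (T₁ : Finset (HeightOneSpectrum (𝓞 F))) (u₁ : Wedge G D.r (D.U T₁))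
    (hER : D.InER u₁) (hSt : D.IsStark T₁ u₁) :
    ∃ (N : ℕ) (Z : Finset Hˣ), 0 < N ∧
      ∀ T : Finset (HeightOneSpectrum (𝓞 F)), Disjoint D.S T → ∀ v ∈ T,
        N ∣ Ideal.absNorm v.asIdeal - 1 → D.σ v = 1 →
        (∀ w : HeightOneSpectrum (𝓞 H), Above {v} w → ∀ z ∈ Z, w.valuation H (z : H) = 1 →
          ∃ β : Hˣ, w.valuation H (β : H) = 1 ∧ w.valuation H ((z : H) - (β : H) ^ N) < 1) →
        D.Rubin T := by
  classical
  letI := actionA (H := H) (G := G) hT (D.S : Set (HeightOneSpectrum (𝓞 F))) ∅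
  have hfg : AddGroup.FG (Additive (US D)) := fgA hO D.S
  obtain ⟨w, hw0, hw⟩ := exists_torsion (Additive (US D))
  obtain ⟨κ, hκ⟩ := hU F H G D T₁
  obtain ⟨N₀, hN₀, hN₀'⟩ := exists_denom_all (fun k => κ * u₁.c k)
  refine ⟨w ^ D.r * N₀, Finset.univ.image (fun p : Fin u₁.n × Fin D.r => (u₁.x p.1 p.2 : Hˣ)),
    by positivity, ?_⟩
  intro T hdis v hv hN hσ hZ
  obtain ⟨d, m, hm0, hm, hdec, hpow⟩ := decompose hL hE hD hF hT hO D T hdis w hw
  refine ⟨moved D u₁ κ m hm, moved_er D u₁ κ m hm hER, ?_, ?_⟩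
  · -- integrality
    intro ψ
    choose y a hy h using fun i => hdec (ψ i)
    let X : Fin u₁.n → Fin D.r → US D := fun k b =>
      ⟨(u₁.x k b : Hˣ), mem_US_of_mem D T₁ (u₁.x k b).2⟩
    -- the determinants
    have key : ∀ k : Fin u₁.n, ∃ z ∈ (toQ (G := G)).range,
        D.delta T * Matrix.det (Matrix.of fun i j => toQ (y i (Additive.ofMul (X k j))) +
          ∑ t : T, toQ (a i t) * (d t).Λ (Additive.ofMul (X k j))) =
          ((w ^ D.r * N₀ : ℕ) : MonoidAlgebra ℚ G) * z := by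
      intro k
      have h1 := hDet (MonoidAlgebra ℚ G) T (toQ (G := G)).range Finset.univ
        (fun t => 1 - MonoidAlgebra.single (D.σ t.1)⁻¹ (Ideal.absNorm t.1.asIdeal : ℚ)) D.r
        (fun i j => toQ (y i (Additive.ofMul (X k j)))) (fun i t => toQ (a i t))
        (fun t j => (d t).Λ (Additive.ofMul (X k j)))
        (fun i j => ⟨_, rfl⟩) (fun i t => ⟨_, rfl⟩) ?_ ?_ ⟨v, hv⟩
        ((w ^ D.r * N₀ : ℕ) : MonoidAlgebra ℚ G) (natCast_mem _ _) (Finset.mem_univ _) ?_ ?_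
      · have h2 : D.delta T = ∏ t : T,
            (1 - MonoidAlgebra.single (D.σ t.1)⁻¹ (Ideal.absNorm t.1.asIdeal : ℚ)) := by
          unfold RubinData.delta
          exact (Finset.prod_coe_sort T (fun t => (1 -
            MonoidAlgebra.single (D.σ t)⁻¹ (Ideal.absNorm t.asIdeal : ℚ) : MonoidAlgebra ℚ G))).symm
        rw [h2]
        exact h1
      · intro t _
        refine sub_mem (one_mem _) ?_
        rw [mem_range_toQ]
        intro γ
        refine ⟨(MonoidAlgebra.single (D.σ t.1)⁻¹ (Ideal.absNorm t.1.asIdeal : ℤ) :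
          MonoidAlgebra ℤ G).coeff γ, ?_⟩
        rw [← coeff_toQ]
        simp [toQ]
      · intro t _ j
        exact (d t).integral _
      · obtain ⟨c, hc⟩ := hN
        refine ⟨-(c : MonoidAlgebra ℚ G), neg_mem (natCast_mem _ _), ?_⟩
        have h1 : 1 ≤ Ideal.absNorm v.asIdeal := by
          have h0 : Ideal.absNorm v.asIdeal ≠ 0 := by
            rw [Ne, Ideal.absNorm_eq_zero_iff]
            exact v.ne_bot
          omega
        have h2 : (Ideal.absNorm v.asIdeal : MonoidAlgebra ℚ G) =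
            ((w ^ D.r * N₀ : ℕ) : MonoidAlgebra ℚ G) * c + 1 := by
          have : Ideal.absNorm v.asIdeal = w ^ D.r * N₀ * c + 1 := by omega
          conv_lhs => rw [this]
          push_cast
          ring
        change 1 - MonoidAlgebra.single (D.σ v)⁻¹ (Ideal.absNorm v.asIdeal : ℚ) = _
        rw [hσ, inv_one, ← MonoidAlgebra.natCast_def, h2]
        ring
      · intro j
        refine (d ⟨v, hv⟩).divisible hσ ?_ hN _ ?_
        · have h0 : Ideal.absNorm v.asIdeal ≠ 0 := by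
            rw [Ne, Ideal.absNorm_eq_zero_iff]
            exact v.ne_bot
          change 1 ≤ Ideal.absNorm v.asIdeal
          omega
        · refine hpow ⟨v, hv⟩ hσ (w ^ D.r * N₀) (X k j) (fun u hu => ?_)
          refine hZ u hu (u₁.x k j : Hˣ) (Finset.mem_image.2 ⟨(k, j), Finset.mem_univ _, rfl⟩) ?_
          refine (X k j).2.1 u ?_
          rw [above_iff hu]
          exact fun hh => (Finset.disjoint_left.1 hdis (Finset.mem_coe.1 hh)) hv
    choose z hz hz' using key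
    choose z' hz'' using hz
    choose c' hc' using fun k => (hN₀' k)
    refine ⟨∑ k, c' k * z' k, ?_⟩
    refine natCast_cancel (n := w ^ D.r) (by positivity) ?_
    unfold Wedge.value
    change ((w ^ D.r : ℕ) : MonoidAlgebra ℚ G) * (∑ k : Fin u₁.n,
      (((m : ℚ)⁻¹ ^ D.r) • (D.delta T * (κ * u₁.c k))) *
      toQ (Matrix.det (Matrix.of fun i j =>
        (ψ i).f (Additive.ofMul ⟨(u₁.x k j : Hˣ) ^ m, hm (X k j)⟩)))) = _
    rw [map_sum, Finset.mul_sum, Finset.mul_sum]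
    refine Finset.sum_congr rfl fun k _ => ?_
    have h1 : ((w ^ D.r : ℕ) : MonoidAlgebra ℚ G) * toQ (Matrix.det (Matrix.of fun i j =>
        (ψ i).f (Additive.ofMul ⟨(u₁.x k j : Hˣ) ^ m, hm (X k j)⟩))) =
        (m : MonoidAlgebra ℚ G) ^ D.r * Matrix.det (Matrix.of fun i j =>
          toQ (y i (Additive.ofMul (X k j))) +
          ∑ t : T, toQ (a i t) * (d t).Λ (Additive.ofMul (X k j))) := by
      rw [← det_natCast_mul, RingHom.map_det, Nat.cast_pow]
      have h2 : (toQ (G := G)).mapMatrix (Matrix.of fun i j =>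
          (ψ i).f (Additive.ofMul ⟨(u₁.x k j : Hˣ) ^ m, hm (X k j)⟩)) =
          Matrix.of fun i j => toQ ((ψ i).f (Additive.ofMul ⟨(u₁.x k j : Hˣ) ^ m, hm (X k j)⟩)) := by
        ext i j
        simp
      rw [h2, ← det_natCast_mul]
      congr 1
      ext i j : 1
      exact h i (X k j) (hm (X k j))
    have h3 : ((w ^ D.r : ℕ) : MonoidAlgebra ℚ G) * ((((m : ℚ)⁻¹ ^ D.r) •
        (D.delta T * (κ * u₁.c k))) * toQ (Matrix.det (Matrix.of fun i j =>
        (ψ i).f (Additive.ofMul ⟨(u₁.x k j : Hˣ) ^ m, hm (X k j)⟩)))) =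
        (((m : ℚ)⁻¹ ^ D.r) • (D.delta T * (κ * u₁.c k))) *
        (((w ^ D.r : ℕ) : MonoidAlgebra ℚ G) * toQ (Matrix.det (Matrix.of fun i j =>
        (ψ i).f (Additive.ofMul ⟨(u₁.x k j : Hˣ) ^ m, hm (X k j)⟩)))) := by ring
    rw [h3, h1, smul_natCast_mul hm0]
    have h4 : D.delta T * (κ * u₁.c k) * Matrix.det (Matrix.of fun i j =>
        toQ (y i (Additive.ofMul (X k j))) +
          ∑ t : T, toQ (a i t) * (d t).Λ (Additive.ofMul (X k j))) =
        (κ * u₁.c k) * (D.delta T * Matrix.det (Matrix.of fun i j =>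
          toQ (y i (Additive.ofMul (X k j))) +
          ∑ t : T, toQ (a i t) * (d t).Λ (Additive.ofMul (X k j)))) := by ring
    rw [h4, hz' k, map_mul, hc', hz'']
    push_cast
    ring
  · -- the Stark property
    refine hLf F H G D T₁ T (κ * D.delta T) ?_ (D.U T₁) (D.U T) u₁ _ ?_ hSt
    · rw [← mul_assoc, hκ, one_mul]
    · rw [moved_regulator D u₁ κ hm0 hm, mul_comm κ]

end Pool.Agent.K3h30.RS
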