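import Pool.Agent.K3h30.RS.Stm2

/-!
# Rubin's conjecture and the sets `T`: statements of further parts, continued
-/

set_option autoImplicit false

open NumberField IsDedekindDomain Filter Topology

noncomputable section

namespace Pool.Agent.K3h30.RS

section

variable {F H G : Type} [Field F] [NumberField F] [Field H] [NumberField H] [Algebra F H]
  [CommGroup G] [Finite G] [MulSemiringAction G H]

/-- `f : U_S → ℚ[G]` is compatible with `G`. -/
def IsEquiv (D : RubinData F H G)
    (f : Additive (unitGroup (H := H) (D.S : Set (HeightOneSpectrum (𝓞 F))) ∅) →+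
      MonoidAlgebra ℚ G) : Prop :=
  ∀ (γ : G) (x y : unitGroup (H := H) (D.S : Set (HeightOneSpectrum (𝓞 F))) ∅),
    (y : Hˣ) = act γ (x : Hˣ) →
      f (Additive.ofMul y) = MonoidAlgebra.single γ 1 * f (Additive.ofMul x)

/-- `f` has values in `ℤ[G]` on `U_{S,T}`. -/
def IntOn (D : RubinData F H G) (T : Finset (HeightOneSpectrum (𝓞 F)))
    (f : Additive (unitGroup (H := H) (D.S : Set (HeightOneSpectrum (𝓞 F))) ∅) →+
      MonoidAlgebra ℚ G) : Prop :=
  ∀ x : unitGroup (H := H) (D.S : Set (HeightOneSpectrum (𝓞 F))) ∅, (x : Hˣ) ∈ D.U T →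
    f (Additive.ofMul x) ∈ (toQ (G := G)).range

/-- `δ_T u` is in the lattice for `T`. -/
def IntAt (D : RubinData F H G) {U : Subgroup Hˣ}
    (hU : U ≤ unitGroup (H := H) (D.S : Set (HeightOneSpectrum (𝓞 F))) ∅) (u : Wedge G D.r U)
    (T : Finset (HeightOneSpectrum (𝓞 F))) : Prop :=
  ∀ f : Fin D.r → Additive (unitGroup (H := H) (D.S : Set (HeightOneSpectrum (𝓞 F))) ∅) →+
    MonoidAlgebra ℚ G, (∀ i, IsEquiv D (f i)) → (∀ i, IntOn D T (f i)) →
    D.delta T * wval D hU f u ∈ (toQ (G := G)).range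

end

/-- The passage from `{v}` to larger sets. -/
def S_MONO : Prop :=
  ∀ (F H G : Type) [Field F] [NumberField F] [Field H] [NumberField H] [Algebra F H]
    [CommGroup G] [Finite G] [MulSemiringAction G H] [IsGaloisGroup G F H] (D : RubinData F H G)
    (U : Subgroup Hˣ) (hU : U ≤ unitGroup (H := H) (D.S : Set (HeightOneSpectrum (𝓞 F))) ∅)
    (u : Wedge G D.r U) (v : HeightOneSpectrum (𝓞 F)) (T : Finset (HeightOneSpectrum (𝓞 F))),
    v ∈ T → Disjoint D.S T → (∀ x : Hˣ, x ∈ D.U {v} → IsOfFinOrder x → x = 1) →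
    IntAt D hU u {v} → IntAt D hU u T

/-- The group `U_{S,{v}}` is torsion free. -/
def S_TORS : Prop :=
  ∀ (F H G : Type) [Field F] [NumberField F] [Field H] [NumberField H] [Algebra F H]
    [CommGroup G] [Finite G] [MulSemiringAction G H] [IsGaloisGroup G F H] (D : RubinData F H G)
    (v : HeightOneSpectrum (𝓞 F)), v ∉ D.S →
    Module.finrank ℚ F + 1 < ringChar (𝓞 F ⧸ v.asIdeal) →
    ∀ x : Hˣ, x ∈ D.U {v} → IsOfFinOrder x → x = 1

/-- The Frobenius automorphism of an unramified prime ideal is unique. -/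
def S_FROBUNIQ : Prop :=
  ∀ (F H G : Type) [Field F] [NumberField F] [Field H] [NumberField H] [Algebra F H]
    [CommGroup G] [Finite G] [MulSemiringAction G H] [IsGaloisGroup G F H]
    (v : HeightOneSpectrum (𝓞 F)), Squarefree (v.asIdeal.map (algebraMap (𝓞 F) (𝓞 H))) →
    ∀ γ γ' : G, IsFrob (H := H) v γ → IsFrob (H := H) v γ' → γ = γ'

end Pool.Agent.K3h30.RS
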