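import Pool.Agent.K3h30.RS.Main
import Pool.Agent.K3h30.RS.Stm3

/-!
# Rubin's conjecture for `T` and integrality of the Stark element for the empty set
-/

set_option autoImplicit false
set_option linter.unusedSectionVars false

open NumberField IsDedekindDomain Filter Topology

noncomputable section

namespace Pool.Agent.K3h30.RS

variable {F H G : Type} [Field F] [NumberField F] [Field H] [NumberField H] [Algebra F H]
  [CommGroup G] [Finite G] [MulSemiringAction G H]

theorem toQ_injective : Function.Injective (toQ (G := G)) := by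
  intro x y h
  ext γ
  have h1 := congrArg (fun z => MonoidAlgebra.coeff z γ) h
  simp only [coeff_toQ] at h1
  exact_mod_cast h1

theorem U_le (D : RubinData F H G) (T : Finset (HeightOneSpectrum (𝓞 F))) : D.U T ≤ US D :=
  fun _ hx => mem_US_of_mem D T hx

/-- the restriction of `f` to `U_{S,T}` -/
theorem exists_restrict (D : RubinData F H G) (T : Finset (HeightOneSpectrum (𝓞 F)))
    (f : Additive (US D) →+ MonoidAlgebra ℚ G) (hf : IsEquiv D f) (hi : IntOn D T f) :
    ∃ ψ : GHom G (D.U T), ∀ x : D.U T,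
      toQ (ψ.f (Additive.ofMul x)) = f (Additive.ofMul ⟨(x : Hˣ), U_le D T x.2⟩) := by
  have h1 : ∀ x : D.U T, ∃ z : MonoidAlgebra ℤ G,
      toQ z = f (Additive.ofMul ⟨(x : Hˣ), U_le D T x.2⟩) := fun x =>
    hi ⟨(x : Hˣ), U_le D T x.2⟩ x.2
  choose z hz using h1
  refine ⟨⟨{ toFun := fun x => z (Additive.toMul x)
             map_zero' := ?_
             map_add' := ?_ }, ?_⟩, ?_⟩
  · apply toQ_injective
    rw [hz, map_zero (toQ (G := G))]
    exact map_zero f
  · intro x y
    apply toQ_injective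
    rw [hz, map_add (toQ (G := G)), hz, hz, ← map_add f]
    rfl
  · intro γ x y hxy
    apply toQ_injective
    rw [map_mul]
    have h2 : toQ (MonoidAlgebra.single γ (1 : ℤ)) = MonoidAlgebra.single γ (1 : ℚ) := by
      simp [toQ]
    rw [h2]
    change toQ (z y) = _ * toQ (z x)
    rw [hz, hz]
    exact hf γ _ _ hxy
  · intro x
    exact hz x

/-- Rubin's conjecture for `T` implies integrality -/
theorem intAt_of_rubin (hU : S_UNIQ) [hG : IsGaloisGroup G F H] (D : RubinData F H G)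
    {U₀ : Subgroup Hˣ} (h₀ : U₀ ≤ US D) (u₀ : Wedge G D.r U₀) (e₀ : D.InER u₀)
    (s₀ : D.IsStark ∅ u₀) (T : Finset (HeightOneSpectrum (𝓞 F))) (h : D.Rubin T) :
    IntAt D h₀ u₀ T := by
  obtain ⟨u, e, hint, s⟩ := h
  intro f hf hi
  have h1 := hU F H G D ∅ T U₀ (D.U T) h₀ (U_le D T) u₀ u e₀ e s₀ s f hf
  have h2 : D.delta ∅ = 1 := by
    unfold RubinData.delta
    rw [Finset.prod_empty]
  rw [h2, one_mul] at h1
  rw [h1]
  choose ψ hψ using fun i => exists_restrict D T (f i) (hf i) (hi i)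
  obtain ⟨z, hz⟩ := hint ψ
  refine ⟨z, ?_⟩
  rw [← hz]
  unfold Wedge.value wval
  refine Finset.sum_congr rfl fun k _ => ?_
  congr 1
  rw [RingHom.map_det]
  congr 1
  ext i j : 1
  simp only [RingHom.mapMatrix_apply, Matrix.map_apply, Matrix.of_apply]
  exact hψ i (u.x k j)

/-- integrality implies Rubin's conjecture for `T` -/
theorem rubin_of_intAt [hG : IsGaloisGroup G F H] (D : RubinData F H G)
    (u₀ : Wedge G D.r (D.U ∅)) (e₀ : D.InER u₀) (s₀ : D.IsStark ∅ u₀)
    (T : Finset (HeightOneSpectrum (𝓞 F))) (hT : Disjoint D.S T)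
    (h : IntAt D (U_le D ∅) u₀ T) : D.Rubin T := by
  letI := actionA (H := H) (G := G) Pool.Agent.K3h25.RS.t_TRANS
    (D.S : Set (HeightOneSpectrum (𝓞 F))) ∅
  have hfg : AddGroup.FG (Additive (US D)) := fgA Pool.Agent.K3h25.RS.t_OVER D.S
  obtain ⟨w, hw0, hw⟩ := exists_torsion (Additive (US D))
  obtain ⟨d, m, hm0, hm, -, -⟩ := decompose Pool.Agent.K3h73.RS.t_LAM Pool.Agent.K3h12.RSE.t_EXT
    Pool.Agent.K3h44.RS.t_DLOG Pool.Agent.K3h44.RS.t_FROBU Pool.Agent.K3h25.RS.t_TRANS
    Pool.Agent.K3h25.RS.t_OVER D T hT w hw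
  have h2 : D.delta ∅ = 1 := by
    unfold RubinData.delta
    rw [Finset.prod_empty]
  refine ⟨moved D u₀ 1 m hm, moved_er D u₀ 1 m hm e₀, ?_, ?_⟩
  · intro ψ
    -- the rational extension
    let f : Fin D.r → Additive (US D) →+ MonoidAlgebra ℚ G := fun i =>
      { toFun := fun x => ((m : ℚ)⁻¹) • toQ ((ψ i).f (Additive.ofMul
          ⟨((Additive.toMul x : US D) : Hˣ) ^ m, hm (Additive.toMul x)⟩))
        map_zero' := by
          have : (Additive.ofMul (⟨((Additive.toMul (0 : Additive (US D)) : US D) : Hˣ) ^ m,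
              hm (Additive.toMul 0)⟩ : D.U T)) = 0 := by
            apply Additive.toMul.injective
            ext
            simp
          rw [this, map_zero, map_zero, smul_zero]
        map_add' := by
          intro x y
          rw [← smul_add, ← map_add, ← map_add]
          congr 3
          apply Additive.toMul.injective
          ext
          simp [mul_pow] }
    have hfm : ∀ i (x : US D), toQ ((ψ i).f (Additive.ofMul ⟨(x : Hˣ) ^ m, hm x⟩)) =
        (m : MonoidAlgebra ℚ G) * f i (Additive.ofMul x) := by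
      intro i x
      change _ = (m : MonoidAlgebra ℚ G) * (((m : ℚ)⁻¹) •
        toQ ((ψ i).f (Additive.ofMul ⟨(x : Hˣ) ^ m, hm x⟩)))
      rw [mul_smul_comm]
      have h3 : (m : MonoidAlgebra ℚ G) = ((m : ℚ)) • (1 : MonoidAlgebra ℚ G) := by
        rw [Algebra.smul_def, mul_one, map_natCast]
      rw [h3, smul_mul_assoc, one_mul, smul_smul, inv_mul_cancel₀ (by positivity), one_smul]
    have hf1 : ∀ i, IsEquiv D (f i) := by
      intro i γ x y hxy
      apply natCast_cancel hm0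
      rw [← hfm, mul_left_comm, ← hfm]
      have h3 : toQ (MonoidAlgebra.single γ (1 : ℤ)) = MonoidAlgebra.single γ (1 : ℚ) := by
        simp [toQ]
      rw [← h3, ← map_mul]
      congr 1
      refine (ψ i).equiv γ _ _ ?_
      change (y : Hˣ) ^ m = act γ ((x : Hˣ) ^ m)
      rw [hxy, act_pow]
    have hf2 : ∀ i, IntOn D T (f i) := by
      intro i x hx
      refine ⟨(ψ i).f (Additive.ofMul ⟨(x : Hˣ), hx⟩), ?_⟩
      apply natCast_cancel hm0
      rw [← hfm]
      have h3 : (Additive.ofMul (⟨(x : Hˣ) ^ m, hm x⟩ : D.U T)) =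
          m • Additive.ofMul (⟨(x : Hˣ), hx⟩ : D.U T) := rfl
      rw [h3, map_nsmul, nsmul_eq_mul, map_mul, map_natCast]
    obtain ⟨z, hz⟩ := h f hf1 hf2
    refine ⟨z, ?_⟩
    rw [hz]
    unfold Wedge.value wval
    rw [Finset.mul_sum]
    change (∑ k : Fin u₀.n, (((m : ℚ)⁻¹ ^ D.r) • (D.delta T * (1 * u₀.c k))) *
      toQ (Matrix.det (Matrix.of fun i j =>
        (ψ i).f (Additive.ofMul ⟨(u₀.x k j : Hˣ) ^ m, hm ⟨(u₀.x k j : Hˣ),
          mem_US_of_mem D ∅ (u₀.x k j).2⟩⟩)))) = _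
    refine Finset.sum_congr rfl fun k _ => ?_
    rw [RingHom.map_det]
    have h4 : (toQ (G := G)).mapMatrix (Matrix.of fun i j =>
        (ψ i).f (Additive.ofMul ⟨(u₀.x k j : Hˣ) ^ m, hm ⟨(u₀.x k j : Hˣ),
          mem_US_of_mem D ∅ (u₀.x k j).2⟩⟩)) =
        Matrix.of fun i j => (m : MonoidAlgebra ℚ G) *
          f i (Additive.ofMul ⟨(u₀.x k j : Hˣ), U_le D ∅ (u₀.x k j).2⟩) := by
      ext i j : 1
      simp only [RingHom.mapMatrix_apply, Matrix.map_apply, Matrix.of_apply]
      exact hfm i ⟨(u₀.x k j : Hˣ), U_le D ∅ (u₀.x k j).2⟩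
    rw [h4, det_natCast_mul, smul_natCast_mul hm0, one_mul, mul_assoc]
  · refine Pool.Agent.K3h62.RS.t_LFUN F H G D ∅ T (D.delta T) ?_ (D.U ∅) (D.U T) u₀ _ ?_ s₀
    · rw [h2, one_mul]
    · rw [moved_regulator D u₀ 1 hm0 hm, mul_one]

end Pool.Agent.K3h30.RS
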