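import Pool.Agent.K3h30.RS.Int

/-!
# Integrality at a prime number
-/

set_option autoImplicit false
set_option linter.unusedSectionVars false

open NumberField IsDedekindDomain Filter Topology

noncomputable section

namespace Pool.Agent.K3h30.RS

section

variable {G : Type} [CommGroup G] [Finite G]

/-- `z` is integral at `l` -/
def LInt (l : ℕ) (z : MonoidAlgebra ℚ G) : Prop :=
  ∃ n : ℕ, ¬ l ∣ n ∧ (n : MonoidAlgebra ℚ G) * z ∈ (toQ (G := G)).range

theorem LInt.of_mem {l : ℕ} (hl : l.Prime) {z : MonoidAlgebra ℚ G}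
    (h : z ∈ (toQ (G := G)).range) : LInt l z :=
  ⟨1, hl.one_lt.ne' ∘ Nat.dvd_one.1, by rwa [Nat.cast_one, one_mul]⟩

theorem LInt.add {l : ℕ} (hl : l.Prime) {z z' : MonoidAlgebra ℚ G} (h : LInt l z)
    (h' : LInt l z') : LInt l (z + z') := by
  obtain ⟨n, hn, hz⟩ := h
  obtain ⟨n', hn', hz'⟩ := h'
  refine ⟨n * n', fun hd => ?_, ?_⟩
  · rcases hl.dvd_mul.1 hd with h | h
    · exact hn h
    · exact hn' h
  · have : ((n * n' : ℕ) : MonoidAlgebra ℚ G) * (z + z') = n' * (n * z) + n * (n' * z') := by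
      push_cast; ring
    rw [this]
    exact add_mem (mul_mem (natCast_mem _ _) hz) (mul_mem (natCast_mem _ _) hz')

theorem LInt.mul {l : ℕ} (hl : l.Prime) {y z : MonoidAlgebra ℚ G}
    (hy : y ∈ (toQ (G := G)).range) (h : LInt l z) : LInt l (y * z) := by
  obtain ⟨n, hn, hz⟩ := h
  refine ⟨n, hn, ?_⟩
  have : (n : MonoidAlgebra ℚ G) * (y * z) = y * (n * z) := by ring
  rw [this]
  exact mul_mem hy hz

theorem LInt.of_nat {l : ℕ} (hl : l.Prime) {n : ℕ} (hn : ¬ l ∣ n) {z : MonoidAlgebra ℚ G}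
    (h : LInt l ((n : MonoidAlgebra ℚ G) * z)) : LInt l z := by
  obtain ⟨m, hm, hz⟩ := h
  refine ⟨m * n, fun hd => ?_, ?_⟩
  · rcases hl.dvd_mul.1 hd with h | h
    · exact hm h
    · exact hn h
  · rw [Nat.cast_mul, mul_assoc]
    exact hz

theorem mem_range_of_LInt (z : MonoidAlgebra ℚ G) (h : ∀ l : ℕ, l.Prime → LInt l z) :
    z ∈ (toQ (G := G)).range := by
  rw [mem_range_toQ]
  intro γ
  have h1 : (z.coeff γ).den = 1 := by
    by_contra h2
    obtain ⟨l, hl, hd⟩ := Nat.exists_prime_and_dvd h2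
    obtain ⟨n, hn, hz⟩ := h l hl
    rw [mem_range_toQ] at hz
    obtain ⟨k, hk⟩ := hz γ
    rw [nat_smul_eq] at hk
    have h3 : ((z.coeff γ).den : ℤ) ∣ (n : ℤ) * (z.coeff γ).num := by
      refine ⟨k, ?_⟩
      have h4 : (z.coeff γ) * (z.coeff γ).den = (z.coeff γ).num := Rat.mul_den_eq_num _
      have h5 : ((n : ℤ) * (z.coeff γ).num : ℚ) = (((z.coeff γ).den : ℤ) * k : ℚ) := by
        rw [← h4, ← hk]
        push_cast
        ring
      exact_mod_cast h5
    have h6 : (l : ℤ) ∣ (n : ℤ) * (z.coeff γ).num :=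
      dvd_trans (Int.natCast_dvd_natCast.2 hd) h3
    rcases (Nat.prime_iff_prime_int.1 hl).dvd_mul.1 h6 with h7 | h7
    · exact hn (Int.natCast_dvd_natCast.1 h7)
    · have h8 : l ∣ (z.coeff γ).num.natAbs := Int.natCast_dvd.1 h7
      have h9 := (z.coeff γ).reduced
      have := Nat.dvd_gcd h8 hd
      rw [Nat.Coprime] at h9
      rw [h9] at this
      exact hl.one_lt.ne' (Nat.dvd_one.1 this)
  refine ⟨(z.coeff γ).num, ?_⟩
  exact ((Rat.den_eq_one_iff _).1 h1).symm

/-- a high power of `l` makes `z` integral at `l` -/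
theorem exists_pow_LInt {l : ℕ} (hl : l.Prime) (z : MonoidAlgebra ℚ G) :
    ∃ M : ℕ, ∀ k : MonoidAlgebra ℚ G, k ∈ (toQ (G := G)).range →
      LInt l (((l : MonoidAlgebra ℚ G) ^ M * k) * z) := by
  obtain ⟨N, hN, hz⟩ := exists_denom z
  obtain ⟨M, n, hn, hNe⟩ := Nat.exists_eq_pow_mul_and_not_dvd hN.ne' l hl.one_lt.ne'
  refine ⟨M, fun k hk => ⟨n, hn, ?_⟩⟩
  have : (n : MonoidAlgebra ℚ G) * (((l : MonoidAlgebra ℚ G) ^ M * k) * z) =
      k * ((N : MonoidAlgebra ℚ G) * z) := by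
    rw [hNe]
    push_cast
    ring
  rw [this]
  exact mul_mem hk hz

end

variable {F H G : Type} [Field F] [NumberField F] [Field H] [NumberField H] [Algebra F H]
  [CommGroup G] [Finite G] [MulSemiringAction G H]

theorem delta_mem (D : RubinData F H G) (T : Finset (HeightOneSpectrum (𝓞 F))) :
    D.delta T ∈ (toQ (G := G)).range := by
  unfold RubinData.delta
  refine prod_mem fun v _ => sub_mem (one_mem _) ?_
  refine ⟨MonoidAlgebra.single (D.σ v)⁻¹ (Ideal.absNorm v.asIdeal : ℤ), ?_⟩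
  simp [toQ]

theorem pow_sub_one_lt {w : HeightOneSpectrum (𝓞 H)} {x : H} (h : w.valuation H (x - 1) < 1)
    (n : ℕ) : w.valuation H (x ^ n - 1) < 1 := by
  have hx : w.valuation H x = 1 := by
    have h := Valuation.map_one_add_of_lt (w.valuation H) h
    rwa [add_sub_cancel] at h
  induction n with
  | zero => rw [pow_zero, sub_self, map_zero]; exact zero_lt_one
  | succ n ih =>
    have e : x ^ (n + 1) - 1 = x * (x ^ n - 1) + (x - 1) := by ring
    rw [e]
    refine lt_of_le_of_lt (Valuation.map_add _ _ _) (max_lt ?_ h)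
    rw [map_mul, hx, one_mul]
    exact ih

/-- local triviality at all `t ∈ T` -/
theorem exists_pow_mem (D : RubinData F H G) (T : Finset (HeightOneSpectrum (𝓞 F))) {l : ℕ}
    (hl : l.Prime) (x : US D) (h : ∀ t ∈ T, LocTriv (F := F) l t (x : Hˣ)) :
    ∃ n : ℕ, ¬ l ∣ n ∧ (x : Hˣ) ^ n ∈ D.U T := by
  classical
  have h1 : ∀ t : T, ∃ n : ℕ, ¬ l ∣ n ∧ ∀ w : HeightOneSpectrum (𝓞 H), Above {t.1} w →
      w.valuation H (((x : Hˣ) : H) ^ n - 1) < 1 := fun t => h t.1 t.2
  choose n hn hn' using h1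
  refine ⟨∏ t : T, n t, ?_, ?_, ?_⟩
  · intro hd
    obtain ⟨t, -, ht⟩ := (hl.prime.dvd_finsetProd_iff _).1 hd
    exact hn t ht
  · exact (pow_mem x.2 _).1
  · intro w hw
    obtain ⟨v, hv, hvw⟩ := above_mem hw
    obtain ⟨k, hk⟩ := Finset.dvd_prod_of_mem n (Finset.mem_univ (⟨v, Finset.mem_coe.1 hv⟩ : T))
    rw [hk, Units.val_pow_eq_pow_val, pow_mul]
    exact pow_sub_one_lt (hn' ⟨v, Finset.mem_coe.1 hv⟩ w hvw) k

/-- comparison of two sets at `l` -/
theorem repl [hG : IsGaloisGroup G F H] (D : RubinData F H G) {U₀ : Subgroup Hˣ}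
    (h₀ : U₀ ≤ US D) (u₀ : Wedge G D.r U₀) (T T' : Finset (HeightOneSpectrum (𝓞 F))) {l : ℕ}
    (hl : l.Prime)
    (h : ∀ x : US D, (x : Hˣ) ∈ D.U T' → ∀ t ∈ T, LocTriv (F := F) l t (x : Hˣ))
    (hT' : IntAt D h₀ u₀ T')
    (f : Fin D.r → Additive (US D) →+ MonoidAlgebra ℚ G) (hf : ∀ i, IsEquiv D (f i))
    (hi : ∀ i, IntOn D T (f i)) : LInt l (D.delta T' * wval D h₀ f u₀) := by
  classical
  have hfg : AddGroup.FG (Additive (US D)) := fgA Pool.Agent.K3h25.RS.t_OVER D.S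
  have hfin : Module.Finite ℤ (Additive (US D)) := Module.Finite.iff_addGroup_fg.2 hfg
  -- the subgroup
  let B : AddSubgroup (Additive (US D)) :=
    { carrier := {a | ((Additive.toMul a : US D) : Hˣ) ∈ D.U T'}
      add_mem' := by
        intro a b ha hb
        change ((Additive.toMul a : US D) : Hˣ) * ((Additive.toMul b : US D) : Hˣ) ∈ D.U T'
        exact mul_mem ha hb
      zero_mem' := by
        change (1 : Hˣ) ∈ D.U T'
        exact one_mem _
      neg_mem' := by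
        intro a ha
        change (((Additive.toMul a : US D) : Hˣ))⁻¹ ∈ D.U T'
        exact inv_mem ha }
  obtain ⟨s, hs⟩ : (AddSubgroup.toIntSubmodule B).FG := IsNoetherian.noetherian _
  have hsB : ∀ a ∈ s, ((Additive.toMul a : US D) : Hˣ) ∈ D.U T' := by
    intro a ha
    have : a ∈ AddSubgroup.toIntSubmodule B := by
      rw [← hs]; exact Submodule.subset_span ha
    exact this
  have h1 : ∀ a : s, ∃ n : ℕ, ¬ l ∣ n ∧ ((Additive.toMul a.1 : US D) : Hˣ) ^ n ∈ D.U T :=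
    fun a => exists_pow_mem D T hl (Additive.toMul a.1) (h _ (hsB a.1 a.2))
  choose n hn hn' using h1
  have hN : ¬ l ∣ ∏ a : s, n a := by
    intro hd
    obtain ⟨t, -, ht⟩ := (hl.prime.dvd_finsetProd_iff _).1 hd
    exact hn t ht
  -- the multiple `N a` is in `U_T`
  have h2 : ∀ x : US D, (x : Hˣ) ∈ D.U T' → (x : Hˣ) ^ (∏ a : s, n a) ∈ D.U T := by
    intro x hx
    have hx' : Additive.ofMul x ∈ Submodule.span ℤ (s : Set (Additive (US D))) := by
      rw [hs]; exact hx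
    have key : ∀ a : Additive (US D), a ∈ Submodule.span ℤ (s : Set (Additive (US D))) →
        ((Additive.toMul a : US D) : Hˣ) ^ (∏ a : s, n a) ∈ D.U T := by
      intro a ha
      induction ha using Submodule.span_induction with
      | mem a ha =>
        obtain ⟨k, hk⟩ := Finset.dvd_prod_of_mem n (Finset.mem_univ (⟨a, ha⟩ : s))
        rw [hk, pow_mul]
        exact pow_mem (hn' ⟨a, ha⟩) k
      | zero =>
        have : ((Additive.toMul (0 : Additive (US D)) : US D) : Hˣ) = 1 := rfl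
        rw [this, one_pow]
        exact one_mem _
      | add a b _ _ ha hb =>
        have : ((Additive.toMul (a + b) : US D) : Hˣ) =
            ((Additive.toMul a : US D) : Hˣ) * ((Additive.toMul b : US D) : Hˣ) := rfl
        rw [this, mul_pow]
        exact mul_mem ha hb
      | smul c a _ ha =>
        have : ((Additive.toMul (c • a) : US D) : Hˣ) = ((Additive.toMul a : US D) : Hˣ) ^ c := rfl
        rw [this, ← zpow_natCast, ← zpow_mul, mul_comm, zpow_mul, zpow_natCast]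
        exact zpow_mem ha c
    exact key _ hx'
  set N : ℕ := ∏ a : s, n a with hNdef
  have h3 := hT' (fun i => N • f i) ?_ ?_
  · have h4 : wval D h₀ (fun i => N • f i) u₀ =
        ((N ^ D.r : ℕ) : MonoidAlgebra ℚ G) * wval D h₀ f u₀ := by
      unfold wval
      rw [Finset.mul_sum]
      refine Finset.sum_congr rfl fun k _ => ?_
      have h5 : (Matrix.of fun i j => (N • f i)
          (Additive.ofMul (⟨(u₀.x k j : Hˣ), h₀ (u₀.x k j).2⟩ : US D))) =
          Matrix.of fun i j => (N : MonoidAlgebra ℚ G) * f i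
            (Additive.ofMul (⟨(u₀.x k j : Hˣ), h₀ (u₀.x k j).2⟩ : US D)) := by
        ext i j : 1
        simp only [Matrix.of_apply, AddMonoidHom.nsmul_apply, nsmul_eq_mul]
      rw [h5, det_natCast_mul]
      push_cast
      ring
    rw [h4] at h3
    refine ⟨N ^ D.r, fun hd => hN (hl.dvd_of_dvd_pow hd), ?_⟩
    have h5 : ((N ^ D.r : ℕ) : MonoidAlgebra ℚ G) * (D.delta T' * wval D h₀ f u₀) =
        D.delta T' * (((N ^ D.r : ℕ) : MonoidAlgebra ℚ G) * wval D h₀ f u₀) := by ring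
    rw [h5]
    exact h3
  · intro i γ x y hxy
    simp only [AddMonoidHom.nsmul_apply]
    rw [hf i γ x y hxy, mul_smul_comm]
  · intro i x hx
    have h6 : (N • f i) (Additive.ofMul x) = f i (Additive.ofMul (x ^ N)) := by
      rw [ofMul_pow, map_nsmul, AddMonoidHom.nsmul_apply]
    rw [h6]
    exact hi i (x ^ N) (h2 x hx)

/-- primes over `l` -/
theorem locTriv_of_char {l : ℕ} (hl : l.Prime) (t : HeightOneSpectrum (𝓞 F))
    (ht : ringChar (𝓞 F ⧸ t.asIdeal) = l) (x : Hˣ)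
    (hx : ∀ w : HeightOneSpectrum (𝓞 H), Above {t} w → w.valuation H (x : H) = 1) :
    LocTriv (F := F) l t x := by
  classical
  have hfin := (Pool.Agent.K3h25.RS.t_OVER F H t).2
  -- the norm of `w` is divisible by `l`
  have hlw : ∀ w : HeightOneSpectrum (𝓞 H), Above {t} w → ¬ l ∣ Ideal.absNorm w.asIdeal - 1 := by
    intro w hw hd
    have h1 : ((l : ℕ) : 𝓞 F) ∈ t.asIdeal := by
      rw [← Ideal.Quotient.eq_zero_iff_mem, map_natCast, ← ht]
      exact CharP.cast_eq_zero _ _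
    have h2 : ((l : ℕ) : 𝓞 H) ∈ w.asIdeal := by
      rw [above_singleton] at hw
      rw [← hw, Ideal.mem_comap, map_natCast] at h1
      exact h1
    have hfinw : Finite (𝓞 H ⧸ w.asIdeal) := Pool.Agent.K3h43.RS.finite_quot w
    have h3 : l ∣ Ideal.absNorm w.asIdeal := by
      have h4 : (l : 𝓞 H ⧸ w.asIdeal) = 0 := by
        rw [← map_natCast (Ideal.Quotient.mk w.asIdeal), Ideal.Quotient.eq_zero_iff_mem]
        exact h2
      have hmax := w.isMaximal
      letI := Ideal.Quotient.field w.asIdeal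
      letI := Fintype.ofFinite (𝓞 H ⧸ w.asIdeal)
      obtain ⟨p, hp⟩ := CharP.exists (𝓞 H ⧸ w.asIdeal)
      obtain ⟨n, hp', hn⟩ := FiniteField.card (𝓞 H ⧸ w.asIdeal) p
      have h5 : p ∣ l := (CharP.cast_eq_zero_iff _ p l).1 h4
      have h6 : p = l := (Nat.prime_dvd_prime_iff_eq hp' hl).1 h5
      rw [Ideal.absNorm_apply, Submodule.cardQuot_apply, Nat.card_eq_fintype_card, hn, h6]
      exact dvd_pow_self l n.2.ne'
    have h7 : 1 ≤ Ideal.absNorm w.asIdeal := by
      have h0 : Ideal.absNorm w.asIdeal ≠ 0 := by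
        rw [Ne, Ideal.absNorm_eq_zero_iff]
        exact w.ne_bot
      omega
    have h8 := Nat.dvd_sub h3 hd
    rw [Nat.sub_sub_self h7] at h8
    exact hl.one_lt.ne' (Nat.dvd_one.1 h8)
  refine ⟨∏ w ∈ hfin.toFinset, (Ideal.absNorm w.asIdeal - 1), ?_, ?_⟩
  · intro hd
    obtain ⟨w, hw, hdw⟩ := (hl.prime.dvd_finsetProd_iff _).1 hd
    exact hlw w ((Set.Finite.mem_toFinset hfin).1 hw) hdw
  · intro w hw
    obtain ⟨k, hk⟩ := Finset.dvd_prod_of_mem
      (fun w : HeightOneSpectrum (𝓞 H) => Ideal.absNorm w.asIdeal - 1)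
      ((Set.Finite.mem_toFinset hfin).2 hw)
    rw [hk, pow_mul]
    refine pow_sub_one_lt ?_ k
    obtain ⟨χ, h1, h2⟩ := Pool.Agent.K3h44.RS.t_DLOG H w
    have h3 : χ (Additive.ofMul ((⟨x, hx w hw⟩ : unitsAt w) ^ (Ideal.absNorm w.asIdeal - 1))) = 0 := by
      rw [ofMul_pow, map_nsmul]
      exact h2 _
    rw [h1] at h3
    have h4 : (((⟨x, hx w hw⟩ : unitsAt w) ^ (Ideal.absNorm w.asIdeal - 1) : unitsAt w) : Hˣ) =
      x ^ (Ideal.absNorm w.asIdeal - 1) := rfl
    rw [h4, Units.val_pow_eq_pow_val] at h3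
    exact h3

end Pool.Agent.K3h30.RS
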