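import Pool.Agent.K3h30.RS.AddP
import Pool.Agent.K3h30.RS.Den

/-!
# The part at `p` of Rubin's conjecture for `S ∪ V`
-/

set_option autoImplicit false
set_option linter.unusedSectionVars false

open NumberField IsDedekindDomain Filter Topology

noncomputable section

namespace Pool.Agent.K3h30.RS

variable {F H G : Type} [Field F] [NumberField F] [Field H] [NumberField H] [Algebra F H]
  [CommGroup G] [Finite G] [MulSemiringAction G H]

/-- the element `∏ (1 - σ_v⁻¹)` -/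
def zV (D : RubinData F H G) (V : Finset (HeightOneSpectrum (𝓞 F))) : MonoidAlgebra ℤ G :=
  ∏ v ∈ V, (1 - MonoidAlgebra.single (D.σ v)⁻¹ (1 : ℤ))

theorem toQ_zV (D : RubinData F H G) (V : Finset (HeightOneSpectrum (𝓞 F))) :
    toQ (zV D V) = ∏ v ∈ V, (1 - MonoidAlgebra.single (D.σ v)⁻¹ (1 : ℚ)) := by
  unfold zV
  rw [map_prod]
  refine Finset.prod_congr rfl fun v _ => ?_
  simp [toQ]

theorem charValue_zV (D : RubinData F H G) (V : Finset (HeightOneSpectrum (𝓞 F)))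
    (χ : G →* ℂˣ) :
    charValue χ (toR (toQ (zV D V))) = ∏ v ∈ V, (1 - ((χ⁻¹ (D.σ v) : ℂˣ) : ℂ)) := by
  rw [Pool.Agent.K3h62.RS.charValue_eq, toQ_zV, map_prod, map_prod]
  refine Finset.prod_congr rfl fun v _ => ?_
  rw [map_sub, map_one, Pool.Agent.K3h62.RS.toR_single, map_sub, map_one,
    Pool.Agent.K3h62.RS.cvHom_single]
  simp

theorem U_mono [IsGaloisGroup G F H] (D : RubinData F H G) (V : Finset (HeightOneSpectrum (𝓞 F)))
    (hV : ∀ v ∈ V, v ∉ D.S ∧ D.σ v ≠ 1) (T : Finset (HeightOneSpectrum (𝓞 F))) :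
    D.U T ≤ (D.addPrimes V hV).U T := by
  classical
  intro x hx
  refine ⟨fun w hw => hx.1 w fun h => hw ?_, hx.2⟩
  refine above_mono ?_ h
  intro v hv
  exact Finset.mem_coe.2 (Finset.mem_union_left _ (Finset.mem_coe.1 hv))

/-- the Stark element for `S ∪ V` -/
def pushW [IsGaloisGroup G F H] (D : RubinData F H G) (V : Finset (HeightOneSpectrum (𝓞 F)))
    (hV : ∀ v ∈ V, v ∉ D.S ∧ D.σ v ≠ 1) (T : Finset (HeightOneSpectrum (𝓞 F)))
    (u : Wedge G D.r (D.U T)) : Wedge G (D.addPrimes V hV).r ((D.addPrimes V hV).U T) where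
  n := u.n
  c k := toQ (zV D V) * u.c k
  x k j := ⟨(u.x k j : Hˣ), U_mono D V hV T (u.x k j).2⟩

theorem push_er [IsGaloisGroup G F H] (D : RubinData F H G)
    (V : Finset (HeightOneSpectrum (𝓞 F))) (hV : ∀ v ∈ V, v ∉ D.S ∧ D.σ v ≠ 1)
    (T : Finset (HeightOneSpectrum (𝓞 F))) (u : Wedge G D.r (D.U T)) (h : D.InER u) :
    (D.addPrimes V hV).InER (pushW D V hV T u) := by
  classical
  intro χ hχ k
  change charValue χ (toR (toQ (zV D V) * u.c k)) = 0
  rw [map_mul, Pool.Agent.K3h62.RS.charValue_mul]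
  by_cases h1 : ∃ v ∈ V, χ (D.σ v) = 1
  · obtain ⟨v, hv, hv1⟩ := h1
    rw [charValue_zV, Finset.prod_eq_zero hv, zero_mul]
    simp [hv1]
  · push Not at h1
    have h2 : ¬ D.Active χ := by
      intro ha
      apply hχ
      rcases ha with ha | ⟨ha1, ha2⟩
      · left
        intro w hw hc
        rcases inS_union hw with hw | ⟨v, hv, w', rfl, hvw⟩
        · exact ha w hw hc
        · exact ⟨D.σ v, Pool.Agent.K3h92.RS.t_FIX F H G v (D.σ v) (D.frob v (hV v hv).1) w' hvw, h1 v hv⟩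
      · have hVe : V = ∅ := by
          rw [Finset.eq_empty_iff_forall_notMem]
          intro v hv
          exact h1 v hv (by rw [ha1]; rfl)
        right
        refine ⟨ha1, fun w w' hw hw' hc hc' => ha2 w w' ?_ ?_ hc hc'⟩
        · rcases inS_union hw with hw | ⟨v, hv, -⟩
          · exact hw
          · rw [hVe] at hv
            exact absurd hv (Finset.notMem_empty v)
        · rcases inS_union hw' with hw | ⟨v, hv, -⟩
          · exact hw
          · rw [hVe] at hv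
            exact absurd hv (Finset.notMem_empty v)
    rw [h χ h2 k, mul_zero]

theorem push_regulator [IsGaloisGroup G F H] (D : RubinData F H G)
    (V : Finset (HeightOneSpectrum (𝓞 F))) (hV : ∀ v ∈ V, v ∉ D.S ∧ D.σ v ≠ 1)
    (T : Finset (HeightOneSpectrum (𝓞 F))) (u : Wedge G D.r (D.U T)) :
    (pushW D V hV T u).regulator (D.addPrimes V hV).w = toR (toQ (zV D V)) * u.regulator D.w := by
  unfold Wedge.regulator
  rw [Finset.mul_sum]
  change (∑ k : Fin u.n, toR (toQ (zV D V) * u.c k) *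
    Matrix.det (Matrix.of fun a b => reg G (D.w a) (u.x k b : Hˣ))) = _
  refine Finset.sum_congr rfl fun k _ => ?_
  rw [map_mul, mul_assoc]

theorem push_stark [IsGaloisGroup G F H] (D : RubinData F H G)
    (V : Finset (HeightOneSpectrum (𝓞 F))) (hV : ∀ v ∈ V, v ∉ D.S ∧ D.σ v ≠ 1)
    (T : Finset (HeightOneSpectrum (𝓞 F))) (u : Wedge G D.r (D.U T)) (h : D.IsStark T u) :
    (D.addPrimes V hV).IsStark T (pushW D V hV T u) := by
  intro χ
  rw [push_regulator, Pool.Agent.K3h62.RS.charValue_mul, charValue_zV]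
  have h1 : Tendsto (fun s : ℂ => ∏ v ∈ V, (1 - ((χ⁻¹ (D.σ v) : ℂˣ) : ℂ) *
      (Ideal.absNorm v.asIdeal : ℂ) ^ (-s))) (𝓝[≠] 0)
      (𝓝 (∏ v ∈ V, (1 - ((χ⁻¹ (D.σ v) : ℂˣ) : ℂ)))) := by
    have h2 : Continuous (fun s : ℂ => ∏ v ∈ V, (1 - ((χ⁻¹ (D.σ v) : ℂˣ) : ℂ) *
        (Ideal.absNorm v.asIdeal : ℂ) ^ (-s))) := by
      refine continuous_finsetProd _ fun v _ => ?_
      have h0 : (Ideal.absNorm v.asIdeal : ℂ) ≠ 0 := by
        rw [Ne, Nat.cast_eq_zero, Ideal.absNorm_eq_zero_iff]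
        exact v.ne_bot
      exact continuous_const.sub (continuous_const.mul
        (continuous_neg.const_cpow (Or.inl h0)))
    have h3 := (h2.tendsto 0).mono_left (nhdsWithin_le_nhds (s := {0}ᶜ))
    simpa using h3
  refine (h1.mul (h χ)).congr fun s => ?_
  change _ * ((s ^ D.r)⁻¹ * D.LT T χ⁻¹ s) = (s ^ D.r)⁻¹ * ((∏ v ∈ T,
    (1 - ((χ⁻¹ (D.σ v) : ℂˣ) : ℂ) * (Ideal.absNorm v.asIdeal : ℂ) ^ (1 - s))) *
    ((∏ v ∈ V, (1 - ((χ⁻¹ (D.σ v) : ℂˣ) : ℂ) * (Ideal.absNorm v.asIdeal : ℂ) ^ (-s))) *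
      D.L χ⁻¹ s))
  unfold RubinData.LT
  ring

/-- restriction of `G`-homomorphisms -/
def restrictG {U U' : Subgroup Hˣ} (hle : U ≤ U') (ψ : GHom G U') : GHom G U where
  f := ψ.f.comp (MonoidHom.toAdditive (Subgroup.inclusion hle))
  equiv γ x y hxy := ψ.equiv γ _ _ hxy

theorem push_value [IsGaloisGroup G F H] (D : RubinData F H G)
    (V : Finset (HeightOneSpectrum (𝓞 F))) (hV : ∀ v ∈ V, v ∉ D.S ∧ D.σ v ≠ 1)
    (T : Finset (HeightOneSpectrum (𝓞 F))) (u : Wedge G D.r (D.U T))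
    (ψ : Fin D.r → GHom G ((D.addPrimes V hV).U T)) :
    (pushW D V hV T u).value ψ =
      toQ (zV D V) * u.value (fun i => restrictG (U_mono D V hV T) (ψ i)) := by
  unfold Wedge.value
  rw [Finset.mul_sum]
  refine Finset.sum_congr rfl fun k _ => ?_
  change toQ (zV D V) * u.c k * _ = _
  rw [mul_assoc]
  rfl

/-- the part at `p` of Rubin's conjecture for large `V` -/
theorem large [hG : IsGaloisGroup G F H] (D : RubinData F H G)
    {T₁ : Finset (HeightOneSpectrum (𝓞 F))} (h : D.Stark T₁) (p : ℕ) (hp : p.Prime) :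
    ∃ C : ℕ, ∀ (V : Finset (HeightOneSpectrum (𝓞 F))) (hV : ∀ v ∈ V, v ∉ D.S ∧ D.σ v ≠ 1),
      C ≤ Nat.card {v : HeightOneSpectrum (𝓞 F) // v ∈ V ∧ ∃ k : ℕ, D.σ v ^ p ^ k = 1} →
      ∀ T : Finset (HeightOneSpectrum (𝓞 F)), Disjoint (D.addPrimes V hV).S T →
        (D.addPrimes V hV).RubinAt p T := by
  classical
  obtain ⟨u₁, e₁, s₁⟩ := h
  obtain ⟨N, hN, hden⟩ := exists_den D T₁ u₁ e₁ s₁
  obtain ⟨m, n, hn, hNe⟩ := Nat.exists_eq_pow_mul_and_not_dvd hN.ne' p hp.one_lt.ne'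
  obtain ⟨C, hC⟩ := Pool.Agent.K3h91.RS.t_NILP G p m hp
  refine ⟨C, fun V hV hcard T hT => ?_⟩
  have hT' : Disjoint D.S T := by
    refine Disjoint.mono_left ?_ hT
    exact Finset.subset_union_left
  obtain ⟨u, e, s, hu⟩ := hden T hT'
  obtain ⟨y, hy⟩ := hC (HeightOneSpectrum (𝓞 F)) V D.σ hcard
  refine ⟨pushW D V hV T u, push_er D V hV T u e, push_stark D V hV T u s, fun ψ => ⟨n, hn, ?_⟩⟩
  obtain ⟨z, hz⟩ := hu (fun i => restrictG (U_mono D V hV T) (ψ i))
  refine ⟨y * z, ?_⟩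
  refine (congrArg (fun x => (n : MonoidAlgebra ℚ G) * x) (push_value D V hV T u ψ)).trans ?_
  rw [map_mul]
  have h1 : toQ (zV D V) = (p : MonoidAlgebra ℚ G) ^ m * toQ y := by
    unfold zV
    rw [hy, map_mul, map_pow, map_natCast]
  have h2 : toQ z = ((p : MonoidAlgebra ℚ G) ^ m * n) *
      u.value (fun i => restrictG (U_mono D V hV T) (ψ i)) := by
    rw [hz, hNe]
    push_cast
    rfl
  change (n : MonoidAlgebra ℚ G) * (toQ (zV D V) *
    u.value (fun i => restrictG (U_mono D V hV T) (ψ i))) = _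
  rw [h2, h1]
  ring

end Pool.Agent.K3h30.RS
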