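import Pool.Agent.K3h30.RS.Act

/-!
# The local characters of the `S`-units
-/

set_option autoImplicit false
set_option linter.unusedSectionVars false

open NumberField IsDedekindDomain Filter Topology

noncomputable section

namespace Pool.Agent.K3h30.RS

variable {F H G : Type} [Field F] [NumberField F] [Field H] [NumberField H] [Algebra F H]
  [CommGroup G] [Finite G] [MulSemiringAction G H]

/-- a unit of the local ring which is congruent to a `q`-th power has the same character -/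
theorem char_eq {w : HeightOneSpectrum (𝓞 H)} {χ : Additive (unitsAt w) →+ QZ}
    (h1 : ∀ x : unitsAt w, χ (Additive.ofMul x) = 0 ↔ w.valuation H (((x : Hˣ) : H) - 1) < 1)
    (x y : unitsAt w) (h : w.valuation H (((x : Hˣ) : H) - ((y : Hˣ) : H)) < 1) :
    χ (Additive.ofMul x) = χ (Additive.ofMul y) := by
  have hy : w.valuation H ((y : Hˣ) : H) = 1 := y.2
  have e : ((x * y⁻¹ : unitsAt w) : Hˣ) = (x : Hˣ) * (y : Hˣ)⁻¹ := rfl
  have h2 : χ (Additive.ofMul (x * y⁻¹)) = 0 := by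
    rw [h1, e, Units.val_mul, Units.val_inv_eq_inv_val]
    have h3 : ((x : Hˣ) : H) * ((y : Hˣ) : H)⁻¹ - 1 =
        (((x : Hˣ) : H) - ((y : Hˣ) : H)) * ((y : Hˣ) : H)⁻¹ := by
      field_simp
    rw [h3, map_mul, map_inv₀, hy, inv_one, mul_one]
    exact h
  have h3 : χ (Additive.ofMul x) = χ (Additive.ofMul (x * y⁻¹)) + χ (Additive.ofMul y) := by
    rw [← map_add, ← ofMul_mul, inv_mul_cancel_right]
  rw [h3, h2, zero_add]

/-- the local character at a prime ideal `t` of `F` outside `S`, on the `S`-units -/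
theorem exists_char (hD : S_DLOG) (hF : S_FROBU) (hT : S_TRANS) (hO : S_OVER)
    [hG : IsGaloisGroup G F H] (S : Finset (HeightOneSpectrum (𝓞 F)))
    (t : HeightOneSpectrum (𝓞 F)) (ht : t ∉ S) (σ : G) (hσ : IsFrob (H := H) t σ) :
    letI := actionA (H := H) (G := G) hT (S : Set (HeightOneSpectrum (𝓞 F))) ∅
    ∃ (χ : Additive (unitGroup (H := H) (S : Set (HeightOneSpectrum (𝓞 F))) ∅) →+ QZ) (m : ℕ),
      0 < m ∧ (∀ a, m • χ a = 0) ∧
      (∀ a, χ (σ • a) = (Ideal.absNorm t.asIdeal) • χ a) ∧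
      (∀ x : unitGroup (H := H) (S : Set (HeightOneSpectrum (𝓞 F))) ∅,
        (∀ γ : G, χ (γ • Additive.ofMul x) = 0) ↔
          ∀ w : HeightOneSpectrum (𝓞 H), Above {t} w → w.valuation H (((x : Hˣ) : H) - 1) < 1) ∧
      (∀ (N : ℕ) (x : unitGroup (H := H) (S : Set (HeightOneSpectrum (𝓞 F))) ∅), σ = 1 →
        (∀ w : HeightOneSpectrum (𝓞 H), Above {t} w →
          ∃ β : Hˣ, w.valuation H (β : H) = 1 ∧
            w.valuation H (((x : Hˣ) : H) - (β : H) ^ N) < 1) →
        ∀ γ : G, ∃ e : QZ, (Ideal.absNorm t.asIdeal - 1) • e = 0 ∧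
          χ (γ • Additive.ofMul x) = N • e) := by
  letI := actionA (H := H) (G := G) hT (S : Set (HeightOneSpectrum (𝓞 F))) ∅
  obtain ⟨w, hw⟩ := (hO F H t).1
  obtain ⟨χ, h1, h2⟩ := hD H w
  have hSw : ¬ Above (S : Set (HeightOneSpectrum (𝓞 F))) w := by
    rw [above_iff hw]
    exact fun h => ht (Finset.mem_coe.1 h)
  -- the restriction
  let i : unitGroup (H := H) (S : Set (HeightOneSpectrum (𝓞 F))) ∅ →* unitsAt w :=
    { toFun := fun x => ⟨x.1, x.2.1 w hSw⟩
      map_one' := rfl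
      map_mul' := fun _ _ => rfl }
  let χ' : Additive (unitGroup (H := H) (S : Set (HeightOneSpectrum (𝓞 F))) ∅) →+ QZ :=
    χ.comp (MonoidHom.toAdditive i)
  have hval : ∀ (γ : G) (x : unitGroup (H := H) (S : Set (HeightOneSpectrum (𝓞 F))) ∅),
      ∃ h : act γ (x : Hˣ) ∈ unitsAt w,
        χ' (γ • Additive.ofMul x) = χ (Additive.ofMul ⟨act γ (x : Hˣ), h⟩) := by
    intro γ x
    exact ⟨(act_mem hT _ _ γ x.2).1 w hSw, rfl⟩
  have hpos : 0 < Ideal.absNorm w.asIdeal - 1 := by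
    have : 1 < Ideal.absNorm w.asIdeal := by
      have h0 : Ideal.absNorm w.asIdeal ≠ 0 := by
        rw [Ne, Ideal.absNorm_eq_zero_iff]
        exact w.ne_bot
      have h3 : Ideal.absNorm w.asIdeal ≠ 1 := by
        rw [Ne, Ideal.absNorm_eq_one_iff]
        exact w.isPrime.ne_top
      omega
    omega
  refine ⟨χ', Ideal.absNorm w.asIdeal - 1, hpos, fun a => h2 _, ?_, ?_, ?_⟩
  · intro a
    obtain ⟨x, rfl⟩ : ∃ x, Additive.ofMul x = a := ⟨Additive.toMul a, rfl⟩
    obtain ⟨h, e⟩ := hval σ x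
    rw [e]
    have h3 := hF F H G t σ hσ w hw (x : Hˣ) (x.2.1 w hSw)
    have h4 := char_eq h1 ⟨act σ (x : Hˣ), h⟩ (i x ^ Ideal.absNorm t.asIdeal) (by
      change w.valuation H ((act σ (x : Hˣ) : H) - (((x : Hˣ) ^ Ideal.absNorm t.asIdeal : Hˣ) : H)) < 1
      rw [Units.val_pow_eq_pow_val]
      exact h3)
    rw [h4, ofMul_pow, map_nsmul]
    rfl
  · intro x
    constructor
    · intro h w' hw'
      obtain ⟨γ, hγ⟩ := (hT F H G t w hw).2 w' hw'
      obtain ⟨h3, e⟩ := hval γ x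
      have h4 := h γ
      rw [e, h1] at h4
      rw [hγ, smul_sub, smul_one]
      exact h4
    · intro h γ
      obtain ⟨h3, e⟩ := hval γ x
      rw [e, h1]
      obtain ⟨w', hw', h5⟩ := (hT F H G t w hw).1 γ
      have h6 := h w' hw'
      rw [h5, smul_sub, smul_one] at h6
      exact h6
  · intro N x hσ1 hN γ
    subst hσ1
    obtain ⟨w', hw', h5⟩ := (hT F H G t w hw).1 γ
    obtain ⟨β, hβ1, hβ2⟩ := hN w' hw'
    rw [h5] at hβ1 hβ2
    have hβ : act γ β ∈ unitsAt w := hβ1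
    obtain ⟨h3, e⟩ := hval γ x
    refine ⟨χ (Additive.ofMul ⟨act γ β, hβ⟩), ?_, ?_⟩
    · have h6 := hF F H G t 1 hσ w hw (act γ β) hβ
      rw [one_smul] at h6
      have h7 := char_eq h1 ⟨act γ β, hβ⟩ (⟨act γ β, hβ⟩ ^ Ideal.absNorm t.asIdeal) (by
        change w.valuation H ((act γ β : H) - (((act γ β : Hˣ) ^ Ideal.absNorm t.asIdeal : Hˣ) : H)) < 1
        rw [Units.val_pow_eq_pow_val]
        exact h6)
      rw [ofMul_pow, map_nsmul] at h7
      have hpos' : 1 ≤ Ideal.absNorm t.asIdeal := by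
        have h0 : Ideal.absNorm t.asIdeal ≠ 0 := by
          rw [Ne, Ideal.absNorm_eq_zero_iff]
          exact t.ne_bot
        omega
      have h8 : (Ideal.absNorm t.asIdeal - 1 + 1) • χ (Additive.ofMul ⟨act γ β, hβ⟩) =
          χ (Additive.ofMul ⟨act γ β, hβ⟩) := by
        rw [Nat.sub_add_cancel hpos', ← h7]
      rw [add_smul, one_smul] at h8
      exact add_eq_right.1 h8
    · rw [e]
      have h9 := char_eq h1 ⟨act γ (x : Hˣ), h3⟩ (⟨act γ β, hβ⟩ ^ N) (by
        change w.valuation H ((act γ (x : Hˣ) : H) - (((act γ β : Hˣ) ^ N : Hˣ) : H)) < 1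
        rw [Units.val_pow_eq_pow_val, act_val, act_val]
        rw [smul_sub, smul_pow'] at hβ2
        exact hβ2)
      rw [h9, ofMul_pow, map_nsmul]

end Pool.Agent.K3h30.RS
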