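import Pool.Agent.K3h30.RS.Good
import Pool.Agent.K3h73.RS.Lam
import Pool.Agent.K3h12.RS.Ext
import Pool.Agent.K3h24.RS.Det
import Pool.Agent.K3h44.RS.Dlog
import Pool.Agent.K3h25.RS.Trans
import Pool.Agent.K3h43.RS.Split
import Pool.Agent.K3h14.RS.Div
import Pool.Agent.K3h33.RS.Sieve
import Pool.Agent.K3h62.RS.LFUN

/-!
# Rubin's conjecture for almost all `T`
-/

set_option autoImplicit false
set_option linter.unusedSectionVars false

open NumberField IsDedekindDomain Filter Topology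

noncomputable section

namespace Pool.Agent.K3h30.RS

variable {F H G : Type} [Field F] [NumberField F] [Field H] [NumberField H] [Algebra F H]
  [CommGroup G] [Finite G] [MulSemiringAction G H]

/-- the primes of small residue characteristic -/
theorem finite_small (F : Type) [Field F] [NumberField F] (n : ℕ) :
    {v : HeightOneSpectrum (𝓞 F) | ringChar (𝓞 F ⧸ v.asIdeal) ≤ n}.Finite := by
  refine (Pool.Agent.K3h43.RS.finite_lt (H := F) ((n.factorial : ℕ) : F)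
    (Nat.cast_ne_zero.2 n.factorial_ne_zero)).subset ?_
  intro v hv
  have hv' : ringChar (𝓞 F ⧸ v.asIdeal) ≤ n := hv
  have hfin : Finite (𝓞 F ⧸ v.asIdeal) := Pool.Agent.K3h43.RS.finite_quot v
  have hmax := v.isMaximal
  letI := Ideal.Quotient.field v.asIdeal
  have hpos : 0 < ringChar (𝓞 F ⧸ v.asIdeal) := by
    rcases Nat.eq_zero_or_pos (ringChar (𝓞 F ⧸ v.asIdeal)) with h | h
    · exfalso
      have h1 : CharP (𝓞 F ⧸ v.asIdeal) 0 := by
        rw [← h]; exact ringChar.charP _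
      have h2 : CharZero (𝓞 F ⧸ v.asIdeal) := CharP.charP_to_charZero _
      exact not_finite (𝓞 F ⧸ v.asIdeal)
    · exact h
  have h1 : ((n.factorial : ℕ) : 𝓞 F ⧸ v.asIdeal) = 0 := by
    rw [ringChar.spec]
    exact Nat.dvd_factorial hpos hv'
  have h2 : ((n.factorial : ℕ) : 𝓞 F) ∈ v.asIdeal := by
    rw [← Ideal.Quotient.eq_zero_iff_mem, map_natCast]
    exact h1
  have h3 := (v.valuation_lt_one_iff_mem (K := F) ((n.factorial : ℕ) : 𝓞 F)).2 h2
  have h4 : (((n.factorial : ℕ) : 𝓞 F) : F) = ((n.factorial : ℕ) : F) := by simp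
  rw [← h4]
  exact h3

/-- Stark's conjecture does not depend on `T` -/
theorem stark_all [hG : IsGaloisGroup G F H] (D : RubinData F H G)
    {T₁ : Finset (HeightOneSpectrum (𝓞 F))} (h : D.Stark T₁)
    (T : Finset (HeightOneSpectrum (𝓞 F))) (hT : Disjoint D.S T) : D.Stark T := by
  obtain ⟨u₁, hER, hSt⟩ := h
  letI := actionA (H := H) (G := G) Pool.Agent.K3h25.RS.t_TRANS
    (D.S : Set (HeightOneSpectrum (𝓞 F))) ∅
  have hfg : AddGroup.FG (Additive (US D)) := fgA Pool.Agent.K3h25.RS.t_OVER D.S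
  obtain ⟨w, hw0, hw⟩ := exists_torsion (Additive (US D))
  obtain ⟨κ, hκ⟩ := Pool.Agent.K3h62.RS.t_UNIT F H G D T₁
  obtain ⟨d, m, hm0, hm, -, -⟩ := decompose Pool.Agent.K3h73.RS.t_LAM Pool.Agent.K3h12.RSE.t_EXT
    Pool.Agent.K3h44.RS.t_DLOG Pool.Agent.K3h44.RS.t_FROBU Pool.Agent.K3h25.RS.t_TRANS
    Pool.Agent.K3h25.RS.t_OVER D T hT w hw
  refine ⟨moved D u₁ κ m hm, moved_er D u₁ κ m hm hER, ?_⟩
  refine Pool.Agent.K3h62.RS.t_LFUN F H G D T₁ T (κ * D.delta T) ?_ (D.U T₁) (D.U T) u₁ _ ?_ hSt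
  · rw [← mul_assoc, hκ, one_mul]
  · rw [moved_regulator D u₁ κ hm0 hm, mul_comm κ]

/-- Rubin's conjecture for all `T` with a prime ideal which splits completely in a suitable
extension -/
theorem rubin_of_split [hG : IsGaloisGroup G F H] (D : RubinData F H G)
    {T₁ : Finset (HeightOneSpectrum (𝓞 F))} (h : D.Stark T₁) :
    ∃ (L : Type) (_ : Field L) (_ : NumberField L) (_ : Algebra F L)
      (bad : Finset (HeightOneSpectrum (𝓞 F))),
      ∀ v : HeightOneSpectrum (𝓞 F), v ∉ bad → SplitsIn L v →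
        D.Allowed {v} ∧ ∀ T : Finset (HeightOneSpectrum (𝓞 F)), Disjoint D.S T → v ∈ T →
          D.Rubin T := by
  classical
  obtain ⟨u₁, hER, hSt⟩ := h
  obtain ⟨N, Z, hN, hgood⟩ := rubin_of_good Pool.Agent.K3h73.RS.t_LAM Pool.Agent.K3h12.RSE.t_EXT
    Pool.Agent.K3h24.RS.Det.t_DET Pool.Agent.K3h44.RS.t_DLOG Pool.Agent.K3h44.RS.t_FROBU
    Pool.Agent.K3h25.RS.t_TRANS Pool.Agent.K3h25.RS.t_OVER Pool.Agent.K3h62.RS.t_UNIT
    Pool.Agent.K3h62.RS.t_LFUN D T₁ u₁ hER hSt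
  obtain ⟨L, i1, i2, i3, bad, hbad⟩ := Pool.Agent.K3h43.RS.t_SPLIT F H G N Z hN
  refine ⟨L, i1, i2, i3, bad ∪ D.S, ?_⟩
  intro v hv hsp
  rw [Finset.mem_union, not_or] at hv
  obtain ⟨h1, h2, h3, h4⟩ := hbad v hv.1 hsp
  refine ⟨⟨Finset.disjoint_singleton_right.2 hv.2, Or.inr ⟨v, Finset.mem_singleton_self v, h2⟩⟩, ?_⟩
  intro T hdis hvT
  exact hgood T hdis v hvT h1 (h3 _ (D.frob v hv.2)) h4

/-- the prime divisors of an ideal -/
theorem exists_divisors (a : Ideal (𝓞 F)) (ha : a ≠ ⊥) :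
    ∃ T : Finset (HeightOneSpectrum (𝓞 F)), ∀ v, v ∈ T ↔ v.asIdeal ∣ a := by
  refine ⟨(Ideal.finite_factors ha).toFinset, fun v => ?_⟩
  rw [Set.Finite.mem_toFinset]
  exact Iff.rfl

theorem main [hG : IsGaloisGroup G F H] (D : RubinData F H G) :
    List.TFAE [
      ∃ T, Disjoint D.S T ∧ D.Stark T,
      ∀ T, Disjoint D.S T → D.Stark T,
      ∃ T, D.Allowed T ∧ D.Rubin T,
      Tendsto (fun X : ℕ => (Nat.card {a : Ideal (𝓞 F) // a ∈ D.ideals X ∧ D.RubinIdeal a} : ℝ) /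
        Nat.card {a : Ideal (𝓞 F) // a ∈ D.ideals X}) atTop (𝓝 1),
      ∃ (L : Type) (_ : Field L) (_ : NumberField L) (_ : Algebra F L)
        (bad : Finset (HeightOneSpectrum (𝓞 F))), ∀ v : HeightOneSpectrum (𝓞 F), v ∉ bad →
          SplitsIn L v → ∀ T : Finset (HeightOneSpectrum (𝓞 F)), Disjoint D.S T → v ∈ T →
            D.Rubin T] := by
  classical
  tfae_have 1 → 2 := by
    rintro ⟨T₁, -, h⟩ T hT
    exact stark_all D h T hT
  tfae_have 2 → 5 := by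
    intro h
    obtain ⟨L, i1, i2, i3, bad, hbad⟩ := rubin_of_split D (h ∅ (Finset.disjoint_empty_right _))
    exact ⟨L, i1, i2, i3, bad, fun v hv hs => (hbad v hv hs).2⟩
  tfae_have 2 → 4 := by
    intro h
    obtain ⟨L, i1, i2, i3, bad, hbad⟩ := rubin_of_split D (h ∅ (Finset.disjoint_empty_right _))
    have h1 := Pool.Agent.K3h14.RS.t_DIV F L bad
    refine Pool.Agent.K3h33.RS.t_DENS F D.S (fun v => v ∉ bad ∧ SplitsIn L v) h1 D.RubinIdeal ?_
    intro a ha hS hv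
    obtain ⟨v, ⟨hv1, hv2⟩, hva⟩ := hv
    obtain ⟨T, hT⟩ := exists_divisors a ha
    have hdis : Disjoint D.S T := by
      rw [Finset.disjoint_left]
      intro x hx hxT
      exact hS x hx ((hT x).1 hxT)
    have hvT : v ∈ T := (hT v).2 hva
    obtain ⟨h2, h3⟩ := hbad v hv1 hv2
    refine ⟨T, hT, ⟨hdis, ?_⟩, h3 T hdis hvT⟩
    rcases h2.2 with ⟨x, hx, y, hy, hxy⟩ | ⟨x, hx, hx'⟩
    · rw [Finset.mem_singleton] at hx hy
      rw [hx, hy] at hxy
      exact absurd rfl hxy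
    · rw [Finset.mem_singleton] at hx
      rw [hx] at hx'
      exact Or.inr ⟨v, hvT, hx'⟩
  tfae_have 4 → 3 := by
    intro h
    have h1 : ∀ᶠ X : ℕ in atTop, (0 : ℝ) <
        (Nat.card {a : Ideal (𝓞 F) // a ∈ D.ideals X ∧ D.RubinIdeal a} : ℝ) /
        Nat.card {a : Ideal (𝓞 F) // a ∈ D.ideals X} :=
      h.eventually (lt_mem_nhds one_pos)
    obtain ⟨X, hX⟩ := h1.exists
    have h2 : Nat.card {a : Ideal (𝓞 F) // a ∈ D.ideals X ∧ D.RubinIdeal a} ≠ 0 := by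
      intro h0
      rw [h0, Nat.cast_zero, zero_div] at hX
      exact lt_irrefl _ hX
    have h3 := Nat.card_ne_zero.1 h2
    obtain ⟨⟨a, -, T, -, h4, h5⟩⟩ := h3.1
    exact ⟨T, h4, h5⟩
  tfae_have 5 → 3 := by
    rintro ⟨L, i1, i2, i3, bad, hbad⟩
    let bad' : Finset (HeightOneSpectrum (𝓞 F)) :=
      bad ∪ D.S ∪ (finite_small F (Module.finrank ℚ F + 1)).toFinset
    have h1 := Pool.Agent.K3h14.RS.t_DIV F L bad'
    have h2 : Nonempty {v : HeightOneSpectrum (𝓞 F) // v ∉ bad' ∧ SplitsIn L v} := by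
      by_contra h3
      rw [not_nonempty_iff] at h3
      exact h1 (summable_of_hasFiniteSupport (Set.toFinite _))
    obtain ⟨v, hv, hs⟩ := h2
    simp only [bad', Finset.mem_union, not_or, Set.Finite.mem_toFinset, Set.mem_ofPred_eq,
      not_le] at hv
    have hdis : Disjoint D.S {v} := Finset.disjoint_singleton_right.2 hv.1.2
    exact ⟨{v}, ⟨hdis, Or.inr ⟨v, Finset.mem_singleton_self v, hv.2⟩⟩,
      hbad v hv.1.1 hs {v} hdis (Finset.mem_singleton_self v)⟩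
  tfae_have 3 → 1 := by
    rintro ⟨T, hT, u, h1, -, h2⟩
    exact ⟨T, hT.1, u, h1, h2⟩
  tfae_finish

end Pool.Agent.K3h30.RS
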