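import Pool.Agent.K3h30.RS.Defs

/-!
# Rubin's conjecture for almost all `T`: statements of the parts
-/

set_option autoImplicit false

open NumberField IsDedekindDomain Filter Topology

noncomputable section

namespace Pool.Agent.K3h30.RS

/-- `ℚ / ℤ` -/
abbrev QZ : Type := AddCircle (1 : ℚ)

/-- Lifting characters: a homomorphism to `ℚ / ℤ` of a finitely generated group lifts to `ℚ` after
multiplication by a number `w` which kills the torsion. The lift is used to define a
`G`-homomorphism to `ℚ[G]`. -/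
def S_LAM : Prop :=
  ∀ (G A : Type) [CommGroup G] [Finite G] [AddCommGroup A] [DistribMulAction G A] [AddGroup.FG A]
    (w : ℕ), (∀ a : A, IsOfFinAddOrder a → w • a = 0) →
    ∀ χ : A →+ QZ, ∃ Λ : A →+ MonoidAlgebra ℚ G,
      (∀ (γ : G) (a : A), Λ (γ • a) = MonoidAlgebra.single γ 1 * Λ a) ∧
      ∀ (γ : G) (a : A), (((Λ a).coeff γ : ℚ) : QZ) = w • χ (γ⁻¹ • a)

/-- Extension: a `G`-homomorphism `ψ : B → ℤ[G]`, `B` the common kernel of the `χ t ∘ γ`, times `w`
is the sum of a `G`-homomorphism `A → ℤ[G]` and of a combination of the `Λ t`. -/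
def S_EXT : Prop :=
  ∀ (G A I : Type) [CommGroup G] [Finite G] [AddCommGroup A] [DistribMulAction G A] [Fintype I]
    (w m : ℕ), 0 < m → ∀ χ : I → A →+ QZ, (∀ t a, m • χ t a = 0) →
    ∀ Λ : I → A →+ MonoidAlgebra ℚ G,
      (∀ t (γ : G) (a : A), Λ t (γ • a) = MonoidAlgebra.single γ 1 * Λ t a) →
      (∀ t (γ : G) (a : A), (((Λ t a).coeff γ : ℚ) : QZ) = w • χ t (γ⁻¹ • a)) →
    ∀ B : AddSubgroup A, (∀ a, a ∈ B ↔ ∀ t (γ : G), χ t (γ • a) = 0) →
    ∀ ψ : B →+ MonoidAlgebra ℤ G,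
      (∀ (γ : G) (x y : B), (y : A) = γ • (x : A) → ψ y = MonoidAlgebra.single γ 1 * ψ x) →
    ∃ (y : A →+ MonoidAlgebra ℤ G) (a : I → MonoidAlgebra ℤ G),
      (∀ (γ : G) (x : A), y (γ • x) = MonoidAlgebra.single γ 1 * y x) ∧
      ∀ b : B, (w : MonoidAlgebra ℚ G) * toQ (ψ b) = toQ (y b) + ∑ t, toQ (a t) * Λ t b

/-- The determinant of a matrix with rows in `Z₀` plus multiples of the rows `Λ t`, `t ∈ T`, is
in `N Z₀` after multiplication by the `δ t`, if `δ v` and `δ v Λ v` are divisible by `N`. -/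
def S_DET : Prop :=
  ∀ (R ι : Type) [CommRing R] [DecidableEq ι] (Z : Subring R) (T : Finset ι) (δ : ι → R) (r : ℕ)
    (Y : Fin r → Fin r → R) (a : Fin r → ι → R) (Λ : ι → Fin r → R),
    (∀ i j, Y i j ∈ Z) → (∀ i t, a i t ∈ Z) → (∀ t ∈ T, δ t ∈ Z) →
    (∀ t ∈ T, ∀ j, δ t * Λ t j ∈ Z) →
    ∀ (v : ι) (N : R), N ∈ Z → v ∈ T → (∃ z ∈ Z, δ v = N * z) →
    (∀ j, ∃ z ∈ Z, δ v * Λ v j = N * z) →
    ∃ z ∈ Z, (∏ t ∈ T, δ t) * Matrix.det (Matrix.of fun i j => Y i j + ∑ t ∈ T, a i t * Λ t j) =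
      N * z

/-- The same for functions, without `v`: the determinant times the `δ t` is a combination of
determinants of functions of the module `M`. -/
def S_DETF : Prop :=
  ∀ (R ι A : Type) [CommRing R] [DecidableEq ι] (Z : Subring R) (M : Submodule Z (A → R))
    (T : Finset ι) (δ : ι → R) (r : ℕ) (Y : Fin r → A → R) (a : Fin r → ι → R) (Λ : ι → A → R),
    (∀ i, Y i ∈ M) → (∀ i t, a i t ∈ Z) → (∀ t ∈ T, δ t ∈ Z) →
    (∀ t ∈ T, (fun x => δ t * Λ t x) ∈ M) →
    (fun x : Fin r → A => (∏ t ∈ T, δ t) *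
      Matrix.det (Matrix.of fun i j => Y i (x j) + ∑ t ∈ T, a i t * Λ t (x j))) ∈
      Submodule.span Z {f : (Fin r → A) → R | ∃ y : Fin r → A → R, (∀ i, y i ∈ M) ∧
        f = fun x => Matrix.det (Matrix.of fun i j => y i (x j))}

/-- Noetherian argument: functions which, multiplied by `w ^ r`, are combinations of determinants of
functions of a finitely generated module, are combinations of finitely many of them. -/
def S_FIN : Prop :=
  ∀ (R A J : Type) [CommRing R] (Z : Subring R) [IsNoetherianRing Z] (M : Submodule Z (A → R)),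
    M.FG → ∀ (r w : ℕ), (∀ z : R, (w : R) * z = 0 → z = 0) →
    ∀ f : J → (Fin r → A) → R,
      (∀ j, (fun x => ((w ^ r : ℕ) : R) * f j x) ∈
        Submodule.span Z {g : (Fin r → A) → R | ∃ y : Fin r → A → R, (∀ i, y i ∈ M) ∧
          g = fun x => Matrix.det (Matrix.of fun i j => y i (x j))}) →
      ∃ s : Finset J, ∀ j, f j ∈ Submodule.span Z (f '' (s : Set J))

/-- The module of the `G`-homomorphisms `A → ℤ[G]`, as functions to `ℚ[G]`, is finitely generated,
and `ℤ[G]` is a Noetherian ring. -/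
def S_HOMFG : Prop :=
  ∀ (G A : Type) [CommGroup G] [Finite G] [AddCommGroup A] [DistribMulAction G A] [AddGroup.FG A],
    IsNoetherianRing (toQ (G := G)).range ∧
    ∃ M : Submodule (toQ (G := G)).range (A → MonoidAlgebra ℚ G), M.FG ∧
      ∀ f : A → MonoidAlgebra ℚ G, f ∈ M ↔ ∃ y : A →+ MonoidAlgebra ℤ G,
        (∀ (γ : G) (x : A), y (γ • x) = MonoidAlgebra.single γ 1 * y x) ∧ ∀ x, f x = toQ (y x)

/-- The group of the `x` in `H^*` which are units at `w`. -/
def unitsAt {H : Type} [Field H] [NumberField H] (w : HeightOneSpectrum (𝓞 H)) : Subgroup Hˣ where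
  carrier := {x | w.valuation H (x : H) = 1}
  mul_mem' := by
    intro x y hx hy
    change w.valuation H _ = 1
    change w.valuation H (x : H) = 1 at hx
    change w.valuation H (y : H) = 1 at hy
    rw [Units.val_mul, map_mul, hx, hy, one_mul]
  one_mem' := by
    change w.valuation H _ = 1
    rw [Units.val_one, map_one]
  inv_mem' := by
    intro x hx
    change w.valuation H _ = 1
    change w.valuation H (x : H) = 1 at hx
    rw [Units.val_inv_eq_inv_val, map_inv₀, hx, inv_one]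

/-- The multiplicative group of the residue field of `w` is cyclic: it has a faithful character. -/
def S_DLOG : Prop :=
  ∀ (H : Type) [Field H] [NumberField H] (w : HeightOneSpectrum (𝓞 H)),
    ∃ χ : Additive (unitsAt w) →+ QZ,
      (∀ x : unitsAt w, χ (Additive.ofMul x) = 0 ↔ w.valuation H (((x : Hˣ) : H) - 1) < 1) ∧
      ∀ x, (Ideal.absNorm w.asIdeal - 1) • χ x = 0

/-- The Frobenius property for elements of `H` which are units at `w`. -/
def S_FROBU : Prop :=
  ∀ (F H G : Type) [Field F] [NumberField F] [Field H] [NumberField H] [Algebra F H]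
    [CommGroup G] [Finite G] [MulSemiringAction G H] [IsGaloisGroup G F H]
    (v : HeightOneSpectrum (𝓞 F)) (γ : G), IsFrob (H := H) v γ →
    ∀ w : HeightOneSpectrum (𝓞 H), Above {v} w → ∀ x : Hˣ, w.valuation H (x : H) = 1 →
      w.valuation H (γ • (x : H) - (x : H) ^ (Ideal.absNorm v.asIdeal)) < 1

/-- The group `G` acts on the prime ideals over `v`, transitively. -/
def S_TRANS : Prop :=
  ∀ (F H G : Type) [Field F] [NumberField F] [Field H] [NumberField H] [Algebra F H]
    [CommGroup G] [Finite G] [MulSemiringAction G H] [IsGaloisGroup G F H]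
    (v : HeightOneSpectrum (𝓞 F)) (w : HeightOneSpectrum (𝓞 H)), Above {v} w →
    (∀ γ : G, ∃ w' : HeightOneSpectrum (𝓞 H), Above {v} w' ∧
      ∀ x : H, w'.valuation H x = w.valuation H (γ • x)) ∧
    ∀ w' : HeightOneSpectrum (𝓞 H), Above {v} w' →
      ∃ γ : G, ∀ x : H, w'.valuation H x = w.valuation H (γ • x)

/-- Every prime ideal of `F` has a prime ideal of `H` over it, and there are finitely many. -/
def S_OVER : Prop :=
  ∀ (F H : Type) [Field F] [NumberField F] [Field H] [NumberField H] [Algebra F H]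
    (v : HeightOneSpectrum (𝓞 F)),
    (∃ w : HeightOneSpectrum (𝓞 H), Above {v} w) ∧
      {w : HeightOneSpectrum (𝓞 H) | Above {v} w}.Finite

/-- Prime ideals which split completely in a suitable extension: they are `1` modulo `N`, their
Frobenius automorphism is trivial, and given elements of `H` are `N`-th powers modulo them. -/
def S_SPLIT : Prop :=
  ∀ (F H G : Type) [Field F] [NumberField F] [Field H] [NumberField H] [Algebra F H]
    [CommGroup G] [Finite G] [MulSemiringAction G H] [IsGaloisGroup G F H]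
    (N : ℕ) (Z : Finset Hˣ), 0 < N →
    ∃ (L : Type) (_ : Field L) (_ : NumberField L) (_ : Algebra F L)
      (bad : Finset (HeightOneSpectrum (𝓞 F))),
      ∀ v : HeightOneSpectrum (𝓞 F), v ∉ bad → SplitsIn L v →
        N ∣ Ideal.absNorm v.asIdeal - 1 ∧
        Module.finrank ℚ F + 1 < ringChar (𝓞 F ⧸ v.asIdeal) ∧
        (∀ γ : G, IsFrob (H := H) v γ → γ = 1) ∧
        ∀ w : HeightOneSpectrum (𝓞 H), Above {v} w → ∀ z ∈ Z, w.valuation H (z : H) = 1 →
          ∃ β : Hˣ, w.valuation H (β : H) = 1 ∧ w.valuation H ((z : H) - (β : H) ^ N) < 1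

/-- The sum of `1 / N v` over the prime ideals which split completely in `L`, outside a finite set,
is infinite. -/
def S_DIV : Prop :=
  ∀ (F L : Type) [Field F] [NumberField F] [Field L] [NumberField L] [Algebra F L]
    (bad : Finset (HeightOneSpectrum (𝓞 F))),
    ¬ Summable (fun v : {v : HeightOneSpectrum (𝓞 F) // v ∉ bad ∧ SplitsIn L v} =>
      ((Ideal.absNorm (v : HeightOneSpectrum (𝓞 F)).asIdeal : ℝ))⁻¹)

/-- The density of the ideals prime to a finite set of prime ideals. -/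
def S_SIEVE : Prop :=
  ∀ (F : Type) [Field F] [NumberField F], ∃ c : ℝ, 0 < c ∧
    ∀ M : Finset (HeightOneSpectrum (𝓞 F)),
      Tendsto (fun X : ℕ => (Nat.card {a : Ideal (𝓞 F) // a ≠ ⊥ ∧ Ideal.absNorm a ≤ X ∧
        ∀ v ∈ M, ¬ v.asIdeal ∣ a} : ℝ) / X) atTop
        (𝓝 (c * ∏ v ∈ M, (1 - ((Ideal.absNorm v.asIdeal : ℝ))⁻¹)))

/-- Almost all ideals prime to `S` have a prime divisor in a set `P` of prime ideals with divergent
sum of `1 / N v`. -/
def S_DENS : Prop :=
  ∀ (F : Type) [Field F] [NumberField F] (S : Finset (HeightOneSpectrum (𝓞 F)))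
    (P : HeightOneSpectrum (𝓞 F) → Prop),
    (¬ Summable (fun v : {v : HeightOneSpectrum (𝓞 F) // P v} =>
      ((Ideal.absNorm (v : HeightOneSpectrum (𝓞 F)).asIdeal : ℝ))⁻¹)) →
    ∀ Q : Ideal (𝓞 F) → Prop,
      (∀ a : Ideal (𝓞 F), a ≠ ⊥ → (∀ v ∈ S, ¬ v.asIdeal ∣ a) → (∃ v, P v ∧ v.asIdeal ∣ a) → Q a) →
      Tendsto (fun X : ℕ => (Nat.card {a : Ideal (𝓞 F) // (a ≠ ⊥ ∧ Ideal.absNorm a ≤ X ∧
          ∀ v ∈ S, ¬ v.asIdeal ∣ a) ∧ Q a} : ℝ) /
        Nat.card {a : Ideal (𝓞 F) // a ≠ ⊥ ∧ Ideal.absNorm a ≤ X ∧ ∀ v ∈ S, ¬ v.asIdeal ∣ a})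
        atTop (𝓝 1)

/-- `δ_T` is a unit of `ℚ[G]`. -/
def S_UNIT : Prop :=
  ∀ (F H G : Type) [Field F] [NumberField F] [Field H] [NumberField H] [Algebra F H]
    [CommGroup G] [Finite G] [MulSemiringAction G H] (D : RubinData F H G)
    (T : Finset (HeightOneSpectrum (𝓞 F))), ∃ κ : MonoidAlgebra ℚ G, D.delta T * κ = 1

/-- The change of `T` on the analytic side. -/
def S_LFUN : Prop :=
  ∀ (F H G : Type) [Field F] [NumberField F] [Field H] [NumberField H] [Algebra F H]
    [CommGroup G] [Finite G] [MulSemiringAction G H] (D : RubinData F H G)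
    (T₁ T : Finset (HeightOneSpectrum (𝓞 F))) (κ : MonoidAlgebra ℚ G),
    D.delta T₁ * κ = D.delta T →
    ∀ (U₁ U : Subgroup Hˣ) (u₁ : Wedge G D.r U₁) (u : Wedge G D.r U),
      u.regulator D.w = toR κ * u₁.regulator D.w → D.IsStark T₁ u₁ → D.IsStark T u

end Pool.Agent.K3h30.RS
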