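import Pool.Agent.K3h30.RS.Stm

/-!
# Rubin's conjecture and the sets `T`: statements of further parts
-/

set_option autoImplicit false

open NumberField IsDedekindDomain Filter Topology

noncomputable section

namespace Pool.Agent.K3h30.RS

/-- Linear relations over `ℝ` between the logarithms of `S`-units come from relations in the group:
the map from `ℝ ⊗ U_S` to the space of logarithms is injective. -/
def S_LOGINJ : Prop :=
  ∀ (H : Type) [Field H] [NumberField H] (S : Set (HeightOneSpectrum (𝓞 H))), S.Finite →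
    ∀ (n : ℕ) (a : Fin n → ℝ) (x : Fin n → S.unit H),
      (∀ w : InfinitePlace H, ∑ k, a k * Real.log (w ((x k : Hˣ) : H)) = 0) →
      (∀ w ∈ S, ∑ k, a k * Real.log (HeightOneSpectrum.adicAbv H w ((x k : Hˣ) : H)) = 0) →
      ∀ f : Additive (S.unit H) →+ ℝ, ∑ k, a k * f (Additive.ofMul (x k)) = 0

/-- For an active character `χ` the homomorphisms `U_S → ℂ` on which `G` acts by `χ` are linear
combinations of the `χ`-components of the `r` regulator maps. -/
def S_SPANREG : Prop :=
  ∀ (F H G : Type) [Field F] [NumberField F] [Field H] [NumberField H] [Algebra F H]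
    [CommGroup G] [Finite G] [MulSemiringAction G H] [IsGaloisGroup G F H] (D : RubinData F H G)
    (χ : G →* ℂˣ), D.Active χ →
    ∀ g : Additive (unitGroup (H := H) (D.S : Set (HeightOneSpectrum (𝓞 F))) ∅) →+ ℂ,
      (∀ (γ : G) (x y : unitGroup (H := H) (D.S : Set (HeightOneSpectrum (𝓞 F))) ∅),
        (y : Hˣ) = act γ (x : Hˣ) → g (Additive.ofMul y) = (χ γ : ℂ) * g (Additive.ofMul x)) →
      ∃ a : Fin D.r → ℂ, ∀ x : unitGroup (H := H) (D.S : Set (HeightOneSpectrum (𝓞 F))) ∅,
        g (Additive.ofMul x) = ∑ i, a i * charValue χ (reg G (D.w i) (x : Hˣ))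

/-- The value of a family of `G`-homomorphisms `U_S → ℚ[G]` at an element of `ℚ ⋀^r U`. -/
def wval {F H G : Type} [Field F] [NumberField F] [Field H] [NumberField H] [Algebra F H]
    [CommGroup G] [Finite G] [MulSemiringAction G H] (D : RubinData F H G) {U : Subgroup Hˣ}
    (hU : U ≤ unitGroup (H := H) (D.S : Set (HeightOneSpectrum (𝓞 F))) ∅)
    (f : Fin D.r → Additive (unitGroup (H := H) (D.S : Set (HeightOneSpectrum (𝓞 F))) ∅) →+
      MonoidAlgebra ℚ G) (u : Wedge G D.r U) : MonoidAlgebra ℚ G :=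
  ∑ k, u.c k * Matrix.det (Matrix.of fun i j => f i (Additive.ofMul ⟨(u.x k j : Hˣ), hU (u.x k j).2⟩))

/-- Uniqueness of the Stark element: the values of the elements for `T₁` and `T₂` agree up to the
factors `δ`. -/
def S_UNIQ : Prop :=
  ∀ (F H G : Type) [Field F] [NumberField F] [Field H] [NumberField H] [Algebra F H]
    [CommGroup G] [Finite G] [MulSemiringAction G H] [IsGaloisGroup G F H] (D : RubinData F H G)
    (T₁ T₂ : Finset (HeightOneSpectrum (𝓞 F))) (U₁ U₂ : Subgroup Hˣ)
    (h₁ : U₁ ≤ unitGroup (H := H) (D.S : Set (HeightOneSpectrum (𝓞 F))) ∅)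
    (h₂ : U₂ ≤ unitGroup (H := H) (D.S : Set (HeightOneSpectrum (𝓞 F))) ∅)
    (u₁ : Wedge G D.r U₁) (u₂ : Wedge G D.r U₂), D.InER u₁ → D.InER u₂ →
    D.IsStark T₁ u₁ → D.IsStark T₂ u₂ →
    ∀ f : Fin D.r → Additive (unitGroup (H := H) (D.S : Set (HeightOneSpectrum (𝓞 F))) ∅) →+
      MonoidAlgebra ℚ G,
      (∀ i (γ : G) (x y : unitGroup (H := H) (D.S : Set (HeightOneSpectrum (𝓞 F))) ∅),
        (y : Hˣ) = act γ (x : Hˣ) →
        f i (Additive.ofMul y) = MonoidAlgebra.single γ 1 * f i (Additive.ofMul x)) →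
      D.delta T₂ * wval D h₁ f u₁ = D.delta T₁ * wval D h₂ f u₂

/-- Chebotarev: for an automorphism `Φ` of a finite extension `L / F` there is a positive proportion
of prime ideals `v` of `F` with a prime ideal `P` of `L` over `v` at which `Φ` acts as the Frobenius
automorphism. -/
def S_CHEB : Prop :=
  ∀ (F L : Type) [Field F] [NumberField F] [Field L] [NumberField L] [Algebra F L]
    (Φ : L ≃ₐ[F] L) (bad : Finset (HeightOneSpectrum (𝓞 F))),
    PosProportion (fun v : HeightOneSpectrum (𝓞 F) => v ∉ bad ∧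
      ∃ P : HeightOneSpectrum (𝓞 L), Above {v} P ∧
        ∀ x : 𝓞 L, P.valuation L (Φ (x : L) - (x : L) ^ (Ideal.absNorm v.asIdeal)) < 1)

/-- The image of `x` in the `ℓ`-part of the group of the residue fields over `t` is trivial. -/
def LocTriv {F H : Type} [Field F] [NumberField F] [Field H] [NumberField H] [Algebra F H]
    (l : ℕ) (t : HeightOneSpectrum (𝓞 F)) (x : Hˣ) : Prop :=
  ∃ n : ℕ, ¬ l ∣ n ∧ ∀ w : HeightOneSpectrum (𝓞 H), Above {t} w →
    w.valuation H ((x : H) ^ n - 1) < 1

/-- A positive proportion of the prime ideals `v` looks like `t` from the point of view of the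
prime number `l`: same Frobenius automorphism, same norm modulo `l ^ M`, and the same elements of a
finitely generated group are trivial in the `l`-part of the group of the residue fields. -/
def S_APPROX : Prop :=
  ∀ (F H G : Type) [Field F] [NumberField F] [Field H] [NumberField H] [Algebra F H]
    [CommGroup G] [Finite G] [MulSemiringAction G H] [IsGaloisGroup G F H]
    (t : HeightOneSpectrum (𝓞 F)) (γ : G) (l M : ℕ) (Z : Finset Hˣ), IsFrob (H := H) t γ →
    Squarefree (t.asIdeal.map (algebraMap (𝓞 F) (𝓞 H))) → l.Prime →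
    ringChar (𝓞 F ⧸ t.asIdeal) ≠ l →
    (∀ z ∈ Z, ∀ w : HeightOneSpectrum (𝓞 H), Above {t} w → w.valuation H (z : H) = 1) →
    ∃ P : HeightOneSpectrum (𝓞 F) → Prop, PosProportion P ∧ ∀ v, P v →
      IsFrob (H := H) v γ ∧ ringChar (𝓞 F ⧸ v.asIdeal) ≠ l ∧
      Ideal.absNorm v.asIdeal ≡ Ideal.absNorm t.asIdeal [MOD l ^ M] ∧
      ∀ x ∈ Subgroup.closure (Z : Set Hˣ), LocTriv (F := F) l v x ↔ LocTriv (F := F) l t x

/-- If `H` does not contain the `l`-th roots of unity there is a positive proportion of prime ideals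
which split completely in `H` and whose norm is not `1` modulo `l`. -/
def S_APPROX0 : Prop :=
  ∀ (F H G : Type) [Field F] [NumberField F] [Field H] [NumberField H] [Algebra F H]
    [CommGroup G] [Finite G] [MulSemiringAction G H] [IsGaloisGroup G F H] (l : ℕ), l.Prime →
    (¬ ∃ ζ : H, ζ ^ l = 1 ∧ ζ ≠ 1) →
    ∃ P : HeightOneSpectrum (𝓞 F) → Prop, PosProportion P ∧ ∀ v, P v →
      IsFrob (H := H) v (1 : G) ∧ ¬ l ∣ Ideal.absNorm v.asIdeal - 1

/-- `H` contains no `l`-th roots of unity if a prime ideal over `l > [F : ℚ] + 1` is unramified. -/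
def S_NOZETA : Prop :=
  ∀ (F H : Type) [Field F] [NumberField F] [Field H] [NumberField H] [Algebra F H]
    (t : HeightOneSpectrum (𝓞 F)), Squarefree (t.asIdeal.map (algebraMap (𝓞 F) (𝓞 H))) →
    Module.finrank ℚ F + 1 < ringChar (𝓞 F ⧸ t.asIdeal) →
    ¬ ∃ ζ : H, ζ ^ (ringChar (𝓞 F ⧸ t.asIdeal)) = 1 ∧ ζ ≠ 1

/-- All prime ideals have positive proportion. -/
def S_PP : Prop :=
  ∀ (F : Type) [Field F] [NumberField F],
    PosProportion (fun _ : HeightOneSpectrum (𝓞 F) => True)

end Pool.Agent.K3h30.RS
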