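import Pool.Agent.K3h30.RS.Stm3

/-!
# Rubin's conjecture and the sets `S`: statements of parts
-/

set_option autoImplicit false

open NumberField IsDedekindDomain Filter Topology

noncomputable section

namespace Pool.Agent.K3h30.RS

/-- A Frobenius automorphism at the primes over `v` fixes them. -/
def S_FIX : Prop :=
  ∀ (F H G : Type) [Field F] [NumberField F] [Field H] [NumberField H] [Algebra F H]
    [CommGroup G] [Finite G] [MulSemiringAction G H] [IsGaloisGroup G F H]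
    (v : HeightOneSpectrum (𝓞 F)) (γ : G), IsFrob (H := H) v γ →
    ∀ w : HeightOneSpectrum (𝓞 H), Above {v} w → Fixes (Sum.inr w : Place H) γ

/-- The decomposition group of an unramified prime is generated by the Frobenius automorphism. -/
def S_DECOMP : Prop :=
  ∀ (F H G : Type) [Field F] [NumberField F] [Field H] [NumberField H] [Algebra F H]
    [CommGroup G] [Finite G] [MulSemiringAction G H] [IsGaloisGroup G F H]
    (v : HeightOneSpectrum (𝓞 F)), Squarefree (v.asIdeal.map (algebraMap (𝓞 F) (𝓞 H))) →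
    ∀ σ : G, IsFrob (H := H) v σ → ∀ w : HeightOneSpectrum (𝓞 H), Above {v} w →
      ∀ γ : G, Fixes (Sum.inr w : Place H) γ → γ ∈ Subgroup.zpowers σ

/-- Removing finitely many factors from a product. -/
def S_EULER : Prop :=
  ∀ (I : Type) [DecidableEq I] (S V : Finset I) (f : I → ℂ) (a : ℂ), Disjoint S V →
    (∀ v ∈ V, f v ≠ 0) → HasProd (fun v : {v : I // v ∉ S} => (f v)⁻¹) a →
    HasProd (fun v : {v : I // v ∉ S ∪ V} => (f v)⁻¹) ((∏ v ∈ V, f v) * a)

/-- A product of many elements `1 - σ⁻¹`, `σ` of `p`-power order, is divisible by a high power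
of `p` in `ℤ[G]`. -/
def S_NILP : Prop :=
  ∀ (G : Type) [CommGroup G] [Finite G] (p m : ℕ), p.Prime → ∃ C : ℕ,
    ∀ (I : Type) (V : Finset I) (σ : I → G),
      C ≤ Nat.card {v : I // v ∈ V ∧ ∃ k : ℕ, σ v ^ p ^ k = 1} →
      ∃ y : MonoidAlgebra ℤ G,
        ∏ v ∈ V, (1 - MonoidAlgebra.single (σ v)⁻¹ (1 : ℤ)) = (p : MonoidAlgebra ℤ G) ^ m * y

/-- The element `1 - σ⁻¹` is invertible on the characters with `χ σ ≠ 1`. -/
def S_VNR : Prop :=
  ∀ (G : Type) [CommGroup G] [Finite G] (σ : G), ∃ z : MonoidAlgebra ℚ G,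
    ∀ c : MonoidAlgebra ℚ G, (∀ χ : G →* ℂˣ, χ σ = 1 → charValue χ (toR c) = 0) →
      c * (1 - MonoidAlgebra.single σ⁻¹ (1 : ℚ)) * z = c

/-- Extension of `G`-homomorphisms to `ℤ[G]`, if the quotient is torsion free. -/
def S_EXTG : Prop :=
  ∀ (H G : Type) [Field H] [CommGroup G] [Finite G] [MulSemiringAction G H]
    (U U' : Subgroup Hˣ) (hle : U ≤ U'), (∀ (γ : G), ∀ x ∈ U, act γ x ∈ U) →
    (∀ (γ : G), ∀ x ∈ U', act γ x ∈ U') → Group.FG U' →
    (∀ x ∈ U', ∀ n : ℕ, 0 < n → x ^ n ∈ U → x ∈ U) →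
    ∀ ψ : GHom G U, ∃ ψ' : GHom G U', ∀ x : U,
      ψ'.f (Additive.ofMul ⟨(x : Hˣ), hle x.2⟩) = ψ.f (Additive.ofMul x)

end Pool.Agent.K3h30.RS
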