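import Pool.Agent.K3h30.RS.Large

/-!
# The action of the elements `1 - σ_v⁻¹`
-/

set_option autoImplicit false
set_option linter.unusedSectionVars false

open NumberField IsDedekindDomain Filter Topology

noncomputable section

namespace Pool.Agent.K3h30.RS

variable {F H G : Type} [Field F] [NumberField F] [Field H] [NumberField H] [Algebra F H]
  [CommGroup G] [Finite G] [MulSemiringAction G H]

theorem av_mul (w : Place H) (x y : H) : av w (x * y) = av w x * av w y := by
  cases w with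
  | inl w => simp only [av, map_mul, mul_pow]
  | inr w => simp only [av, map_mul]

theorem av_ne_zero (w : Place H) {x : H} (hx : x ≠ 0) : av w x ≠ 0 := by
  cases w with
  | inl w =>
    simp only [av]
    exact pow_ne_zero _ ((map_ne_zero w).2 hx)
  | inr w =>
    simp only [av]
    exact (map_ne_zero (HeightOneSpectrum.adicAbv H w)).2 hx

theorem reg_mul (w : Place H) (x y : Hˣ) : reg G w (x * y) = reg G w x + reg G w y := by
  unfold reg
  rw [← Finset.sum_add_distrib]
  refine Finset.sum_congr rfl fun γ _ => ?_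
  rw [act_map_mul, Units.val_mul, av_mul,
    Real.log_mul (av_ne_zero w (Units.ne_zero _)) (av_ne_zero w (Units.ne_zero _)),
    MonoidAlgebra.single_add]

theorem reg_one (w : Place H) : reg G w (1 : Hˣ) = 0 := by
  have h := reg_mul (G := G) w (1 : Hˣ) 1
  rw [one_mul] at h
  exact (add_eq_left.1 h.symm)

theorem reg_inv (w : Place H) (x : Hˣ) : reg G w x⁻¹ = -reg G w x := by
  have h := reg_mul (G := G) w x x⁻¹
  rw [mul_inv_cancel, reg_one] at h
  exact (neg_eq_of_add_eq_zero_right h.symm).symm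

theorem reg_act (w : Place H) (γ : G) (x : Hˣ) :
    reg G w (act γ x) = MonoidAlgebra.single γ 1 * reg G w x := by
  unfold reg
  letI := Fintype.ofFinite G
  rw [Finset.mul_sum]
  refine Fintype.sum_equiv (Equiv.mulLeft γ⁻¹) _ _ fun δ => ?_
  rw [MonoidAlgebra.single_mul_single, one_mul, Equiv.coe_mulLeft, mul_inv_cancel_left,
    mul_inv, inv_inv, ← act_mul, mul_comm]

/-- the action of the product of the `1 - σ_v⁻¹` -/
def zx (D : RubinData F H G) : List (HeightOneSpectrum (𝓞 F)) → Hˣ → Hˣ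
  | [], x => x
  | v :: l, x => zx D l x * (act (D.σ v)⁻¹ (zx D l x))⁻¹

/-- the product of the `1 - σ_v⁻¹` -/
def zl (D : RubinData F H G) (l : List (HeightOneSpectrum (𝓞 F))) : MonoidAlgebra ℤ G :=
  (l.map fun v => (1 - MonoidAlgebra.single (D.σ v)⁻¹ (1 : ℤ) : MonoidAlgebra ℤ G)).prod

theorem zl_toList (D : RubinData F H G) (V : Finset (HeightOneSpectrum (𝓞 F))) :
    zl D V.toList = zV D V := by
  unfold zl zV
  exact Finset.prod_map_toList V _

theorem zx_mem (D : RubinData F H G) {U : Subgroup Hˣ} (hU : ∀ (γ : G), ∀ x ∈ U, act γ x ∈ U)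
    (l : List (HeightOneSpectrum (𝓞 F))) {x : Hˣ} (hx : x ∈ U) : zx D l x ∈ U := by
  induction l with
  | nil => exact hx
  | cons v l ih => exact mul_mem ih (inv_mem (hU _ _ ih))

theorem zx_psi (D : RubinData F H G) {U : Subgroup Hˣ} (hU : ∀ (γ : G), ∀ x ∈ U, act γ x ∈ U)
    (ψ : GHom G U) (l : List (HeightOneSpectrum (𝓞 F))) {x : Hˣ} (hx : x ∈ U) :
    ψ.f (Additive.ofMul ⟨zx D l x, zx_mem D hU l hx⟩) = zl D l * ψ.f (Additive.ofMul ⟨x, hx⟩) := by
  induction l with
  | nil =>
    unfold zl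
    rw [List.map_nil, List.prod_nil, one_mul]
    rfl
  | cons v l ih =>
    have h1 : (Additive.ofMul (⟨zx D (v :: l) x, zx_mem D hU (v :: l) hx⟩ : U)) =
        Additive.ofMul (⟨zx D l x, zx_mem D hU l hx⟩ : U) -
        Additive.ofMul (⟨act (D.σ v)⁻¹ (zx D l x), hU _ _ (zx_mem D hU l hx)⟩ : U) := by
      rw [sub_eq_add_neg]
      rfl
    have h2 := ψ.equiv (D.σ v)⁻¹ (⟨zx D l x, zx_mem D hU l hx⟩ : U)
      (⟨act (D.σ v)⁻¹ (zx D l x), hU _ _ (zx_mem D hU l hx)⟩ : U) rfl
    rw [h1, map_sub, h2, ih]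
    unfold zl
    rw [List.map_cons, List.prod_cons]
    ring

theorem zx_reg (D : RubinData F H G) (w : Place H) (l : List (HeightOneSpectrum (𝓞 F)))
    (x : Hˣ) : reg G w (zx D l x) = toR (toQ (zl D l)) * reg G w x := by
  induction l with
  | nil =>
    unfold zl
    rw [List.map_nil, List.prod_nil, map_one, map_one, one_mul]
    rfl
  | cons v l ih =>
    have h1 : zl D (v :: l) = (1 - MonoidAlgebra.single (D.σ v)⁻¹ (1 : ℤ)) * zl D l := by
      unfold zl
      rw [List.map_cons, List.prod_cons]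
    have h2 : toR (toQ (MonoidAlgebra.single (D.σ v)⁻¹ (1 : ℤ))) =
        MonoidAlgebra.single (D.σ v)⁻¹ (1 : ℝ) := by
      simp [toQ, toR]
    change reg G w (zx D l x * (act (D.σ v)⁻¹ (zx D l x))⁻¹) = _
    rw [reg_mul, reg_inv, reg_act, ih, h1, map_mul, map_mul, map_sub, map_sub, map_one, map_one,
      h2]
    ring

/-- the valuation of a conjugate -/
theorem val_act [IsGaloisGroup G F H] {v : HeightOneSpectrum (𝓞 F)} {x : Hˣ}
    (h : ∀ w : HeightOneSpectrum (𝓞 H), Above {v} w → w.valuation H (x : H) = 1) (γ : G)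
    (w : HeightOneSpectrum (𝓞 H)) (hw : Above {v} w) :
    w.valuation H ((act γ x : Hˣ) : H) = 1 := by
  obtain ⟨w', h1, h2⟩ := (Pool.Agent.K3h25.RS.t_TRANS F H G v w hw).1 γ
  rw [act_val, ← h2]
  exact h w' h1

theorem val_inv {w : HeightOneSpectrum (𝓞 H)} {x : Hˣ} (h : w.valuation H (x : H) = 1) :
    w.valuation H ((x⁻¹ : Hˣ) : H) = 1 := by
  rw [Units.val_inv_eq_inv_val, map_inv₀, h, inv_one]

/-- `Fixes` in terms of the valuation -/
theorem fixes_val {w : HeightOneSpectrum (𝓞 H)} {γ : G} (h : Fixes (Sum.inr w : Place H) γ)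
    (x : H) : w.valuation H (γ • x) = w.valuation H x := by
  have h1 := Pool.Agent.K3h25.RS.val_aut w w γ
    (fun x => (Pool.Agent.K3h92.RS.fixes_mem h x).symm) x
  rw [h1]

theorem zx_val [IsGaloisGroup G F H] (D : RubinData F H G) (l : List (HeightOneSpectrum (𝓞 F)))
    (hl : ∀ v ∈ l, v ∉ D.S) (x : Hˣ) :
    ∀ v ∈ l, ∀ w : HeightOneSpectrum (𝓞 H), Above {v} w →
      w.valuation H ((zx D l x : Hˣ) : H) = 1 := by
  induction l with
  | nil => intro v hv; exact absurd hv List.not_mem_nil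
  | cons v₀ l ih =>
    have ih' := ih fun v hv => hl v (List.mem_cons_of_mem _ hv)
    intro v hv w hw
    change w.valuation H (((zx D l x * (act (D.σ v₀)⁻¹ (zx D l x))⁻¹ : Hˣ)) : H) = 1
    rw [Units.val_mul, map_mul]
    rcases List.mem_cons.1 hv with h | h
    · subst h
      have hfix := Pool.Agent.K3h92.RS.t_FIX F H G v (D.σ v)
        (D.frob v (hl v List.mem_cons_self)) w hw
      have h1 : w.valuation H ((act (D.σ v)⁻¹ (zx D l x) : Hˣ) : H) =
          w.valuation H ((zx D l x : Hˣ) : H) := by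
        have h2 := fixes_val hfix ((act (D.σ v)⁻¹ (zx D l x) : Hˣ) : H)
        rw [act_val, smul_inv_smul] at h2
        rw [act_val]
        exact h2.symm
      have h3 : w.valuation H ((zx D l x : Hˣ) : H) ≠ 0 :=
        (Valuation.ne_zero_iff _).2 (Units.ne_zero _)
      rw [Units.val_inv_eq_inv_val, map_inv₀, h1, mul_inv_cancel₀ h3]
    · rw [ih' v h w hw, one_mul]
      exact val_inv (val_act (fun w hw => ih' v h w hw) _ w hw)

theorem U_stable [IsGaloisGroup G F H] (D : RubinData F H G)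
    (T : Finset (HeightOneSpectrum (𝓞 F))) (γ : G) (x : Hˣ) (hx : x ∈ D.U T) :
    act γ x ∈ D.U T :=
  act_mem Pool.Agent.K3h25.RS.t_TRANS _ _ γ hx

theorem zx_mem_U [IsGaloisGroup G F H] (D : RubinData F H G)
    (V : Finset (HeightOneSpectrum (𝓞 F))) (hV : ∀ v ∈ V, v ∉ D.S ∧ D.σ v ≠ 1)
    (T : Finset (HeightOneSpectrum (𝓞 F))) {x : Hˣ} (hx : x ∈ (D.addPrimes V hV).U T) :
    zx D V.toList x ∈ D.U T := by
  classical
  have h1 : zx D V.toList x ∈ (D.addPrimes V hV).U T :=
    zx_mem D (U_stable (D.addPrimes V hV) T) V.toList hx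
  refine ⟨fun w hw => ?_, h1.2⟩
  obtain ⟨v, hv⟩ := exists_above (F := F) w
  by_cases hvV : v ∈ V
  · exact zx_val D V.toList (fun v hv => (hV v (Finset.mem_toList.1 hv)).1) x v
      (Finset.mem_toList.2 hvV) w hv
  · refine h1.1 w ?_
    rw [above_iff hv]
    rw [above_iff hv] at hw
    intro h2
    rcases Finset.mem_union.1 (Finset.mem_coe.1 h2) with h | h
    · exact hw (Finset.mem_coe.2 h)
    · exact hvV h

end Pool.Agent.K3h30.RS
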